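import Pool.Agent.H96.W0.T0
import Pool.Agent.H96.W.CData3

/-!
# The data attached to a function on a curve which is not a `p`-th power
-/

set_option autoImplicit false
set_option linter.unusedSectionVars false

namespace Pool.Agent.H96.W0

open MvPolynomial IsLocalRing Pool.Agent.H96.VL Pool.Agent.H96.W

/-- The data attached to a function `f` on a curve with function field `F`. -/
structure CD (p : ℕ) [Fact p.Prime] (F : Type) [Field F] [Algebra (ZMod p) F] (f : F) (M Lo : ℕ) where
  x : F
  g0 : F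
  g1 : F
  N : ℕ
  base : Finset (Finset F)
  T : Finset F
  x0 : x ≠ 0
  zero_base : ∀ s ∈ base, 0 ∉ s ∧ s.Nonempty
  zero_T : 0 ∉ T
  detect : ∀ (W : ValuationSubring F) (R : Subring F), VLocal W R → (∀ s ∈ base, Prin R s) →
    ∀ w, W.valuation w ≤ 1 → w ∈ R
  loc : ∀ W : ValuationSubring F, ∃ τ : F,
    (∀ g ∈ T, W.valuation g ≤ W.valuation (τ * tw x N W)) ∧
    (∃ g ∈ T, W.valuation g = W.valuation (τ * tw x N W)) ∧
    (W.valuation x ≤ 1 → W.valuation (x ^ (Lo * N) * (g1 - g0)) ≤ W.valuation τ ^ Lo) ∧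
    (¬ W.valuation x ≤ 1 → W.valuation ((g1 - g0) / x ^ (Lo * N)) ≤ W.valuation τ ^ Lo) ∧
    ((τ = 1 ∧ ∃ (n : ℕ) (y : Fin (n + 1) → F)
        (G : Fin (n + 1) → MvPolynomial (Fin (n + 1)) (ZMod p)) (l : Fin (n + 1)),
        Pres W n y G l ∧ y l = f - gg x g0 g1 W ^ p) ∨
      (W.valuation τ < 1 ∧ τ ≠ 0 ∧ ∃ e : ℤ, ¬ (p : ℤ) ∣ e ∧ |e| ≤ M ∧
        ∃ (n : ℕ) (y : Fin (n + 1) → F)
          (G : Fin (n + 1) → MvPolynomial (Fin (n + 1)) (ZMod p)) (l u : Fin (n + 1)),
          Pres W n y G l ∧ y l = τ ∧ y u = (f - gg x g0 g1 W ^ p) * τ ^ (-e) ∧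
            W.valuation (y u) = 1))

/-- **The data of a curve exist.** -/
theorem nonempty_cd (p : ℕ) [Fact p.Prime] (F : Type) [Field F] [Algebra (ZMod p) F]
    [Algebra.EssFiniteType (ZMod p) F] (htr : Algebra.trdeg (ZMod p) F = 1) (f : F)
    (hf : ∀ a : F, a ^ p ≠ f) : ∃ M : ℕ, ∀ Lo : ℕ, 1 ≤ Lo → Nonempty (CD p F f M Lo) := by
  classical
  have hc := charP_F p F
  obtain ⟨x, hx, i1, i2, i3, i4⟩ := exists_sep (ZMod p) F htr
  have hx0 : x ≠ 0 := by
    rintro rfl
    exact hx (isAlgebraic_zero)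
  have hx' : Transcendental (ZMod p) x⁻¹ := by
    intro h
    apply hx
    have := h.inv
    rwa [inv_inv] at this
  obtain ⟨A₀, hA₀⟩ := exists_chart (k := ZMod p) x hx
  obtain ⟨A₁, hA₁⟩ := exists_chart (k := ZMod p) x⁻¹ hx'
  have hA : ∀ w : F, w ∈ pring p (⊤ : Subring F) f := fun w => mem_pring_top x f hf w
  have d0 := hA₀.ded
  have e0 := hA₀.frac
  have t0 := hA₀.finiteType
  have d1 := hA₁.ded
  have e1 := hA₁.frac
  have t1 := hA₁.finiteType
  obtain ⟨b₀, hb₀, hsm⟩ := exists_smooth (R := A₀) hA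
  set X : A₀ := ⟨x, hA₀.mem⟩ with hX
  have hXF : algebraMap A₀ F X = x := rfl
  set ξ : A₁ := ⟨x⁻¹, hA₁.mem⟩ with hξ
  have hξF : algebraMap A₁ F ξ = x⁻¹ := rfl
  have hX0 : X ≠ 0 := by
    intro h
    have : x = 0 := congrArg (fun z : A₀ => (z : F)) h
    exact hx0 this
  have hξ0 : ξ ≠ 0 := by
    intro h
    have : x⁻¹ = 0 := congrArg (fun z : A₁ => (z : F)) h
    exact hx0 (inv_eq_zero.mp this)
  set b : A₀ := X * b₀ with hb
  have hb0 : b ≠ 0 := mul_ne_zero hX0 hb₀
  have hb0' : algebraMap A₀ F b ≠ 0 := algebraMap_ne_zero hb0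
  obtain ⟨K, b1, hb1⟩ := exists_pow_den (R := A₁) ξ (algebraMap A₀ F b) (by
    intro W hW hv
    rw [hξF, map_inv₀, inv_eq_one] at hv
    exact hA₀.le hv.le b)
  rw [hξF] at hb1
  have hb10 : b1 ≠ 0 := by
    rintro rfl
    rw [map_zero] at hb1
    exact mul_ne_zero (pow_ne_zero _ (inv_ne_zero hx0)) hb0' hb1
  set c : A₁ := ξ * b1 with hcdef
  have hc0 : c ≠ 0 := mul_ne_zero hξ0 hb10
  obtain ⟨M0, hM0⟩ := exists_gauge0 (R := A₀) hb0 hA hf
  obtain ⟨M1, hM1⟩ := exists_gauge0 (R := A₁) hc0 hA hf
  refine ⟨max M0 M1, fun Lo hLo => ?_⟩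
  obtain ⟨g0, n0, c0, hg0, hgood0⟩ := hM0 0 (fun _ => True) 0
  obtain ⟨h, n1, c1, hh, hgood1⟩ := hM1 Lo (fun W => ¬ W.valuation x ≤ 1) g0
  -- `h` is regular where `v(x) = 1`
  have hreg : ∀ W : ValuationSubring F, W.valuation x = 1 → W.valuation h ≤ 1 := by
    intro W hv
    have hLe := hA₁.le (W := W) ((val_inv_le hx0).mpr hv.ge)
    by_cases hcv : W.valuation (algebraMap A₁ F c) < 1
    · have hq : cen W hLe ≠ ⊥ := by
        intro h0
        have h1 : c ∈ cen W hLe := hcv
        rw [h0] at h1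
        exact hc0 h1
      obtain ⟨t, ht⟩ := exists_place hLe hq
      refine ((hgood1 W hLe hcv _ ht.unif).2 (not_not.mpr hv.le)).trans ?_
      exact pow_le_one' ht.lt.le _
    · have hc1 : W.valuation (algebraMap A₁ F c) = 1 := le_antisymm (hLe c) (not_lt.mp hcv)
      have h3 := congrArg W.valuation hh
      rw [map_mul, map_pow, hc1, one_pow, one_mul] at h3
      rw [h3]
      exact hLe c1
  obtain ⟨N1, c1', hh1⟩ := exists_pow_den (R := A₀) X h (by
    intro W hW hv
    rw [hXF] at hv
    exact hreg W hv)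
  rw [hXF] at hh1
  obtain ⟨N2, c2, hh2⟩ := exists_pow_den (R := A₁) ξ h (by
    intro W hW hv
    rw [hξF, map_inv₀, inv_eq_one] at hv
    exact hreg W hv)
  rw [hξF] at hh2
  obtain ⟨N3, hN3⟩ := exists_T' hx0 hA₀ hA₁ (algebraMap A₀ F b₀) b₀.2 (algebraMap_ne_zero hb₀)
  set n := max N3 (max N1 N2 + 1) with hn
  obtain ⟨T, hT0, hT⟩ := hN3 n (le_max_left _ _)
  obtain ⟨S0, hS00, hS0A, hS0⟩ := hA₀.exists_gens
  obtain ⟨S1, hS10, hS1A, hS1⟩ := hA₁.exists_gens
  have hLoN : max N1 N2 + Lo ≤ Lo * n := by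
    have h1 : max N1 N2 + 1 ≤ n := le_max_right _ _
    calc max N1 N2 + Lo ≤ Lo * max N1 N2 + Lo * 1 := by
          rw [mul_one]
          exact Nat.add_le_add_right (Nat.le_mul_of_pos_left _ hLo) _
      _ = Lo * (max N1 N2 + 1) := by ring
      _ ≤ Lo * n := Nat.mul_le_mul_left _ h1
  refine ⟨⟨x, g0, g0 + h, n,
    {{1, x}} ∪ (S0.image fun e => {1, x, e}) ∪ (S1.image fun e => {1, x, e * x}), T, hx0, ?_, hT0,
    ?_, ?_⟩⟩
  · intro s hs
    rw [Finset.mem_union, Finset.mem_union, Finset.mem_singleton, Finset.mem_image,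
      Finset.mem_image] at hs
    rcases hs with (rfl | ⟨e, he, rfl⟩) | ⟨e, he, rfl⟩
    · refine ⟨?_, ⟨1, by simp⟩⟩
      rw [Finset.mem_insert, Finset.mem_singleton]
      rintro (h | h)
      · exact zero_ne_one h
      · exact hx0 h.symm
    · refine ⟨?_, ⟨1, by simp⟩⟩
      rw [Finset.mem_insert, Finset.mem_insert, Finset.mem_singleton]
      rintro (h | h | h)
      · exact zero_ne_one h
      · exact hx0 h.symm
      · exact hS00 e he h.symm
    · refine ⟨?_, ⟨1, by simp⟩⟩
      rw [Finset.mem_insert, Finset.mem_insert, Finset.mem_singleton]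
      rintro (h | h | h)
      · exact zero_ne_one h
      · exact hx0 h.symm
      · exact mul_ne_zero (hS10 e he) hx0 h.symm
  · intro W R hR hs w hw
    by_cases hW : W.valuation x ≤ 1
    · have hLe := hA₀.le hW
      refine hA₀.detect hLe hR hS0 (fun e he => ?_) hw
      have h1 := hs {1, x, e} (by
        rw [Finset.mem_union, Finset.mem_union]
        exact Or.inl (Or.inr (Finset.mem_image_of_mem (fun e => ({1, x, e} : Finset F)) he)))
      have h2 := prin_pair hR h1 (w := 1) (u := e) (by simp) (by simp) (by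
        intro g hg
        rw [Finset.mem_insert, Finset.mem_insert, Finset.mem_singleton] at hg
        rw [map_one]
        rcases hg with rfl | rfl | rfl
        · rw [map_one]
        · exact hW
        · exact hLe ⟨_, hS0A _ he⟩)
      rwa [div_one] at h2
    · have hv := (val_inv_lt hx0).mpr hW
      have hLe := hA₁.le hv.le
      refine hA₁.detect hLe hR hS1 (fun e he => ?_) hw
      have h1 := hs {1, x, e * x} (by
        rw [Finset.mem_union, Finset.mem_union]
        exact Or.inr (Finset.mem_image_of_mem (fun e => ({1, x, e * x} : Finset F)) he))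
      have h2 := prin_pair hR h1 (w := x) (u := e * x) (by simp) (by simp) (by
        intro g hg
        rw [Finset.mem_insert, Finset.mem_insert, Finset.mem_singleton] at hg
        rcases hg with rfl | rfl | rfl
        · rw [map_one]; exact (not_le.mp hW).le
        · exact le_rfl
        · rw [map_mul]
          exact mul_le_of_le_one_left' (hLe ⟨_, hS1A _ he⟩))
      rwa [mul_div_cancel_right₀ _ hx0] at h2
  · intro W
    obtain ⟨τ, h1, h2, h3, h4⟩ := hT W
    refine ⟨τ, h1, h2, ?_, ?_, ?_⟩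
    · -- the first condition on `h`
      intro hW
      rw [add_sub_cancel_left]
      rcases h3 hW with ⟨hτ, hx1, -⟩ | ⟨hτ, hsp⟩
      · rw [hτ, map_one, one_pow, map_mul, map_pow, hx1, one_pow, one_mul]
        exact hreg W hx1
      · rcases eq_or_lt_of_le hW with hx1 | hx1
        · rw [map_mul, map_pow, hx1, one_pow, one_mul]
          have hLe := hA₁.le (W := W) ((val_inv_le hx0).mpr hx1.ge)
          refine (hgood1 W hLe ?_ τ hτ).2 (not_not.mpr hW)
          rw [hcdef, map_mul, ← hb1, hξF, map_mul, map_mul, map_pow, map_inv₀, hx1, inv_one, one_pow,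
            one_mul, one_mul]
          exact hsp
        · have h5 : x ^ (Lo * n) * h = x ^ (Lo * n - N1) * (x ^ N1 * h) := by
            rw [← mul_assoc, ← pow_add]
            congr 2
            have := le_max_left N1 N2
            omega
          rw [h5, hh1, map_mul, map_pow]
          calc W.valuation x ^ (Lo * n - N1) * W.valuation (algebraMap A₀ F c1') ≤
                W.valuation τ ^ (Lo * n - N1) * 1 :=
                mul_le_mul' (pow_le_pow_left' (hτ.max _ hx1) _) (hA₀.le hW c1')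
            _ = W.valuation τ ^ (Lo * n - N1) := mul_one _
            _ ≤ W.valuation τ ^ Lo := pow_le_pow_right_of_le_one' hτ.lt.le (by
                have := le_max_left N1 N2
                omega)
    · -- the second condition
      intro hW
      have hτ := h4 hW
      have hv := (val_inv_lt hx0).mpr hW
      rw [add_sub_cancel_left]
      have h5 : h / x ^ (Lo * n) = x⁻¹ ^ (Lo * n - N2) * (x⁻¹ ^ N2 * h) := by
        rw [← mul_assoc, ← pow_add]
        have h6 : Lo * n - N2 + N2 = Lo * n := by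
          have := le_max_right N1 N2
          omega
        rw [h6, inv_pow, div_eq_mul_inv, mul_comm]
      rw [h5, hh2, map_mul, map_pow]
      calc W.valuation x⁻¹ ^ (Lo * n - N2) * W.valuation (algebraMap A₁ F c2) ≤
            W.valuation τ ^ (Lo * n - N2) * 1 :=
            mul_le_mul' (pow_le_pow_left' (hτ.max _ hv) _) (hA₁.le hv.le c2)
        _ = W.valuation τ ^ (Lo * n - N2) := mul_one _
        _ ≤ W.valuation τ ^ Lo := pow_le_pow_right_of_le_one' hτ.lt.le (by
            have := le_max_right N1 N2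
            omega)
    · by_cases hW : W.valuation x ≤ 1
      · rw [gg_le hW]
        have hLe := hA₀.le hW
        rcases h3 hW with ⟨hτ, hx1, hb1v⟩ | ⟨hτ, hsp⟩
        · left
          refine ⟨hτ, ?_⟩
          have hg0v : ∀ W : ValuationSubring F, Le A₀ W → W.valuation (algebraMap A₀ F b) = 1 →
              W.valuation g0 ≤ 1 := by
            intro W hW hv
            have h5 := congrArg W.valuation hg0
            rw [map_mul, map_pow, hv, one_pow, one_mul] at h5
            rw [h5]
            exact hW c0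
          have hbv : W.valuation (algebraMap A₀ F b) = 1 := by
            rw [hb, map_mul, map_mul, hXF, hx1, hb1v, one_mul]
          by_cases hq : cen W hLe = ⊥
          · exact exists_pres_smooth_triv hA₀.nf (fun w hw => triv_of_cen_eq_bot hLe hq hw) hb0
              (fun W hW hv => hsm W hW (by
                apply le_antisymm (hW b₀)
                rw [← hv, hb, map_mul, map_mul]
                exact mul_le_of_le_one_left' (hW X))) hg0v
          · obtain ⟨h5, h6⟩ := hsm W hLe hb1v
            exact exists_pres_smooth (p := p) hLe hq h5 (hg0v W hLe hbv) h6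
        · right
          refine ⟨hτ.lt, hτ.t0, ?_⟩
          have hbv : W.valuation (algebraMap A₀ F b) < 1 := by
            rw [hb, map_mul, hXF]; exact hsp
          obtain ⟨k, hk1, hk2, hk3⟩ := (hgood0 W hLe hbv τ hτ).1 trivial
          rw [zero_add] at hk3
          obtain ⟨m, y, G, l, h5, h6, h7⟩ := hA₀.exists_pres hLe (Or.inr hτ)
            {(f - g0 ^ p) * τ ^ (-k)} (by
              intro e he
              rw [Finset.mem_singleton.mp he, hk3])
          obtain ⟨u, hu⟩ := h6 _ (Finset.mem_singleton_self _)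
          exact ⟨k, hk1, hk2.trans (by exact_mod_cast le_max_left _ _), m, y, G, l, u, h5, h7 hτ, hu,
            by rw [hu, hk3]⟩
      · rw [gg_gt hW]
        have hτ := h4 hW
        have hv := (val_inv_lt hx0).mpr hW
        have hLe := hA₁.le hv.le
        right
        refine ⟨hτ.lt, hτ.t0, ?_⟩
        have hcv : W.valuation (algebraMap A₁ F c) < 1 := by
          rw [hcdef, map_mul, map_mul, hξF]
          exact (mul_le_of_le_one_right' (hLe b1)).trans_lt hv
        obtain ⟨k, hk1, hk2, hk3⟩ := (hgood1 W hLe hcv τ hτ).1 hW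
        obtain ⟨m, y, G, l, h5, h6, h7⟩ := hA₁.exists_pres hLe (Or.inr hτ)
          {(f - (g0 + h) ^ p) * τ ^ (-k)} (by
            intro e he
            rw [Finset.mem_singleton.mp he, hk3])
        obtain ⟨u, hu⟩ := h6 _ (Finset.mem_singleton_self _)
        exact ⟨k, hk1, hk2.trans (by exact_mod_cast le_max_right _ _), m, y, G, l, u, h5, h7 hτ, hu,
          by rw [hu, hk3]⟩

end Pool.Agent.H96.W0
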