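import Pool.Agent.H96.W0.Pres0

/-!
# Gauges: the best approximations of a function by `p`-th powers
-/

set_option autoImplicit false
set_option linter.unusedSectionVars false

namespace Pool.Agent.H96.W0

open Polynomial Pool.Agent.H96.W

variable {p : ℕ} [Fact p.Prime]

section Loc

variable {R F : Type} [CommRing R] [IsDedekindDomain R] [Field F] [Algebra R F] [IsFractionRing R F]
  {W : ValuationSubring F}

theorem eq_of_cen {W' : ValuationSubring F} (hW : Le R W) (hW' : Le R W')
    (h : ∀ a : R, W.valuation (algebraMap R F a) < 1 ↔ W'.valuation (algebraMap R F a) < 1) :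
    W = W' := by
  have key : ∀ {W₁ W₂ : ValuationSubring F}, Le R W₁ → Le R W₂ →
      (∀ a : R, W₁.valuation (algebraMap R F a) < 1 ↔ W₂.valuation (algebraMap R F a) < 1) →
      ∀ w, w ∈ W₁ → w ∈ W₂ := by
    intro W₁ W₂ h1 h2 h w hw
    obtain ⟨a, s, hs, rfl⟩ := exists_frac h1 ((W₁.valuation_le_one_iff _).mpr hw)
    refine (W₂.valuation_le_one_iff _).mp ?_
    have h3 : W₂.valuation (algebraMap R F s) = 1 := by
      apply le_antisymm (h2 s)
      by_contra hcon
      exact absurd ((h s).mpr (not_le.mp hcon)) (by rw [hs]; exact lt_irrefl _)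
    rw [map_div₀, h3, div_one]
    exact h2 a
  ext w
  exact ⟨key hW hW' h w, key hW' hW (fun a => (h a).symm) w⟩

theorem vzpow_le {t : R} (h : Place W t) {m n : ℤ} :
    W.valuation (algebraMap R F t) ^ m ≤ W.valuation (algebraMap R F t) ^ n ↔ n ≤ m :=
  zpow_le_zpow_iff_right_of_lt_one₀ h.vt0 h.lt

theorem vzpow_lt {t : R} (h : Place W t) {m n : ℤ} :
    W.valuation (algebraMap R F t) ^ m < W.valuation (algebraMap R F t) ^ n ↔ n < m :=
  zpow_lt_zpow_iff_right_of_lt_one₀ h.vt0 h.lt

theorem vzpow_inj {t : R} (h : Place W t) {m n : ℤ}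
    (h' : W.valuation (algebraMap R F t) ^ m = W.valuation (algebraMap R F t) ^ n) : m = n :=
  le_antisymm ((vzpow_le h).mp h'.ge) ((vzpow_le h).mp h'.le)

/-- Elements are bounded by powers of the uniformizer. -/
theorem exists_pow_bd {t : R} (h : Place W t) (w : F) :
    ∃ N : ℕ, ∀ n, N ≤ n → W.valuation (w * algebraMap R F t ^ n) ≤ 1 := by
  by_cases hw : w = 0
  · exact ⟨0, fun n _ => by rw [hw, zero_mul, map_zero]; exact zero_le⟩
  · obtain ⟨m, hm⟩ := exists_zpow h hw
    refine ⟨m.natAbs, fun n hn => ?_⟩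
    rw [map_mul, map_pow, hm, ← zpow_natCast, ← zpow_add₀ h.vt0.ne', ← zpow_zero (W.valuation
      (algebraMap R F t)), vzpow_le h]
    omega

/-- Local approximation. -/
theorem exists_approx_loc {t : R} (h : Place W t) {w : F} (hw : W.valuation w ≤ 1) (n : ℕ) :
    ∃ x : R, W.valuation (w - algebraMap R F x) ≤ W.valuation (algebraMap R F t) ^ n := by
  have hqm : (cen W h.le).IsMaximal := (cen_isPrime h.le).isMaximal h.cen_ne_bot
  have hT0 : algebraMap R F t ≠ 0 := algebraMap_ne_zero h.t0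
  induction n with
  | zero => exact ⟨0, by rw [map_zero, sub_zero, pow_zero]; exact hw⟩
  | succ n ih =>
    obtain ⟨x, hx⟩ := ih
    have h1 : W.valuation ((w - algebraMap R F x) / algebraMap R F t ^ n) ≤ 1 := by
      rw [map_div₀, map_pow]
      exact (div_le_one₀ (pow_pos h.vt0 _)).mpr hx
    obtain ⟨a, s, hs, has⟩ := exists_frac h.le h1
    have hs0 : algebraMap R F s ≠ 0 := by
      intro h0
      rw [h0, map_zero] at hs
      exact zero_ne_one hs
    have hsq : s ∉ cen W h.le := fun h => absurd hs (ne_of_lt h)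
    obtain ⟨s', i, hi, hsi⟩ := hqm.exists_inv hsq
    refine ⟨x + a * s' * t ^ n, ?_⟩
    have h2 : w - algebraMap R F (x + a * s' * t ^ n) =
        algebraMap R F t ^ n * (algebraMap R F a * algebraMap R F i / algebraMap R F s) := by
      have h3 : algebraMap R F s' * algebraMap R F s + algebraMap R F i = 1 := by
        rw [← map_mul, ← map_add, hsi, map_one]
      have h4 : w - algebraMap R F x = algebraMap R F t ^ n * (algebraMap R F a / algebraMap R F s) := by
        rw [← has]; field_simp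
      rw [map_add, map_mul, map_mul, map_pow, ← sub_sub, h4]
      field_simp
      linear_combination (-algebraMap R F a) * h3
    rw [h2, map_mul, map_pow, pow_succ, map_div₀, hs, div_one, map_mul]
    refine mul_le_mul' le_rfl ?_
    calc W.valuation (algebraMap R F a) * W.valuation (algebraMap R F i) ≤
          1 * W.valuation (algebraMap R F t) := mul_le_mul' (h.le a) (h.max _ hi)
      _ = _ := one_mul _

/-- The local bound. -/
theorem exists_loc_bd [CharP F p] {t : R} (h : Place W t) {f : F}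
    (hA : algebraMap R F t ∈ pring p (⊤ : Subring F) f) :
    ∃ B : ℕ, ∀ q : F, W.valuation (algebraMap R F t) ^ B ≤ W.valuation (f - q ^ p) := by
  have hp : p.Prime := Fact.out
  set T := algebraMap R F t with hT
  have hT0 : T ≠ 0 := algebraMap_ne_zero h.t0
  have hvt := h.vt0
  obtain ⟨P, -, hP⟩ := hA
  -- the denominators
  obtain ⟨N, hN⟩ := exists_pow_bd h f
  have hN' := hN (p * N) (Nat.le_mul_of_pos_left _ hp.pos)
  obtain ⟨M, hM⟩ : ∃ M, ∀ k, k ∈ Finset.range (P.natDegree + 1) →
      W.valuation (P.coeff k * T ^ M) ≤ 1 * W.valuation (T ^ (N * k)) := by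
    have h1 : ∀ k ∈ Finset.range (P.natDegree + 1), ∃ n, ∀ m, n ≤ m →
        W.valuation (P.coeff k * T ^ m) ≤ 1 * W.valuation (T ^ (N * k)) := by
      intro k _
      obtain ⟨n, hn⟩ := exists_pow_bd h (P.coeff k)
      refine ⟨n + N * k, fun m hm => ?_⟩
      obtain ⟨r, rfl⟩ := Nat.exists_eq_add_of_le hm
      have h2 : P.coeff k * T ^ (n + N * k + r) = P.coeff k * T ^ (n + r) * T ^ (N * k) := by
        rw [mul_assoc, ← pow_add]
        congr 2
        omega
      rw [h2, map_mul]
      exact mul_le_mul' (hn _ (by omega)) le_rfl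
    obtain ⟨n, hn⟩ := exists_common (Finset.range (P.natDegree + 1)) _ h1
    exact ⟨n, fun k hk => hn n le_rfl k hk⟩
  -- the integral form
  set f₁ := f * T ^ (p * N) with hf₁
  set P₁ : F[X] := ∑ k ∈ Finset.range (P.natDegree + 1),
    C (P.coeff k * T ^ M / T ^ (N * k)) * X ^ k with hP₁
  have hcoef : ∀ k, P₁.coeff k ∈ W.toSubring := by
    intro k
    rw [hP₁, finset_sum_coeff]
    refine Subring.sum_mem _ fun j hj => ?_
    rw [coeff_C_mul_X_pow]
    split_ifs
    · refine (W.valuation_le_one_iff _).mp ?_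
      rw [map_div₀]
      have h1 : 0 < W.valuation (T ^ (N * j)) := by
        rw [Valuation.pos_iff]; exact pow_ne_zero _ hT0
      rw [div_le_iff₀ h1]
      exact hM j hj
    · exact Subring.zero_mem _
  have hev : P₁.eval₂ (frobenius F p) f₁ = T ^ (p * M + 1) := by
    have hP' : T ^ (p * M) * T = T ^ (p * M) * P.eval₂ (frobenius F p) f :=
      congrArg (fun z => T ^ (p * M) * z) hP
    rw [hP₁, eval₂_finset_sum, pow_succ, hP', eval₂_eq_sum_range, Finset.mul_sum]
    refine Finset.sum_congr rfl fun k _ => ?_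
    rw [eval₂_mul, eval₂_C, eval₂_X_pow, frobenius_def, frobenius_def, hf₁, mul_pow, div_pow, mul_pow,
      ← pow_mul, ← pow_mul, ← pow_mul]
    have h1 : T ^ (N * k * p) ≠ 0 := pow_ne_zero _ hT0
    have h2 : T ^ (p * N * k) = T ^ (N * k * p) := by congr 1; ring
    have h3 : T ^ (M * p) = T ^ (p * M) := by congr 1; ring
    rw [h2, h3]
    field_simp
  refine ⟨p * M + 1, fun q => ?_⟩
  set q₁ := q * T ^ N with hq₁
  have hs : f₁ - q₁ ^ p = (f - q ^ p) * T ^ (p * N) := by
    rw [hf₁, hq₁, mul_pow, ← pow_mul, mul_comm N p]; ring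
  have hle : W.valuation (f₁ - q₁ ^ p) ≤ W.valuation (f - q ^ p) := by
    rw [hs, map_mul, map_pow]
    exact mul_le_of_le_one_right' (pow_le_one' h.lt.le _)
  refine le_trans ?_ hle
  by_cases hs1 : W.valuation (f₁ - q₁ ^ p) ≤ 1
  · have hq1 : W.valuation q₁ ≤ 1 := by
      by_contra hcon
      have h1 : 1 < W.valuation (q₁ ^ p) := by
        rw [map_pow]
        exact one_lt_pow₀ (not_le.mp hcon) hp.ne_zero
      have h2 : W.valuation (q₁ ^ p) = W.valuation (f₁ - (f₁ - q₁ ^ p)) := by congr 1; ring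
      rw [h2] at h1
      exact absurd h1 (not_lt.mpr ((W.valuation.map_sub _ _).trans (max_le hN' hs1)))
    obtain ⟨Q, r, hQ, hr, hQr⟩ := exists_taylor hcoef hq1 hs1
    have h1 : q₁ ^ p + (f₁ - q₁ ^ p) = f₁ := by ring
    rw [h1, hev] at hQr
    have h2 : W.valuation T ^ (p * M + 1) ≤ W.valuation ((f₁ - q₁ ^ p) * r) := by
      have h3 : (f₁ - q₁ ^ p) * r = T ^ (p * M + 1) - Q ^ p := by rw [hQr]; ring
      rw [h3, ← map_pow]
      by_cases hQ0 : Q = 0
      · rw [hQ0, zero_pow hp.ne_zero, sub_zero]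
      · obtain ⟨j, hj⟩ := exists_zpow h hQ0
        have hne : W.valuation (T ^ (p * M + 1)) ≠ W.valuation (Q ^ p) := by
          intro h4
          rw [map_pow, map_pow, hj, ← zpow_natCast, ← zpow_natCast, ← zpow_mul] at h4
          have h5 := vzpow_inj h h4
          have h6 : (p : ℤ) ∣ 1 := by
            refine ⟨j - M, ?_⟩
            push_cast at h5
            linear_combination h5
          exact hp.one_lt.ne' (Nat.dvd_one.mp (by exact_mod_cast h6))
        rcases lt_or_gt_of_ne hne with h4 | h4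
        · rw [W.valuation.map_sub_eq_of_lt_right h4]
          exact h4.le
        · rw [W.valuation.map_sub_eq_of_lt_left h4]
    refine h2.trans ?_
    rw [map_mul]
    exact mul_le_of_le_one_right' hr
  · exact (pow_le_one' h.lt.le _).trans (not_le.mp hs1).le

end Loc

section Perf

variable {R F : Type} [CommRing R] [IsDedekindDomain R] [Field F] [Algebra R F] [IsFractionRing R F]
  [Algebra (ZMod p) R] [Algebra.FiniteType (ZMod p) R] {W : ValuationSubring F}

/-- `p`-th roots in the residue field. -/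
theorem exists_root_res (hW : Le R W) (hq : cen W hW ≠ ⊥) {f : F} (hf : W.valuation f ≤ 1) :
    ∃ c : F, W.valuation c ≤ 1 ∧ W.valuation (f - c ^ p) < 1 := by
  have hqm : (cen W hW).IsMaximal := (cen_isPrime hW).isMaximal hq
  obtain ⟨a, s, hs, rfl⟩ := exists_frac hW hf
  have hs0 : algebraMap R F s ≠ 0 := by
    intro h0
    rw [h0, map_zero] at hs
    exact zero_ne_one hs
  obtain ⟨c, hc⟩ := perfect_res (p := p) _ hqm (a * s ^ (p - 1))
  refine ⟨algebraMap R F c / algebraMap R F s, ?_, ?_⟩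
  · rw [map_div₀, hs, div_one]
    exact hW c
  · have h1 : algebraMap R F a / algebraMap R F s - (algebraMap R F c / algebraMap R F s) ^ p =
        -(algebraMap R F (c ^ p - a * s ^ (p - 1)) / algebraMap R F s ^ p) := by
      obtain ⟨n, hn⟩ : ∃ n, p = n + 1 := ⟨p - 1, by have := (Fact.out : p.Prime).pos; omega⟩
      rw [hn, Nat.add_sub_cancel, map_sub, map_mul, map_pow, map_pow, div_pow,
        pow_succ (algebraMap R F s)]
      field_simp
      ring
    rw [h1, Valuation.map_neg, map_div₀, map_pow, hs, one_pow, div_one]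
    exact hc

/-- **The local gauge.** -/
theorem exists_local_gauge [CharP F p] {t : R} (h : Place W t) {f : F}
    (hA : algebraMap R F t ∈ pring p (⊤ : Subring F) f) (hf : ∀ a : F, a ^ p ≠ f) :
    ∃ (q : F) (e : ℤ), ¬ (p : ℤ) ∣ e ∧
      W.valuation (f - q ^ p) = W.valuation (algebraMap R F t) ^ e := by
  have hp : p.Prime := Fact.out
  set T := algebraMap R F t with hT
  have hT0 : T ≠ 0 := algebraMap_ne_zero h.t0
  have hvt := h.vt0
  obtain ⟨B, hB⟩ := exists_loc_bd h hA
  have hne : ∀ q : F, f - q ^ p ≠ 0 := fun q h0 => hf q (sub_eq_zero.mp h0).symm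
  obtain ⟨e, ⟨q, hq⟩, hmax⟩ := Int.exists_greatest_of_bdd
    (P := fun e : ℤ => ∃ q, W.valuation (f - q ^ p) = W.valuation T ^ e)
    ⟨B, fun e ⟨q, hq⟩ => by
      have h1 := hB q
      rw [hq, ← zpow_natCast, vzpow_le h] at h1
      exact h1⟩
    (by
      obtain ⟨m, hm⟩ := exists_zpow h (hne 0)
      exact ⟨m, 0, hm⟩)
  refine ⟨q, e, ?_, hq⟩
  rintro ⟨e', rfl⟩
  have hu : W.valuation ((f - q ^ p) / T ^ ((p : ℤ) * e')) = 1 := by
    rw [map_div₀, map_zpow₀, hq, div_self (zpow_ne_zero _ hvt.ne')]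
  obtain ⟨c, -, hc2⟩ := exists_root_res (p := p) h.le h.cen_ne_bot hu.le
  obtain ⟨m, hm⟩ := exists_zpow h (hne (q + c * T ^ e'))
  have h1 : f - (q + c * T ^ e') ^ p = T ^ ((p : ℤ) * e') *
      ((f - q ^ p) / T ^ ((p : ℤ) * e') - c ^ p) := by
    have h2 : T ^ ((p : ℤ) * e') ≠ 0 := zpow_ne_zero _ hT0
    have h3 : (T ^ e') ^ p = T ^ ((p : ℤ) * e') := by
      rw [← zpow_natCast, ← zpow_mul, mul_comm]
    rw [add_pow_char, mul_pow, h3]
    field_simp
    ring
  have h2 : W.valuation T ^ m < W.valuation T ^ ((p : ℤ) * e') := by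
    rw [← hm, h1, map_mul, map_zpow₀]
    calc W.valuation T ^ ((p : ℤ) * e') * _ < W.valuation T ^ ((p : ℤ) * e') * 1 :=
          mul_lt_mul_of_pos_left hc2 (zpow_pos hvt _)
      _ = _ := mul_one _
  rw [vzpow_lt h] at h2
  exact absurd (hmax m ⟨_, hm⟩) (not_le.mpr h2)

end Perf

section Glob

variable {R F : Type} [CommRing R] [IsDedekindDomain R] [Field F] [Algebra R F] [IsFractionRing R F]

/-- The special places are finitely many. -/
theorem finite_special {b : R} (hb : b ≠ 0) :
    {W : {W : ValuationSubring F // Le R W} | W.1.valuation (algebraMap R F b) < 1}.Finite := by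
  classical
  set S := (UniqueFactorizationMonoid.normalizedFactors (Ideal.span {b})).toFinset with hS
  have hspan : Ideal.span {b} ≠ 0 := by
    rw [Ne, Ideal.zero_eq_bot, Ideal.span_singleton_eq_bot]
    exact hb
  refine Set.Finite.of_injOn (f := fun W : {W : ValuationSubring F // Le R W} => cen W.1 W.2)
    (t := (S : Set (Ideal R))) ?_ ?_ S.finite_toSet
  · rintro ⟨W, hW⟩ hbq
    have hqp := cen_isPrime hW
    have hq0 : cen W hW ≠ ⊥ := by
      intro h0
      have h1 : b ∈ cen W hW := hbq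
      rw [h0] at h1
      exact hb h1
    show cen W hW ∈ (S : Set (Ideal R))
    rw [Finset.mem_coe, hS, Multiset.mem_toFinset,
      UniqueFactorizationMonoid.mem_normalizedFactors_iff hspan]
    exact ⟨Ideal.prime_of_isPrime hq0 hqp, Ideal.dvd_span_singleton.mpr hbq⟩
  · rintro ⟨W, hW⟩ _ ⟨W', hW'⟩ _ h
    apply Subtype.ext
    have h1 : cen W hW = cen W' hW' := h
    refine eq_of_cen hW hW' fun a => ?_
    rw [← mem_cen (hW := hW), ← mem_cen (hW := hW'), h1]

/-- **Strong approximation.** -/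
theorem exists_approx {b : R} (hb : b ≠ 0) (q : ValuationSubring F → F) (L : ℕ) :
    ∃ (h : F) (N : ℕ) (e : R), algebraMap R F b ^ N * h = algebraMap R F e ∧
      ∀ W : ValuationSubring F, Le R W → W.valuation (algebraMap R F b) < 1 → ∀ t, Unif W t →
        W.valuation (h - q W) ≤ W.valuation t ^ L := by
  classical
  set s := (finite_special (F := F) hb).toFinset with hs
  have hmem : ∀ W : {W : ValuationSubring F // Le R W}, W ∈ s ↔
      W.1.valuation (algebraMap R F b) < 1 := by
    intro W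
    rw [hs, Set.Finite.mem_toFinset]
    rfl
  have hb' : algebraMap R F b ≠ 0 := algebraMap_ne_zero hb
  have hq0 : ∀ W : {W : ValuationSubring F // Le R W}, W ∈ s → cen W.1 W.2 ≠ ⊥ := by
    intro W hW h0
    have h1 : b ∈ cen W.1 W.2 := (hmem W).mp hW
    rw [h0] at h1
    exact hb h1
  have hpl : ∀ W : {W : ValuationSubring F // Le R W}, ∃ t : R, W ∈ s → Place W.1 t := by
    intro W
    by_cases hW : W ∈ s
    · obtain ⟨t, ht⟩ := exists_place W.2 (hq0 W hW)
      exact ⟨t, fun _ => ht⟩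
    · exact ⟨0, fun h => absurd h hW⟩
  choose t ht using hpl
  -- the exponent of the denominator
  obtain ⟨N, hN⟩ : ∃ N, ∀ W ∈ s, W.1.valuation (algebraMap R F b ^ N * q W.1) ≤ 1 := by
    have h1 : ∀ W ∈ s, ∃ n, ∀ m, n ≤ m → W.1.valuation (algebraMap R F b ^ m * q W.1) ≤ 1 := by
      intro W hW
      obtain ⟨n, hn⟩ := exists_pow_bd (ht W hW) (q W.1)
      refine ⟨n, fun m hm => ?_⟩
      refine le_trans ?_ (hn m hm)
      rw [map_mul, map_mul, mul_comm, map_pow, map_pow]
      refine mul_le_mul' le_rfl (pow_le_pow_left' ((ht W hW).max _ ((hmem W).mp hW)) _)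
    obtain ⟨n, hn⟩ := exists_common s _ h1
    exact ⟨n, hn n le_rfl⟩
  -- the order of `b`
  have hord : ∀ W : {W : ValuationSubring F // Le R W}, ∃ r : ℕ, W ∈ s →
      W.1.valuation (algebraMap R F b) = W.1.valuation (algebraMap R F (t W)) ^ r := by
    intro W
    by_cases hW : W ∈ s
    · obtain ⟨r, -, hr, -⟩ := exists_ord (ht W hW) hb
      exact ⟨r, fun _ => hr⟩
    · exact ⟨0, fun h => absurd h hW⟩
  choose r hr using hord
  have hloc : ∀ W : s, ∃ x : R, W.1.1.valuation (algebraMap R F b ^ N * q W.1.1 - algebraMap R F x) ≤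
      W.1.1.valuation (algebraMap R F (t W.1)) ^ (L + r W.1 * N) := fun W =>
    exists_approx_loc (ht W.1 W.2) (hN W.1 W.2) _
  choose x hx using hloc
  obtain ⟨y, hy⟩ := IsDedekindDomain.exists_forall_sub_mem_ideal (s := s)
    (fun W : {W : ValuationSubring F // Le R W} => cen W.1 W.2) (fun W => L + r W * N)
    (fun W hW => Ideal.prime_of_isPrime (hq0 W hW) (cen_isPrime W.2))
    (fun W _ W' _ hne h => hne (Subtype.ext (eq_of_cen W.2 W'.2 fun a => by
      have h1 : cen W.1 W.2 = cen W'.1 W'.2 := h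
      rw [← mem_cen (hW := W.2), ← mem_cen (hW := W'.2), h1]))) x
  refine ⟨algebraMap R F y / algebraMap R F b ^ N, N, y, by field_simp, fun W hW hbW t' ht' => ?_⟩
  have hWs : (⟨W, hW⟩ : {W : ValuationSubring F // Le R W}) ∈ s := (hmem _).mpr hbW
  have h1 := pow_le_of_mem (ht _ hWs) _ (hy _ hWs)
  have h2 := hx ⟨_, hWs⟩
  have htt : W.valuation t' = W.valuation (algebraMap R F (t ⟨W, hW⟩)) :=
    unif_eq ht' (ht _ hWs).unif
  rw [htt]
  set T := W.valuation (algebraMap R F (t ⟨W, hW⟩)) with hT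
  have h3 : algebraMap R F y / algebraMap R F b ^ N - q W =
      (algebraMap R F (y - x ⟨_, hWs⟩) - (algebraMap R F b ^ N * q W -
        algebraMap R F (x ⟨_, hWs⟩))) / algebraMap R F b ^ N := by
    rw [map_sub]
    field_simp
    ring
  rw [h3, map_div₀]
  have hbN : 0 < W.valuation (algebraMap R F b ^ N) := by
    rw [Valuation.pos_iff]; exact pow_ne_zero _ hb'
  rw [div_le_iff₀ hbN]
  have h4 : W.valuation (algebraMap R F b ^ N) = T ^ (r ⟨W, hW⟩ * N) := by
    rw [map_pow, hr _ hWs, pow_mul]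
  rw [h4, ← pow_add]
  exact (W.valuation.map_sub _ _).trans (max_le h1 h2)

variable [CharP F p] [Algebra (ZMod p) R] [Algebra.FiniteType (ZMod p) R]

/-- **Global gauges.** -/
theorem exists_gauge0 {b : R} (hb : b ≠ 0) {f : F} (hA : ∀ w : F, w ∈ pring p (⊤ : Subring F) f)
    (hf : ∀ a : F, a ^ p ≠ f) :
    ∃ M : ℕ, ∀ (L : ℕ) (P : ValuationSubring F → Prop) (g₀ : F),
      ∃ (h : F) (N : ℕ) (e : R), algebraMap R F b ^ N * h = algebraMap R F e ∧
        ∀ W : ValuationSubring F, Le R W → W.valuation (algebraMap R F b) < 1 → ∀ t, Unif W t →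
          (P W → ∃ k : ℤ, ¬ (p : ℤ) ∣ k ∧ |k| ≤ M ∧
            W.valuation ((f - (g₀ + h) ^ p) * t ^ (-k)) = 1) ∧
          (¬ P W → W.valuation h ≤ W.valuation t ^ L) := by
  classical
  have hp : p.Prime := Fact.out
  have hloc : ∀ W : ValuationSubring F, ∃ (q : F) (e : ℤ), Le R W →
      W.valuation (algebraMap R F b) < 1 → ∀ t, Unif W t → ¬ (p : ℤ) ∣ e ∧
        W.valuation (f - q ^ p) = W.valuation t ^ e := by
    intro W
    by_cases hW : Le R W ∧ W.valuation (algebraMap R F b) < 1
    · have hq0 : cen W hW.1 ≠ ⊥ := by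
        intro h0
        have h1 : b ∈ cen W hW.1 := hW.2
        rw [h0] at h1
        exact hb h1
      obtain ⟨t, ht⟩ := exists_place hW.1 hq0
      obtain ⟨q, e, h1, h2⟩ := exists_local_gauge ht (hA _) hf
      refine ⟨q, e, fun _ _ t' ht' => ⟨h1, ?_⟩⟩
      rw [h2, unif_eq ht' ht.unif]
    · exact ⟨0, 0, fun h1 h2 => absurd ⟨h1, h2⟩ hW⟩
  choose q e hqe using hloc
  set s := (finite_special (F := F) hb).toFinset with hs
  have hmem : ∀ W : {W : ValuationSubring F // Le R W}, W ∈ s ↔
      W.1.valuation (algebraMap R F b) < 1 := by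
    intro W
    rw [hs, Set.Finite.mem_toFinset]
    rfl
  refine ⟨s.sup fun W => (e W.1).natAbs, fun L P g₀ => ?_⟩
  set M := s.sup fun W => (e W.1).natAbs with hM
  obtain ⟨h, N, e', h1, h2⟩ := exists_approx hb (fun W => if P W then q W - g₀ else 0)
    (max L (M + 1))
  refine ⟨h, N, e', h1, fun W hW hbW t ht => ?_⟩
  have h3 := h2 W hW hbW t ht
  have hvt := ht.vt0
  refine ⟨fun hPW => ?_, fun hPW => ?_⟩
  · have h3' : W.valuation (h - (q W - g₀)) ≤ W.valuation t ^ (max L (M + 1)) := by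
      have h4 : (if P W then q W - g₀ else 0) = q W - g₀ := if_pos hPW
      rw [← h4]
      exact h3
    obtain ⟨h4, h5⟩ := hqe W hW hbW t ht
    have hle : (e W).natAbs ≤ M :=
      Finset.le_sup (f := fun W : {W : ValuationSubring F // Le R W} => (e W.1).natAbs)
        ((hmem ⟨W, hW⟩).mpr hbW)
    refine ⟨e W, h4, by rw [Int.abs_eq_natAbs]; exact_mod_cast hle, ?_⟩
    have h6 : f - (g₀ + h) ^ p = (f - q W ^ p) - (h - (q W - g₀)) ^ p := by
      have : g₀ + h = q W + (h - (q W - g₀)) := by ring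
      rw [this, add_pow_char]; ring
    have h7 : W.valuation ((h - (q W - g₀)) ^ p) < W.valuation (f - q W ^ p) := by
      rw [h5, map_pow]
      calc W.valuation (h - (q W - g₀)) ^ p ≤ (W.valuation t ^ (max L (M + 1))) ^ p :=
            pow_le_pow_left' h3' _
        _ = W.valuation t ^ (max L (M + 1) * p) := (pow_mul _ _ _).symm
        _ = W.valuation t ^ ((max L (M + 1) * p : ℕ) : ℤ) := (zpow_natCast _ _).symm
        _ < W.valuation t ^ (e W) := by
          rw [zpow_lt_zpow_iff_right_of_lt_one₀ hvt ht.lt]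
          have h8 : (M + 1) ≤ max L (M + 1) * p := by
            calc M + 1 ≤ max L (M + 1) := le_max_right _ _
              _ ≤ max L (M + 1) * p := Nat.le_mul_of_pos_right _ hp.pos
          omega
    rw [map_mul, h6, W.valuation.map_sub_eq_of_lt_left h7, h5, map_zpow₀, ← zpow_add₀ hvt.ne',
      add_neg_cancel, zpow_zero]
  · have h4 : (if P W then q W - g₀ else 0) = 0 := if_neg hPW
    have h5 : W.valuation (h - (if P W then q W - g₀ else 0)) ≤
      W.valuation t ^ (max L (M + 1)) := h3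
    rw [h4, sub_zero] at h5
    exact h5.trans (pow_le_pow_right_of_le_one' ht.lt.le (le_max_left _ _))

end Glob

end Pool.Agent.H96.W0
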