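import Pool.Agent.H96.W0.LocD
import Pool.Agent.H96.W0.CD
import Pool.Agent.H96.W.Glob

/-!
# The global data: purely inseparable case
-/

set_option autoImplicit false
set_option linter.unusedSectionVars false

namespace Pool.Agent.H96.W0

open MvPolynomial IsLocalRing Pool.Agent.H96.Reg Pool.Agent.H96.VL Pool.Agent.H96.W
open scoped Pointwise

/-- Monotonicity of the data of a curve. -/
def CD.mono {p : ℕ} [Fact p.Prime] {F : Type} [Field F] [Algebra (ZMod p) F] {f : F} {M M' Lo : ℕ}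
    (h : CD p F f M Lo) (hM : M ≤ M') : CD p F f M' Lo where
  x := h.x
  g0 := h.g0
  g1 := h.g1
  N := h.N
  base := h.base
  T := h.T
  x0 := h.x0
  zero_base := h.zero_base
  zero_T := h.zero_T
  detect := h.detect
  loc := by
    intro W
    obtain ⟨τ, h1, h2, h3, h4, h5⟩ := h.loc W
    refine ⟨τ, h1, h2, h3, h4, ?_⟩
    rcases h5 with h5 | ⟨h5, h6, e, h7, h8, h9⟩
    · exact Or.inl h5
    · exact Or.inr ⟨h5, h6, e, h7, h8.trans (by exact_mod_cast hM), h9⟩

/-- The global data. -/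
structure GD (p : ℕ) [Fact p.Prime] (K : Type) [Field K] [Algebra (ZMod p) K] (I : Type)
    [Fintype I] [DecidableEq I] (F : I → Type) [∀ i, Field (F i)] [∀ i, Algebra (ZMod p) (F i)]
    [∀ i, Algebra (F i) K] [∀ i, IsScalarTower (ZMod p) (F i) K] (m M : ℕ) where
  f : ∀ i, F i
  cd : ∀ i, CD p (F i) (f i) M (LD.Q p M)
  D : I → Fin m → ZMod p
  z : Fin m → K
  AS : ∀ a, z a ^ p = ∑ i, algebraMap (ZMod p) K (D i a) * algebraMap (F i) K (f i)
  gen : ∀ R : Subring K, (∀ x ∈ R, x ≠ 0 → x⁻¹ ∈ R) → (∀ i (w : F i), algebraMap (F i) K w ∈ R) →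
    (∀ a, z a ∈ R) → R = ⊤

theorem zlin_pow {p : ℕ} [Fact p.Prime] {K : Type} [Field K] [Algebra (ZMod p) K] {I : Type}
    [Fintype I] [DecidableEq I] {m : ℕ} (D : I → Fin m → ZMod p) (z : Fin m → K) (g f : I → K)
    (h : ∀ a, z a ^ p = ∑ i, algebraMap (ZMod p) K (D i a) * f i) (c : Fin m → ZMod p) :
    zlin D z g c ^ p = ∑ i, algebraMap (ZMod p) K (c ⬝ᵥ D i) * (f i - g i ^ p) := by
  have hc : CharP K p := charP_of_injective_algebraMap (algebraMap (ZMod p) K).injective p
  have hs : ∀ {κ : Type} [Fintype κ] (b : κ → ZMod p) (w : κ → K),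
      (∑ a, algebraMap (ZMod p) K (b a) * w a) ^ p = ∑ a, algebraMap (ZMod p) K (b a) * w a ^ p := by
    intro κ _ b w
    rw [sum_pow_char]
    refine Finset.sum_congr rfl fun a _ => ?_
    rw [mul_pow, algebraMap_pow_p]
  rw [zlin_apply, sub_pow_char, hs, hs]
  have h1 : ∑ i, algebraMap (ZMod p) K (c ⬝ᵥ D i) * f i =
      ∑ a, algebraMap (ZMod p) K (c a) * z a ^ p := by
    simp only [h, dotProduct, map_sum, Finset.sum_mul, Finset.mul_sum, map_mul]
    rw [Finset.sum_comm]
    refine Finset.sum_congr rfl fun a _ => Finset.sum_congr rfl fun i _ => ?_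
    ring
  simp only [mul_sub, Finset.sum_sub_distrib]
  rw [h1]

variable {p : ℕ} [Fact p.Prime] {K : Type} [Field K] [Algebra (ZMod p) K] {I : Type}
    [Fintype I] [DecidableEq I] {F : I → Type} [∀ i, Field (F i)] [∀ i, Algebra (ZMod p) (F i)]
    [∀ i, Algebra (F i) K] [∀ i, IsScalarTower (ZMod p) (F i) K] {m M : ℕ}

namespace GD

variable (G : GD p K I F m M)

/-- The factor of the twist. -/
noncomputable def xf (i : I) (b : Bool) : F i := cond b ((G.cd i).x ^ (G.cd i).N) 1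

/-- Its power. -/
noncomputable def wf (i : I) (b : Bool) : F i := G.xf i b ^ LD.Q p M

/-- The gauge. -/
noncomputable def gf (i : I) (b : Bool) : F i := cond b (G.cd i).g1 (G.cd i).g0

noncomputable def gs (σ : I → Bool) (i : I) : K := algebraMap (F i) K (G.gf i (σ i))

noncomputable def xs (σ : I → Bool) : K := ∏ i, algebraMap (F i) K (G.wf i (σ i))

noncomputable def zs (σ : I → Bool) : (Fin m → ZMod p) →ₗ[ZMod p] K := zlin G.D G.z (G.gs σ)

theorem xf_ne (i : I) (b : Bool) : G.xf i b ≠ 0 := by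
  cases b
  · exact one_ne_zero
  · exact pow_ne_zero _ (G.cd i).x0

theorem wf_ne (i : I) (b : Bool) : G.wf i b ≠ 0 := pow_ne_zero _ (G.xf_ne i b)

theorem xs_ne (σ : I → Bool) : G.xs σ ≠ 0 :=
  Finset.prod_ne_zero_iff.mpr fun i _ => (map_ne_zero _).mpr (G.wf_ne i _)

/-- The chart of a valuation. -/
noncomputable def σV (V : ValuationSubring K) (i : I) : Bool :=
  open Classical in if (WV V (F i)).valuation (G.cd i).x ≤ 1 then false else true

theorem xf_σV (V : ValuationSubring K) (i : I) :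
    G.xf i (G.σV V i) = tw (G.cd i).x (G.cd i).N (WV V (F i)) := by
  by_cases h : (WV V (F i)).valuation (G.cd i).x ≤ 1
  · rw [σV, if_pos h, tw_le h]; rfl
  · rw [σV, if_neg h, tw_gt h]; rfl

theorem gf_σV (V : ValuationSubring K) (i : I) :
    G.gf i (G.σV V i) = gg (G.cd i).x (G.cd i).g0 (G.cd i).g1 (WV V (F i)) := by
  by_cases h : (WV V (F i)).valuation (G.cd i).x ≤ 1
  · rw [σV, if_pos h, gg_le h]; rfl
  · rw [σV, if_neg h, gg_gt h]; rfl

theorem ratio_xf (V : ValuationSubring K) (i : I) (b : Bool) :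
    (WV V (F i)).valuation (G.xf i b / G.xf i (G.σV V i)) ≤ 1 := by
  set W := WV V (F i) with hW
  by_cases h : W.valuation (G.cd i).x ≤ 1
  · have hσ : G.σV V i = false := if_pos h
    rw [hσ]
    cases b
    · rw [div_self (G.xf_ne i _), map_one]
    · have h1 : G.xf i true / G.xf i false = (G.cd i).x ^ (G.cd i).N := div_one _
      rw [h1, map_pow]
      exact pow_le_one' h _
  · have hσ : G.σV V i = true := if_neg h
    rw [hσ]
    have h' := (not_le.mp h).le
    cases b
    · have h1 : G.xf i false / G.xf i true = 1 / (G.cd i).x ^ (G.cd i).N := rfl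
      rw [h1, one_div, map_inv₀, map_pow]
      exact inv_le_one_of_one_le₀ (one_le_pow₀ h')
    · rw [div_self (G.xf_ne i _), map_one]

theorem ratio_wf (V : ValuationSubring K) (i : I) (b : Bool) :
    (WV V (F i)).valuation (G.wf i b / G.wf i (G.σV V i)) ≤ 1 := by
  rw [wf, wf, ← div_pow, map_pow]
  exact pow_le_one' (G.ratio_xf V i b) _

end GD

/-- The local data of the global data. -/
structure LG (G : GD p K I F m M) (V : ValuationSubring K) where
  L : LD p V I m G.D M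
  z_eq : L.z = G.zs (G.σV V)
  tF : ∀ i, F i
  t_eq : ∀ i, L.t i = algebraMap (F i) K (tF i)
  t_le : ∀ i, (WV V (F i)).valuation (tF i) ≤ 1
  T_le : ∀ i, ∀ g ∈ (G.cd i).T, (WV V (F i)).valuation g ≤
    (WV V (F i)).valuation (tF i * G.xf i (G.σV V i))
  T_eq : ∀ i, ∃ g ∈ (G.cd i).T, (WV V (F i)).valuation g =
    (WV V (F i)).valuation (tF i * G.xf i (G.σV V i))
  h_le : ∀ i b, (WV V (F i)).valuation (G.wf i b / G.wf i (G.σV V i) *
    (G.gf i (G.σV V i) - G.gf i b)) ≤ (WV V (F i)).valuation (tF i ^ LD.Q p M)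
  yF : ∀ i, Fin (L.n i + 1) → F i
  y_eq : ∀ i b, L.y i b = algebraMap (F i) K (yF i b)
  y_le : ∀ i b, (WV V (F i)).valuation (yF i b) ≤ 1
  gen : ∀ i (w : F i), (WV V (F i)).valuation w ≤ 1 →
    ∃ a s : MvPolynomial (Fin (L.n i + 1)) (ZMod p), V.valuation (aeval (L.y i) s) = 1 ∧
      algebraMap (F i) K w = aeval (L.y i) a / aeval (L.y i) s

theorem aeval_algebraMap' {F₀ : Type} [Field F₀] [Algebra (ZMod p) F₀] [Algebra F₀ K]
    [IsScalarTower (ZMod p) F₀ K] {n : ℕ} (y : Fin n → F₀) (P : MvPolynomial (Fin n) (ZMod p)) :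
    aeval (fun b => algebraMap F₀ K (y b)) P = algebraMap F₀ K (aeval y P) := by
  exact (MvPolynomial.aeval_algebraMap_apply K y P)

theorem nonempty_lg (G : GD p K I F m M) (V : ValuationSubring K) : Nonempty (LG G V) := by
  classical
  -- the data of the curves
  have hex : ∀ i, ∃ (τ : F i) (e : ℤ) (n : ℕ) (y : Fin (n + 1) → F i)
      (Q : Fin (n + 1) → MvPolynomial (Fin (n + 1)) (ZMod p)) (l u : Fin (n + 1)),
      (∀ g ∈ (G.cd i).T, (WV V (F i)).valuation g ≤
        (WV V (F i)).valuation (τ * G.xf i (G.σV V i))) ∧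
      (∃ g ∈ (G.cd i).T, (WV V (F i)).valuation g =
        (WV V (F i)).valuation (τ * G.xf i (G.σV V i))) ∧
      (∀ b, (WV V (F i)).valuation (G.wf i b / G.wf i (G.σV V i) *
        (G.gf i (G.σV V i) - G.gf i b)) ≤ (WV V (F i)).valuation (τ ^ LD.Q p M)) ∧
      |e| ≤ M ∧ Pres (WV V (F i)) n y Q l ∧
      y u = (G.f i - G.gf i (G.σV V i) ^ p) * τ ^ (-e) ∧ τ ≠ 0 ∧
      ((e = 0 ∧ τ = 1 ∧ u = l) ∨ (¬ (p : ℤ) ∣ e ∧ (WV V (F i)).valuation (y u) = 1 ∧
        (WV V (F i)).valuation τ < 1 ∧ y l = τ)) := by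
    intro i
    obtain ⟨τ, h2, h3, h4, h5, h6⟩ := (G.cd i).loc (WV V (F i))
    rw [← G.gf_σV V i] at h6
    rw [← G.xf_σV V i] at h2 h3
    have hh : ∀ b, (WV V (F i)).valuation (G.wf i b / G.wf i (G.σV V i) *
        (G.gf i (G.σV V i) - G.gf i b)) ≤ (WV V (F i)).valuation (τ ^ LD.Q p M) := by
      intro b
      rw [map_pow]
      by_cases h : (WV V (F i)).valuation (G.cd i).x ≤ 1
      · have hσ : G.σV V i = false := if_pos h
        rw [hσ]
        cases b
        · rw [sub_self, mul_zero, map_zero]; exact zero_le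
        · have h7 : G.wf i true / G.wf i false = (G.cd i).x ^ (LD.Q p M * (G.cd i).N) := by
            rw [GD.wf, GD.wf]
            show ((G.cd i).x ^ (G.cd i).N) ^ LD.Q p M / 1 ^ LD.Q p M = _
            rw [one_pow, div_one, ← pow_mul, mul_comm]
          have h8 : G.gf i false - G.gf i true = -((G.cd i).g1 - (G.cd i).g0) := by
            show (G.cd i).g0 - (G.cd i).g1 = _
            ring
          rw [h7, h8, mul_neg, Valuation.map_neg]
          exact h4 h
      · have hσ : G.σV V i = true := if_neg h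
        rw [hσ]
        cases b
        · have h7 : G.wf i false / G.wf i true = ((G.cd i).x ^ (LD.Q p M * (G.cd i).N))⁻¹ := by
            rw [GD.wf, GD.wf]
            show 1 ^ LD.Q p M / ((G.cd i).x ^ (G.cd i).N) ^ LD.Q p M = _
            rw [one_pow, one_div, ← pow_mul, mul_comm]
          have h8 : G.gf i true - G.gf i false = (G.cd i).g1 - (G.cd i).g0 := rfl
          rw [h7, h8, inv_mul_eq_div]
          exact h5 h
        · rw [sub_self, mul_zero, map_zero]; exact zero_le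
    rcases h6 with ⟨hτ, n, y, Q, l, hP, hyl⟩ | ⟨hτ, hτ0, e, he, heM, n, y, Q, l, u, hP, hyl, hyu, hv⟩
    · exact ⟨τ, 0, n, y, Q, l, l, h2, h3, hh, by rw [abs_zero]; exact Int.natCast_nonneg _, hP,
        by rw [hyl, neg_zero, zpow_zero, mul_one], by rw [hτ]; exact one_ne_zero,
        Or.inl ⟨rfl, hτ, rfl⟩⟩
    · exact ⟨τ, e, n, y, Q, l, u, h2, h3, hh, heM, hP, hyu, hτ0, Or.inr ⟨he, hv, hτ, hyl⟩⟩
  choose τ e n y Q l u h2 h3 hh he hP hu hτ0 htyp using hex
  have hτ1 : ∀ i, (WV V (F i)).valuation (τ i) ≤ 1 := by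
    intro i
    rcases htyp i with h | h
    · rw [h.2.1, map_one]
    · exact h.2.2.1.le
  refine ⟨⟨⟨n, fun i b => algebraMap (F i) K (y i b), Q, l, u, e, fun i => algebraMap (F i) K (τ i),
    G.zs (G.σV V), ?_, ?_, ?_, ?_, ?_, he, ?_⟩, rfl, τ, fun i => rfl, hτ1, h2, h3, hh, y,
    fun i b => rfl, ?_, ?_⟩⟩
  · exact fun i b => wv_le_one.mp ((hP i).vy b)
  · exact fun i => (hP i).G0
  · intro i k
    rw [aeval_algebraMap', (hP i).rel, map_zero]
  · intro i
    rw [aeval_algebraMap']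
    exact wv_eq_one.mp (hP i).det
  · intro i
    rcases htyp i with ⟨h4, h5, h6⟩ | ⟨h4, h5, h6, h7⟩
    · left
      exact ⟨h4, by rw [h5, map_one], h6⟩
    · right
      exact ⟨h4, wv_eq_one.mp h5, wv_lt_one.mp h6, (map_ne_zero _).mpr (hτ0 i), by rw [h7]⟩
  · intro c
    have h4 := zlin_pow G.D G.z (G.gs (G.σV V)) (fun i => algebraMap (F i) K (G.f i)) G.AS c
    refine h4.trans (Finset.sum_congr rfl fun i _ => ?_)
    have h5 : algebraMap (F i) K (y i (u i)) * algebraMap (F i) K (τ i) ^ e i =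
        algebraMap (F i) K (G.f i) - G.gs (G.σV V) i ^ p := by
      rw [hu i, map_mul, map_sub, map_pow, map_zpow₀]
      have h6 : algebraMap (F i) K (τ i) ≠ 0 := (map_ne_zero _).mpr (hτ0 i)
      rw [mul_assoc, ← zpow_add₀ h6, neg_add_cancel, zpow_zero, mul_one]
      rfl
    rw [h5]
  · exact fun i b => (hP i).vy b
  · intro i w hw
    obtain ⟨a, s, h4, h5⟩ := (hP i).gen w hw
    refine ⟨a, s, ?_, ?_⟩
    · show V.valuation (aeval (fun b => algebraMap (F i) K (y i b)) s) = 1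
      rw [aeval_algebraMap']
      exact wv_eq_one.mp h4
    · show _ = aeval (fun b => algebraMap (F i) K (y i b)) a /
        aeval (fun b => algebraMap (F i) K (y i b)) s
      rw [aeval_algebraMap', aeval_algebraMap', ← map_div₀, h5]

end Pool.Agent.H96.W0
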