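import Pool.Agent.H96.W0.Glob
import Pool.Agent.H96.W.Pack

/-!
# The finite sets attached to the global data: purely inseparable case
-/

set_option autoImplicit false
set_option linter.unusedSectionVars false

namespace Pool.Agent.H96.W0

open MvPolynomial IsLocalRing Pool.Agent.H96.Reg Pool.Agent.H96.VL Pool.Agent.H96.W
open scoped Pointwise

variable {p : ℕ} [Fact p.Prime] {K : Type} [Field K] [Algebra (ZMod p) K] {I : Type}
    [Fintype I] [DecidableEq I] {F : I → Type} [∀ i, Field (F i)] [∀ i, Algebra (ZMod p) (F i)]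
    [∀ i, Algebra (F i) K] [∀ i, IsScalarTower (ZMod p) (F i) K] {m M : ℕ}

theorem zmod_mem_R (R : Subring K) (a : ZMod p) : algebraMap (ZMod p) K a ∈ R := by
  obtain ⟨n, hn⟩ := algebraMap_eq_intCast (zmod_surj p) a
  rw [hn]
  exact intCast_mem R n

namespace GD

variable (G : GD p K I F m M) [DecidableEq K]

/-- The sets of the curves. -/
noncomputable def TK (i : I) : Finset K := (G.cd i).T.image (algebraMap (F i) K)

noncomputable def pr (i : I) : Finset K := Finset.univ.image fun σ : I → Bool =>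
  ∏ j ∈ Finset.univ.erase i, algebraMap (F j) K (G.wf j (σ j))

noncomputable def sT (i : I) : Finset K := G.pr i * G.TK i ^ LD.Q p M

noncomputable def sX : Finset K := Finset.univ.image G.xs

/-- The sets of the elements `z c`. -/
noncomputable def sC (c : Fin m → ZMod p) : Finset K :=
  open Classical in (if LD.Z0 G.D c then G.sX else ∅) ∪
    ((Finset.univ.image fun σ => G.xs σ * G.zs σ c) ∪
      (Finset.univ.filter fun i => c ⬝ᵥ G.D i ≠ 0).biUnion G.sT)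

/-- The sets of the coordinates. -/
noncomputable def ss : I ⊕ (Fin m → ZMod p) → Finset K :=
  Sum.elim G.TK fun c => G.sC c * ∏ i, G.TK i ^ LD.Q p M

/-- The twists. -/
noncomputable def sL : I ⊕ (Fin m → ZMod p) → Finset K :=
  Sum.elim (fun i => Finset.univ.image fun b => algebraMap (F i) K (G.xf i b))
    fun _ => G.sX * G.sX

omit [DecidableEq K] in
/-- The values of the twists. -/
noncomputable def sl (V : ValuationSubring K) : I ⊕ (Fin m → ZMod p) → K :=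
  Sum.elim (fun i => algebraMap (F i) K (G.xf i (G.σV V i)))
    fun _ => G.xs (G.σV V) * G.xs (G.σV V)

end GD

variable {G : GD p K I F m M} {V : ValuationSubring K} (lg : LG G V) {R : Subring K}

/-- The subring contains the valuation rings of the curves and the normalized elements. -/
structure Base (lg : LG G V) (R : Subring K) : Prop where
  loc : VLocal V R
  b1 : ∀ i (w : F i), (WV V (F i)).valuation w ≤ 1 → algebraMap (F i) K w ∈ R
  bz : ∀ c, lg.L.z c / lg.L.ω c ∈ R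
  bt : ∀ c i, c ⬝ᵥ G.D i ≠ 0 → lg.L.t i ^ LD.Q p M / lg.L.ω c ∈ R
  bτ : ∀ c, lg.L.τ (Sum.inr c) ∈ R

section Gens

variable [DecidableEq K]
  (b1 : ∀ i (w : F i), (WV V (F i)).valuation w ≤ 1 → algebraMap (F i) K w ∈ R)

include b1

omit [DecidableEq K] in
theorem div_mem_of_le {i : I} {a b : F i} (hb : b ≠ 0)
    (hab : (WV V (F i)).valuation a ≤ (WV V (F i)).valuation b) :
    algebraMap (F i) K a / algebraMap (F i) K b ∈ R := by
  rw [← map_div₀]
  apply b1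
  have h1 : 0 < (WV V (F i)).valuation b := by rw [Valuation.pos_iff]; exact hb
  rw [map_div₀]
  exact (div_le_one₀ h1).mpr hab

theorem gen_TK (i : I) :
    Gen R (G.TK i) (lg.L.t i * algebraMap (F i) K (G.xf i (G.σV V i))) := by
  have h0 : lg.tF i * G.xf i (G.σV V i) ≠ 0 := by
    refine mul_ne_zero ?_ (G.xf_ne i _)
    intro h0
    have h1 := lg.L.t_ne_zero i
    rw [lg.t_eq, h0, map_zero] at h1
    exact h1 rfl
  rw [lg.t_eq, ← map_mul]
  obtain ⟨g, hg, hge⟩ := lg.T_eq i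
  have hg0 : g ≠ 0 := by
    rintro rfl
    exact (G.cd i).zero_T hg
  refine ⟨(map_ne_zero _).mpr h0, fun g' hg' => ?_, algebraMap (F i) K g,
    Finset.mem_image_of_mem _ hg, div_mem_of_le b1 hg0 hge.ge, (map_ne_zero _).mpr hg0⟩
  obtain ⟨w, hw, rfl⟩ := Finset.mem_image.mp hg'
  exact div_mem_of_le b1 h0 (lg.T_le i w hw)

omit [DecidableEq K] in
theorem wprod_div_mem (s : Finset I) (σ : I → Bool) :
    (∏ j ∈ s, algebraMap (F j) K (G.wf j (σ j))) /
      (∏ j ∈ s, algebraMap (F j) K (G.wf j (G.σV V j))) ∈ R := by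
  rw [← Finset.prod_div_distrib]
  refine Subring.prod_mem _ fun j _ => ?_
  rw [← map_div₀]
  exact b1 j _ (G.ratio_wf V j _)

theorem gen_pr (i : I) : Gen R (G.pr i)
    (∏ j ∈ Finset.univ.erase i, algebraMap (F j) K (G.wf j (G.σV V j))) := by
  have h0 : (∏ j ∈ Finset.univ.erase i, algebraMap (F j) K (G.wf j (G.σV V j))) ≠ 0 :=
    Finset.prod_ne_zero_iff.mpr fun j _ => (map_ne_zero _).mpr (G.wf_ne j _)
  refine ⟨h0, fun g hg => ?_, _, Finset.mem_image_of_mem _ (Finset.mem_univ (G.σV V)),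
    by rw [div_self h0]; exact R.one_mem, h0⟩
  obtain ⟨σ, -, rfl⟩ := Finset.mem_image.mp hg
  exact wprod_div_mem b1 _ σ

omit [DecidableEq K] in
theorem xs_div_mem (σ : I → Bool) : G.xs σ / G.xs (G.σV V) ∈ R := wprod_div_mem b1 _ σ

theorem gen_sX : Gen R G.sX (G.xs (G.σV V)) := by
  have hx0 := G.xs_ne (G.σV V)
  refine ⟨hx0, fun g hg => ?_, G.xs (G.σV V), Finset.mem_image_of_mem _ (Finset.mem_univ _),
    by rw [div_self hx0]; exact R.one_mem, hx0⟩
  obtain ⟨σ, -, rfl⟩ := Finset.mem_image.mp hg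
  exact xs_div_mem b1 σ

theorem gen_sT (i : I) : Gen R (G.sT i) (G.xs (G.σV V) * lg.L.t i ^ LD.Q p M) := by
  have h1 := (gen_pr (G := G) b1 i).mul ((gen_TK lg b1 i).pow (LD.Q p M))
  have h2 : (∏ j ∈ Finset.univ.erase i, algebraMap (F j) K (G.wf j (G.σV V j))) *
      (lg.L.t i * algebraMap (F i) K (G.xf i (G.σV V i))) ^ LD.Q p M =
      G.xs (G.σV V) * lg.L.t i ^ LD.Q p M := by
    rw [mul_pow, GD.xs, ← Finset.mul_prod_erase Finset.univ _ (Finset.mem_univ i)]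
    have h3 : algebraMap (F i) K (G.wf i (G.σV V i)) =
        algebraMap (F i) K (G.xf i (G.σV V i)) ^ LD.Q p M := by rw [GD.wf, map_pow]
    rw [h3]; ring
  rw [h2] at h1
  exact h1

/-- A generator in the set. -/
theorem exists_gen_sC (c : Fin m → ZMod p) : ∃ g ∈ G.sC c, g ≠ 0 ∧
    G.xs (G.σV V) * lg.L.ω c / g ∈ R ∧ g / (G.xs (G.σV V) * lg.L.ω c) ∈ R := by
  classical
  have hx0 := G.xs_ne (G.σV V)
  have hne : G.xs (G.σV V) * lg.L.ω c ≠ 0 := mul_ne_zero hx0 (lg.L.ω_ne_zero c)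
  by_cases h0 : LD.Z0 G.D c
  · refine ⟨G.xs (G.σV V), ?_, hx0, ?_, ?_⟩
    · rw [GD.sC, if_pos h0]
      exact Finset.mem_union_left _ (Finset.mem_image_of_mem _ (Finset.mem_univ _))
    · rw [lg.L.ω_Z0 h0, mul_one, div_self hx0]; exact R.one_mem
    · rw [lg.L.ω_Z0 h0, mul_one, div_self hx0]; exact R.one_mem
  · by_cases hz : lg.L.isZ c
    · refine ⟨G.xs (G.σV V) * lg.L.ω c, ?_, hne, by rw [div_self hne]; exact R.one_mem,
        by rw [div_self hne]; exact R.one_mem⟩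
      rw [lg.L.ω_isZ hz, lg.z_eq]
      exact Finset.mem_union_right _ (Finset.mem_union_left _
        (Finset.mem_image.mpr ⟨G.σV V, Finset.mem_univ _, rfl⟩))
    · obtain ⟨j, hj, hcj, -⟩ := lg.L.piv_spec h0 hz
      have h1 := gen_sT lg b1 j
      obtain ⟨g, hg, h2, h3⟩ := h1.ex
      rw [lg.L.ω_piv h0 hz hj]
      exact ⟨g, Finset.mem_union_right _ (Finset.mem_union_right _
        (Finset.mem_biUnion.mpr ⟨j, Finset.mem_filter.mpr ⟨Finset.mem_univ _, hcj⟩, hg⟩)), h3, h2,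
        h1.mem g hg⟩

omit [DecidableEq K] in
/-- The change of the charts. -/
theorem diff_mem (σ : I → Bool) (c : Fin m → ZMod p)
    (bt : ∀ i, c ⬝ᵥ G.D i ≠ 0 → lg.L.t i ^ LD.Q p M / lg.L.ω c ∈ R) :
    G.xs σ * (G.zs σ c - lg.L.z c) / (G.xs (G.σV V) * lg.L.ω c) ∈ R := by
  have h2 : G.zs σ c - lg.L.z c =
      ∑ i, algebraMap (ZMod p) K (c ⬝ᵥ G.D i) * (G.gs (G.σV V) i - G.gs σ i) := by
    rw [lg.z_eq, GD.zs, GD.zs, zlin_diff G.D G.z (G.gs σ) (G.gs (G.σV V)) c]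
    ring
  rw [h2, Finset.mul_sum, Finset.sum_div]
  refine Subring.sum_mem _ fun i _ => ?_
  by_cases hi : c ⬝ᵥ G.D i = 0
  · rw [hi, map_zero, zero_mul, mul_zero, zero_div]
    exact R.zero_mem
  have ht0 : lg.tF i ^ LD.Q p M ≠ 0 := by
    refine pow_ne_zero _ ?_
    intro h0
    have h1 := lg.L.t_ne_zero i
    rw [lg.t_eq, h0, map_zero] at h1
    exact h1 rfl
  have h3 := div_mem_of_le b1 ht0 (lg.h_le i (σ i))
  have h4 := wprod_div_mem (G := G) b1 (Finset.univ.erase i) σ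
  have h5 := R.mul_mem (R.mul_mem (zmod_mem_R R (c ⬝ᵥ G.D i)) (R.mul_mem h3 h4)) (bt i hi)
  refine (congrArg (· ∈ R) ?_).mp h5
  have e1 : G.xs σ = algebraMap (F i) K (G.wf i (σ i)) *
      ∏ j ∈ Finset.univ.erase i, algebraMap (F j) K (G.wf j (σ j)) := by
    rw [GD.xs, Finset.mul_prod_erase Finset.univ (fun j => algebraMap (F j) K (G.wf j (σ j)))
      (Finset.mem_univ i)]
  have e2 : G.xs (G.σV V) = algebraMap (F i) K (G.wf i (G.σV V i)) *
      ∏ j ∈ Finset.univ.erase i, algebraMap (F j) K (G.wf j (G.σV V j)) := by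
    rw [GD.xs, Finset.mul_prod_erase Finset.univ
      (fun j => algebraMap (F j) K (G.wf j (G.σV V j))) (Finset.mem_univ i)]
  have n1 : (∏ j ∈ Finset.univ.erase i, algebraMap (F j) K (G.wf j (G.σV V j))) ≠ 0 :=
    Finset.prod_ne_zero_iff.mpr fun j _ => (map_ne_zero _).mpr (G.wf_ne j _)
  have n2 : algebraMap (F i) K (G.wf i (G.σV V i)) ≠ 0 := (map_ne_zero _).mpr (G.wf_ne i _)
  have n3 := lg.L.ω_ne_zero c
  have n4 : lg.L.t i ^ LD.Q p M ≠ 0 := pow_ne_zero _ (lg.L.t_ne_zero i)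
  have e3 : algebraMap (F i) K (lg.tF i ^ LD.Q p M) = lg.L.t i ^ LD.Q p M := by
    rw [map_pow, ← lg.t_eq]
  have e4 : algebraMap (F i) K (G.wf i (σ i) / G.wf i (G.σV V i) *
      (G.gf i (G.σV V i) - G.gf i (σ i))) = algebraMap (F i) K (G.wf i (σ i)) /
        algebraMap (F i) K (G.wf i (G.σV V i)) * (G.gs (G.σV V) i - G.gs σ i) := by
    rw [map_mul, map_div₀, map_sub]
    rfl
  rw [e1, e2, e3, e4]
  field_simp

theorem sC_div_mem (c : Fin m → ZMod p) (bz : lg.L.z c / lg.L.ω c ∈ R)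
    (bt : ∀ i, c ⬝ᵥ G.D i ≠ 0 → lg.L.t i ^ LD.Q p M / lg.L.ω c ∈ R) :
    ∀ g ∈ G.sC c, g / (G.xs (G.σV V) * lg.L.ω c) ∈ R := by
  classical
  have hx0 := G.xs_ne (G.σV V)
  have hω0 := lg.L.ω_ne_zero c
  intro g hg
  rw [GD.sC] at hg
  rcases Finset.mem_union.mp hg with hg | hg
  · by_cases h0 : LD.Z0 G.D c
    · rw [if_pos h0] at hg
      rw [lg.L.ω_Z0 h0, mul_one]
      exact (gen_sX (G := G) b1).mem g hg
    · rw [if_neg h0] at hg
      simp at hg
  · rcases Finset.mem_union.mp hg with hg | hg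
    · obtain ⟨σ, -, rfl⟩ := Finset.mem_image.mp hg
      have h1 : G.xs σ * G.zs σ c / (G.xs (G.σV V) * lg.L.ω c) =
          G.xs σ * (G.zs σ c - lg.L.z c) / (G.xs (G.σV V) * lg.L.ω c) +
            G.xs σ / G.xs (G.σV V) * (lg.L.z c / lg.L.ω c) := by
        field_simp
        ring
      rw [h1]
      exact R.add_mem (diff_mem lg b1 σ c bt) (R.mul_mem (xs_div_mem b1 σ) bz)
    · obtain ⟨i, hi, hg⟩ := Finset.mem_biUnion.mp hg
      have hci := (Finset.mem_filter.mp hi).2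
      have h1 := R.mul_mem ((gen_sT lg b1 i).mem g hg) (bt i hci)
      have ht0 : lg.L.t i ^ LD.Q p M ≠ 0 := pow_ne_zero _ (lg.L.t_ne_zero i)
      have h2 : g / (G.xs (G.σV V) * lg.L.t i ^ LD.Q p M) * (lg.L.t i ^ LD.Q p M / lg.L.ω c) =
          g / (G.xs (G.σV V) * lg.L.ω c) := by field_simp
      rwa [h2] at h1

theorem gen_sC (c : Fin m → ZMod p) (bz : lg.L.z c / lg.L.ω c ∈ R)
    (bt : ∀ i, c ⬝ᵥ G.D i ≠ 0 → lg.L.t i ^ LD.Q p M / lg.L.ω c ∈ R) :
    Gen R (G.sC c) (G.xs (G.σV V) * lg.L.ω c) := by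
  obtain ⟨g, hg, hg0, h1, h2⟩ := exists_gen_sC lg b1 c
  exact ⟨mul_ne_zero (G.xs_ne _) (lg.L.ω_ne_zero c), sC_div_mem lg b1 c bz bt, g, hg, h1, hg0⟩

theorem gen_ss_inr (c : Fin m → ZMod p) (bz : lg.L.z c / lg.L.ω c ∈ R)
    (bt : ∀ i, c ⬝ᵥ G.D i ≠ 0 → lg.L.t i ^ LD.Q p M / lg.L.ω c ∈ R) :
    Gen R (G.ss (Sum.inr c)) (G.sl V (Sum.inr c) * lg.L.τ (Sum.inr c)) := by
  have h1 := (gen_sC lg b1 c bz bt).mul (Gen.prod Finset.univ (s := fun i => G.TK i ^ LD.Q p M)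
    (fun i _ => (gen_TK lg b1 i).pow (LD.Q p M)))
  have h2 : G.xs (G.σV V) * lg.L.ω c *
      ∏ i, (lg.L.t i * algebraMap (F i) K (G.xf i (G.σV V i))) ^ LD.Q p M =
      G.sl V (Sum.inr c) * lg.L.τ (Sum.inr c) := by
    show _ = G.xs (G.σV V) * G.xs (G.σV V) * (lg.L.ω c * ∏ i, lg.L.t i ^ LD.Q p M)
    have h3 : ∏ i, (lg.L.t i * algebraMap (F i) K (G.xf i (G.σV V i))) ^ LD.Q p M =
        (∏ i, lg.L.t i ^ LD.Q p M) * G.xs (G.σV V) := by
      rw [GD.xs, ← Finset.prod_mul_distrib]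
      refine Finset.prod_congr rfl fun i _ => ?_
      rw [mul_pow, GD.wf, map_pow]
    rw [h3]; ring
  rw [h2] at h1
  exact h1

theorem gen_sL (α : I ⊕ (Fin m → ZMod p)) : Gen R (G.sL α) (G.sl V α) := by
  rcases α with i | c
  · have hx0 : algebraMap (F i) K (G.xf i (G.σV V i)) ≠ 0 := (map_ne_zero _).mpr (G.xf_ne i _)
    refine ⟨hx0, fun g hg => ?_, _, Finset.mem_image_of_mem _ (Finset.mem_univ (G.σV V i)), ?_, hx0⟩
    · obtain ⟨b, -, rfl⟩ := Finset.mem_image.mp hg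
      show algebraMap (F i) K (G.xf i b) / algebraMap (F i) K (G.xf i (G.σV V i)) ∈ R
      rw [← map_div₀]
      exact b1 i _ (G.ratio_xf V i b)
    · show algebraMap (F i) K (G.xf i (G.σV V i)) / algebraMap (F i) K (G.xf i (G.σV V i)) ∈ R
      rw [div_self hx0]; exact R.one_mem
  · exact (gen_sX (G := G) b1).mul (gen_sX (G := G) b1)

end Gens

section Base

variable [DecidableEq K]

theorem Base.gen_ss {lg : LG G V} (h : Base lg R) (α : I ⊕ (Fin m → ZMod p)) :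
    Gen R (G.ss α) (G.sl V α * lg.L.τ α ^ (1 : ℤ)) := by
  rw [zpow_one]
  rcases α with i | c
  · have h1 := gen_TK lg h.b1 i
    rw [mul_comm] at h1
    exact h1
  · exact gen_ss_inr lg h.b1 c (h.bz c) (h.bt c)

theorem Base.prin_base {lg : LG G V} (h : Base lg R) (i : I) {s : Finset (F i)}
    (hs : s ∈ (G.cd i).base) : Prin R (s.image (algebraMap (F i) K)) := by
  obtain ⟨h0, hne⟩ := (G.cd i).zero_base s hs
  obtain ⟨g, hg, hmax⟩ := Finset.exists_max_image s (fun w => (WV V (F i)).valuation w) hne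
  have hg0 : g ≠ 0 := by rintro rfl; exact h0 hg
  have hg0' : algebraMap (F i) K g ≠ 0 := (map_ne_zero _).mpr hg0
  refine ⟨algebraMap (F i) K g, hg0', fun g' hg' => ?_, algebraMap (F i) K g,
    Finset.mem_image_of_mem _ hg, by rw [div_self hg0']; exact R.one_mem, hg0'⟩
  obtain ⟨w, hw, rfl⟩ := Finset.mem_image.mp hg'
  exact div_mem_of_le h.b1 hg0 (hmax w hw)

theorem Base.prin_s2 {lg : LG G V} (h : Base lg R) (c : Fin m → ZMod p) :
    Prin R (G.ss (Sum.inr c) ∪ G.sL (Sum.inr c)) := by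
  refine (gen_ss_inr lg h.b1 c (h.bz c) (h.bt c)).prin_union (gen_sL h.b1 (Sum.inr c)) (Or.inl ?_)
  have hsl : G.sl V (Sum.inr c : I ⊕ (Fin m → ZMod p)) ≠ 0 :=
    mul_ne_zero (G.xs_ne _) (G.xs_ne _)
  rw [mul_div_cancel_left₀ _ hsl]
  exact h.bτ c

omit [DecidableEq K] in
theorem Base.τ_mem {lg : LG G V} (h : Base lg R) (α : I ⊕ (Fin m → ZMod p)) : lg.L.τ α ∈ R := by
  rcases α with i | c
  · rw [lg.L.τ_inl, lg.t_eq]
    exact h.b1 i _ (lg.t_le i)
  · exact h.bτ c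

omit [DecidableEq K] in
/-- Base for the valuation ring. -/
theorem base_self (lg : LG G V) : Base lg V.toSubring where
  loc := ⟨fun x hx => (V.valuation_le_one_iff x).mpr hx, fun x hx h1 => by
    have h2 : V.valuation x⁻¹ = 1 := by rw [map_inv₀, h1, inv_one]
    exact (V.valuation_le_one_iff _).mp h2.le⟩
  b1 := fun i w hw => (V.valuation_le_one_iff _).mp (wv_le_one.mp hw)
  bz := fun c => (V.valuation_le_one_iff _).mp (lg.L.vY (Sum.inr c))
  bt := fun c i hi => by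
    refine (V.valuation_le_one_iff _).mp ?_
    have h : 0 < V.valuation (lg.L.ω c) := by rw [Valuation.pos_iff]; exact lg.L.ω_ne_zero c
    rw [map_div₀]
    exact (div_le_one₀ h).mpr (lg.L.vt_le_ω hi)
  bτ := fun c => (V.valuation_le_one_iff _).mp (lg.L.vτ _)

/-- Detection. -/
theorem base_of_prin (lg : LG G V) (hR : VLocal V R)
    (h1 : ∀ i, ∀ s ∈ (G.cd i).base, Prin R (s.image (algebraMap (F i) K)))
    (h2 : ∀ c, Prin R (G.sC c)) (h3 : ∀ c, Prin R (G.ss (Sum.inr c) ∪ G.sL (Sum.inr c))) :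
    Base lg R := by
  classical
  have b1 : ∀ i (w : F i), (WV V (F i)).valuation w ≤ 1 → algebraMap (F i) K w ∈ R :=
    fun i w hw => (G.cd i).detect (WV V (F i)) (R.comap (algebraMap (F i) K)) (vlocal_comap hR)
      (fun s hs => prin_comap (h1 i s hs)) w hw
  have hx0 := G.xs_ne (G.σV V)
  have hself := base_self lg
  have key : ∀ c, ∀ g ∈ G.sC c, g / (G.xs (G.σV V) * lg.L.ω c) ∈ R := by
    intro c g hg
    have hne : G.xs (G.σV V) * lg.L.ω c ≠ 0 := mul_ne_zero hx0 (lg.L.ω_ne_zero c)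
    obtain ⟨g₀, hg₀, hg₀0, h4, h5⟩ := exists_gen_sC lg b1 c
    obtain ⟨T, hT⟩ := h2 c
    have h6 := gen_sC lg hself.b1 c (hself.bz c) (hself.bt c)
    have h7 : V.valuation (G.xs (G.σV V) * lg.L.ω c) ≤ V.valuation g₀ := by
      have h8 := hR.le _ h4
      have h9 : 0 < V.valuation g₀ := by rw [Valuation.pos_iff]; exact hg₀0
      rw [map_div₀] at h8
      exact (div_le_one₀ h9).mp h8
    have h8 : Gen R (G.sC c) g₀ := hT.of_max hR hg₀ fun g hg =>
      (h6.val_le hself.loc hg).trans h7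
    have h9 := R.mul_mem (h8.mem g hg) h5
    have h10 : g / g₀ * (g₀ / (G.xs (G.σV V) * lg.L.ω c)) = g / (G.xs (G.σV V) * lg.L.ω c) := by
      field_simp
    rwa [h10] at h9
  have bz : ∀ c, lg.L.z c / lg.L.ω c ∈ R := by
    intro c
    have h4 := key c (G.xs (G.σV V) * G.zs (G.σV V) c) (Finset.mem_union_right _
      (Finset.mem_union_left _ (Finset.mem_image.mpr ⟨G.σV V, Finset.mem_univ _, rfl⟩)))
    rw [← lg.z_eq, mul_div_mul_left _ _ hx0] at h4
    exact h4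
  have bt : ∀ c i, c ⬝ᵥ G.D i ≠ 0 → lg.L.t i ^ LD.Q p M / lg.L.ω c ∈ R := by
    intro c i hi
    obtain ⟨g, hg, h4, h5⟩ := (gen_sT lg b1 i).ex
    have h6 := key c g (Finset.mem_union_right _ (Finset.mem_union_right _
      (Finset.mem_biUnion.mpr ⟨i, Finset.mem_filter.mpr ⟨Finset.mem_univ _, hi⟩, hg⟩)))
    have h7 := R.mul_mem h4 h6
    have hω0 := lg.L.ω_ne_zero c
    have h8 : G.xs (G.σV V) * lg.L.t i ^ LD.Q p M / g * (g / (G.xs (G.σV V) * lg.L.ω c)) =
        lg.L.t i ^ LD.Q p M / lg.L.ω c := by field_simp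
    rwa [h8] at h7
  refine ⟨hR, b1, bz, bt, fun c => ?_⟩
  have hcmp := (gen_ss_inr lg b1 c (bz c) (bt c)).cmp_of_prin_union hR (gen_sL b1 (Sum.inr c)) (h3 c)
  have hsl : G.sl V (Sum.inr c : I ⊕ (Fin m → ZMod p)) ≠ 0 := mul_ne_zero hx0 hx0
  have h4 := hcmp.div_mem hR (mul_ne_zero hsl (lg.L.τ_ne_zero _)) hsl (by
    rw [map_mul]
    exact mul_le_of_le_one_right' (lg.L.vτ _))
  rwa [mul_div_cancel_left₀ _ hsl] at h4

end Base

end Pool.Agent.H96.W0
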