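import Pool.Agent.H96.W.LocB

/-!
# The local data at a valuation: purely inseparable case
-/

set_option autoImplicit false
set_option linter.unusedSectionVars false

namespace Pool.Agent.H96.W0

open MvPolynomial IsLocalRing Pool.Agent.H96.Reg Pool.Agent.H96.VL Pool.Agent.H96.W

/-- The local data at `V`. -/
structure LD (p : ℕ) [Fact p.Prime] {K : Type} [Field K] [Algebra (ZMod p) K]
    (V : ValuationSubring K) (I : Type) [Fintype I] [DecidableEq I] (m : ℕ)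
    (D : I → Fin m → ZMod p) (M : ℕ) where
  n : I → ℕ
  y : ∀ i, Fin (n i + 1) → K
  G : ∀ i, Fin (n i + 1) → MvPolynomial (Fin (n i + 1)) (ZMod p)
  l : ∀ i, Fin (n i + 1)
  u : ∀ i, Fin (n i + 1)
  e : I → ℤ
  t : I → K
  z : (Fin m → ZMod p) →ₗ[ZMod p] K
  vy : ∀ i b, V.valuation (y i b) ≤ 1
  G0 : ∀ i, G i 0 = X (l i)
  rel : ∀ i (k : Fin (n i)), aeval (y i) (G i k.succ) = 0
  det : ∀ i, V.valuation (aeval (y i) (Matrix.of fun a b => pderiv b (G i a)).det) = 1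
  typ : ∀ i, (e i = 0 ∧ t i = 1 ∧ u i = l i) ∨ (¬ (p : ℤ) ∣ e i ∧ V.valuation (y i (u i)) = 1 ∧
    V.valuation (t i) < 1 ∧ t i ≠ 0 ∧ y i (l i) = t i)
  eM : ∀ i, |e i| ≤ M
  AS : ∀ c, z c ^ p = ∑ i, algebraMap (ZMod p) K (c ⬝ᵥ D i) * (y i (u i) * t i ^ e i)

namespace LD

variable {p : ℕ} [Fact p.Prime] {K : Type} [Field K] [Algebra (ZMod p) K]
  {V : ValuationSubring K} {I : Type} [Fintype I] [DecidableEq I] {m : ℕ}
  {D : I → Fin m → ZMod p} {M : ℕ} (L : LD p V I m D M)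

theorem t_ne_zero (i : I) : L.t i ≠ 0 := by
  rcases L.typ i with h | ⟨-, -, -, h, -⟩
  · rw [h.2.1]; exact one_ne_zero
  · exact h

theorem vt (i : I) : V.valuation (L.t i) ≤ 1 := by
  rcases L.typ i with h | ⟨-, -, h, -⟩
  · rw [h.2.1, map_one]
  · exact h.le

theorem t_one_of {i : I} (h : L.e i = 0) : L.t i = 1 ∧ L.u i = L.l i := by
  rcases L.typ i with h' | ⟨h', -⟩
  · exact h'.2
  · rw [h] at h'
    exact absurd (dvd_zero _) h'

theorem e_ne {i : I} (h : L.t i ≠ 1) : ¬ (p : ℤ) ∣ L.e i ∧ V.valuation (L.y i (L.u i)) = 1 ∧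
    V.valuation (L.t i) < 1 ∧ L.y i (L.l i) = L.t i := by
  rcases L.typ i with h' | ⟨h1, h2, h3, h4, h5⟩
  · exact absurd h'.2.1 h
  · exact ⟨h1, h2, h3, h5⟩

theorem e_zero {i : I} (h : L.t i = 1) : L.e i = 0 ∧ L.u i = L.l i := by
  rcases L.typ i with h' | ⟨h1, h2, h3, h4, h5⟩
  · exact ⟨h'.1, h'.2.2⟩
  · rw [h, map_one] at h3
    exact absurd h3 (lt_irrefl _)

theorem vf (i : I) : V.valuation (L.y i (L.u i) * L.t i ^ L.e i) ≤ V.valuation (L.t i ^ L.e i) := by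
  rw [map_mul]
  exact mul_le_of_le_one_left' (L.vy _ _)

/-- The cutoff. -/
def Q (p M : ℕ) : ℕ := p * M

/-- The functional vanishes. -/
def Z0 (D : I → Fin m → ZMod p) (c : Fin m → ZMod p) : Prop := ∀ i, c ⬝ᵥ D i = 0

/-- `z c` is larger than the cutoff. -/
def isZ (c : Fin m → ZMod p) : Prop :=
  ¬ Z0 D c ∧ ∀ i, c ⬝ᵥ D i ≠ 0 → V.valuation (L.t i ^ Q p M) ≤ V.valuation (L.z c)

theorem exists_piv (c : Fin m → ZMod p) : ∃ i : Option I, ¬ Z0 D c → ¬ L.isZ c →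
    ∃ j, i = some j ∧ c ⬝ᵥ D j ≠ 0 ∧ V.valuation (L.z c) ≤ V.valuation (L.t j ^ Q p M) ∧
      ∀ j', c ⬝ᵥ D j' ≠ 0 → V.valuation (L.t j' ^ Q p M) ≤ V.valuation (L.t j ^ Q p M) := by
  classical
  by_cases h0 : Z0 D c
  · exact ⟨none, fun h => absurd h0 h⟩
  by_cases hz : L.isZ c
  · exact ⟨none, fun _ h => absurd hz h⟩
  have h1 : ¬ ∀ i, c ⬝ᵥ D i ≠ 0 → V.valuation (L.t i ^ Q p M) ≤ V.valuation (L.z c) :=
    fun h => hz ⟨h0, h⟩
  push Not at h1
  obtain ⟨i, hi, hlt⟩ := h1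
  obtain ⟨j, hj, hmax⟩ := Finset.exists_max_image (Finset.univ.filter fun i => c ⬝ᵥ D i ≠ 0)
    (fun i => V.valuation (L.t i ^ Q p M)) ⟨i, Finset.mem_filter.mpr ⟨Finset.mem_univ _, hi⟩⟩
  refine ⟨some j, fun _ _ => ⟨j, rfl, (Finset.mem_filter.mp hj).2, ?_, fun j' hj' =>
    hmax j' (Finset.mem_filter.mpr ⟨Finset.mem_univ _, hj'⟩)⟩⟩
  exact hlt.le.trans (hmax i (Finset.mem_filter.mpr ⟨Finset.mem_univ _, hi⟩))

/-- The pivot. -/
noncomputable def piv (c : Fin m → ZMod p) : Option I := (L.exists_piv c).choose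

theorem piv_spec {c : Fin m → ZMod p} (h0 : ¬ Z0 D c) (hz : ¬ L.isZ c) :
    ∃ j, L.piv c = some j ∧ c ⬝ᵥ D j ≠ 0 ∧ V.valuation (L.z c) ≤ V.valuation (L.t j ^ Q p M) ∧
      ∀ j', c ⬝ᵥ D j' ≠ 0 → V.valuation (L.t j' ^ Q p M) ≤ V.valuation (L.t j ^ Q p M) :=
  (L.exists_piv c).choose_spec h0 hz

/-- The size of `z c`. -/
noncomputable def ω (c : Fin m → ZMod p) : K :=
  open Classical in if Z0 D c then 1 else if L.isZ c then L.z c else
    (L.piv c).elim 1 fun j => L.t j ^ Q p M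

theorem ω_Z0 {c : Fin m → ZMod p} (h : Z0 D c) : L.ω c = 1 := if_pos h

theorem ω_isZ {c : Fin m → ZMod p} (h : L.isZ c) : L.ω c = L.z c := by
  rw [ω, if_neg h.1, if_pos h]

theorem ω_piv {c : Fin m → ZMod p} (h0 : ¬ Z0 D c) (hz : ¬ L.isZ c) {j : I}
    (hj : L.piv c = some j) : L.ω c = L.t j ^ Q p M := by
  rw [ω, if_neg h0, if_neg hz, hj]
  rfl

theorem z_Z0 {c : Fin m → ZMod p} (h : Z0 D c) : L.z c = 0 := by
  have h1 : L.z c ^ p = 0 := by
    rw [L.AS]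
    refine Finset.sum_eq_zero fun i _ => ?_
    rw [h i, map_zero, zero_mul]
  exact pow_eq_zero_iff (Fact.out : p.Prime).ne_zero |>.mp h1

theorem ω_ne_zero (c : Fin m → ZMod p) : L.ω c ≠ 0 := by
  by_cases h0 : Z0 D c
  · rw [L.ω_Z0 h0]; exact one_ne_zero
  · by_cases hz : L.isZ c
    · rw [L.ω_isZ hz]
      intro h
      apply h0
      intro i
      by_contra hi
      have h1 := hz.2 i hi
      rw [h, map_zero] at h1
      have h2 : 0 < V.valuation (L.t i ^ Q p M) := by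
        rw [Valuation.pos_iff]; exact pow_ne_zero _ (L.t_ne_zero i)
      exact absurd h1 (not_le.mpr h2)
    · obtain ⟨j, hj, -⟩ := L.piv_spec h0 hz
      rw [L.ω_piv h0 hz hj]
      exact pow_ne_zero _ (L.t_ne_zero j)

theorem vz_le (c : Fin m → ZMod p) : V.valuation (L.z c) ≤ V.valuation (L.ω c) := by
  by_cases h0 : Z0 D c
  · rw [L.z_Z0 h0, map_zero]; exact zero_le
  · by_cases hz : L.isZ c
    · rw [L.ω_isZ hz]
    · obtain ⟨j, hj, -, h1, -⟩ := L.piv_spec h0 hz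
      rw [L.ω_piv h0 hz hj]
      exact h1

theorem vt_le_ω {c : Fin m → ZMod p} {i : I} (hi : c ⬝ᵥ D i ≠ 0) :
    V.valuation (L.t i ^ Q p M) ≤ V.valuation (L.ω c) := by
  have h0 : ¬ Z0 D c := fun h => hi (h i)
  by_cases hz : L.isZ c
  · rw [L.ω_isZ hz]; exact hz.2 i hi
  · obtain ⟨j, hj, -, -, h1⟩ := L.piv_spec h0 hz
    rw [L.ω_piv h0 hz hj]
    exact h1 i hi

theorem vz_pow_le {c : Fin m → ZMod p} {γ : V.ValueGroup}
    (h : ∀ i, c ⬝ᵥ D i ≠ 0 → V.valuation (L.t i ^ L.e i) ≤ γ) : V.valuation (L.z c ^ p) ≤ γ := by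
  rw [L.AS]
  refine Valuation.map_sum_le _ fun i _ => ?_
  by_cases hi : c ⬝ᵥ D i = 0
  · rw [hi, map_zero, zero_mul, map_zero]
    exact zero_le
  · rw [map_mul]
    calc V.valuation (algebraMap (ZMod p) K (c ⬝ᵥ D i)) * V.valuation (L.y i (L.u i) * L.t i ^ L.e i)
          ≤ 1 * γ := mul_le_mul' (val_algebraMap_zmod _) ((L.vf i).trans (h i hi))
      _ = γ := one_mul _

theorem vzpow_le (i : I) {a b : ℤ} (h : a ≤ b) :
    V.valuation (L.t i ^ b) ≤ V.valuation (L.t i ^ a) := by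
  have h1 : L.t i ^ b = L.t i ^ (b - a) * L.t i ^ a := by
    rw [← zpow_add₀ (L.t_ne_zero i)]
    congr 1; ring
  rw [h1, map_mul]
  refine mul_le_of_le_one_left' ?_
  obtain ⟨n, hn⟩ := Int.eq_ofNat_of_zero_le (sub_nonneg.mpr h)
  rw [hn, zpow_natCast, map_pow]
  exact pow_le_one' (L.vt i) n

theorem cutoff (i : I) : V.valuation ((L.t i ^ Q p M) ^ p) ≤ V.valuation (L.t i ^ L.e i) := by
  rw [← pow_mul, ← zpow_natCast]
  apply L.vzpow_le
  have h1 := (abs_le.mp (L.eM i)).2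
  have hp : 1 ≤ p := (Fact.out : p.Prime).one_le
  have h2 : M ≤ Q p M * p := by
    rw [Q]
    calc M ≤ p * M := Nat.le_mul_of_pos_left _ hp
      _ ≤ p * M * p := Nat.le_mul_of_pos_right _ hp
  exact h1.trans (by exact_mod_cast h2)

/-- The size of `z c` is bounded by the sizes of the functions. -/
theorem vω_pow_le {c : Fin m → ZMod p} (h0 : ¬ Z0 D c) {γ : V.ValueGroup}
    (h : ∀ i, c ⬝ᵥ D i ≠ 0 → V.valuation (L.t i ^ L.e i) ≤ γ) : V.valuation (L.ω c ^ p) ≤ γ := by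
  by_cases hz : L.isZ c
  · rw [L.ω_isZ hz]; exact L.vz_pow_le h
  · obtain ⟨j, hj, h1, -⟩ := L.piv_spec h0 hz
    rw [L.ω_piv h0 hz hj]
    exact (L.cutoff j).trans (h j h1)

/-- The coordinates. -/
noncomputable def τ : I ⊕ (Fin m → ZMod p) → K :=
  Sum.elim L.t fun c => L.ω c * ∏ i, L.t i ^ Q p M

theorem τ_inl (i : I) : L.τ (Sum.inl i) = L.t i := rfl

theorem τ_inr (c : Fin m → ZMod p) : L.τ (Sum.inr c) = L.ω c * ∏ i, L.t i ^ Q p M := rfl

theorem τ_ne_zero (α : I ⊕ (Fin m → ZMod p)) : L.τ α ≠ 0 := by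
  rcases α with i | c
  · exact L.t_ne_zero i
  · exact mul_ne_zero (L.ω_ne_zero c) (Finset.prod_ne_zero_iff.mpr fun i _ =>
      pow_ne_zero _ (L.t_ne_zero i))

theorem vprod_le (i : I) : V.valuation (∏ i, L.t i ^ Q p M) ≤ V.valuation (L.t i ^ Q p M) := by
  rw [← Finset.mul_prod_erase Finset.univ _ (Finset.mem_univ i), map_mul]
  refine mul_le_of_le_one_right' ?_
  rw [map_prod]
  refine Finset.prod_le_one' fun j _ => ?_
  rw [map_pow]
  exact pow_le_one' (L.vt j) _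

theorem vτ (α : I ⊕ (Fin m → ZMod p)) : V.valuation (L.τ α) ≤ 1 := by
  have hp : 1 ≤ p := (Fact.out : p.Prime).one_le
  rcases α with i | c
  · exact L.vt i
  · rw [L.τ_inr]
    by_cases h0 : Z0 D c
    · rw [L.ω_Z0 h0, one_mul, map_prod]
      refine Finset.prod_le_one' fun j _ => ?_
      rw [map_pow]
      exact pow_le_one' (L.vt j) _
    · have h1 : V.valuation ((L.ω c * ∏ i, L.t i ^ Q p M) ^ p) ≤ 1 := by
        -- the largest function
        obtain ⟨i, hi⟩ : ∃ i, c ⬝ᵥ D i ≠ 0 := by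
          by_contra hcon
          push Not at hcon
          exact h0 hcon
        obtain ⟨j, -, hmax⟩ := Finset.exists_max_image (Finset.univ : Finset I)
          (fun i => V.valuation (L.t i ^ L.e i)) ⟨i, Finset.mem_univ i⟩
        have h2 := L.vω_pow_le h0 (γ := V.valuation (L.t j ^ L.e j))
          (fun i _ => hmax i (Finset.mem_univ _))
        have h3 : V.valuation ((∏ i, L.t i ^ Q p M) ^ p) ≤ V.valuation ((L.t j ^ Q p M) ^ p) := by
          rw [map_pow, map_pow V.valuation (L.t j ^ Q p M) p]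
          exact pow_le_pow_left' (L.vprod_le j) _
        rw [mul_pow, map_mul]
        refine (mul_le_mul' h2 h3).trans ?_
        rw [← map_mul, ← pow_mul, ← zpow_natCast, ← zpow_add₀ (L.t_ne_zero j)]
        have h4 := L.vzpow_le j (a := 0) (b := L.e j + ((Q p M * p : ℕ) : ℤ)) (by
          have h5 := (abs_le.mp (L.eM j)).1
          have h6 : M ≤ Q p M * p := by
            rw [Q]
            calc M ≤ p * M := Nat.le_mul_of_pos_left _ hp
              _ ≤ p * M * p := Nat.le_mul_of_pos_right _ hp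
          have h7 : (M : ℤ) ≤ ((Q p M * p : ℕ) : ℤ) := by exact_mod_cast h6
          linarith)
        rw [zpow_zero, map_one] at h4
        exact h4
      by_contra hcon
      rw [map_pow] at h1
      exact absurd h1 (not_le.mpr (one_lt_pow₀ (not_le.mp hcon) (by omega)))

/-- The exponent of `ω c`. -/
def Ec (p : ℕ) (I : Type) (m M : ℕ) (c : Fin m → ZMod p) : I ⊕ (Fin m → ZMod p) → ℤ :=
  Sum.elim (fun _ => -(Q p M : ℤ)) (Pi.single c 1)

theorem mon_Ec (c : Fin m → ZMod p) : mon L.τ (Ec p I m M c) = L.ω c := by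
  rw [mon, Fintype.prod_sum_type]
  have h1 : ∏ b, L.τ (Sum.inr b) ^ (Ec p I m M c (Sum.inr b)) = L.τ (Sum.inr c) := by
    rw [Finset.prod_eq_single c]
    · show L.τ (Sum.inr c) ^ ((Pi.single c 1 : (Fin m → ZMod p) → ℤ) c) = _
      rw [Pi.single_eq_same, zpow_one]
    · intro b _ hb
      show L.τ (Sum.inr b) ^ ((Pi.single c 1 : (Fin m → ZMod p) → ℤ) b) = _
      rw [Pi.single_eq_of_ne hb, zpow_zero]
    · intro h; exact absurd (Finset.mem_univ _) h
  have h2 : ∏ i, L.τ (Sum.inl i) ^ (Ec p I m M c (Sum.inl i)) = (∏ i, L.t i ^ Q p M)⁻¹ := by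
    rw [← Finset.prod_inv_distrib]
    refine Finset.prod_congr rfl fun i _ => ?_
    show L.t i ^ (-(Q p M : ℤ)) = _
    rw [zpow_neg, zpow_natCast]
  rw [h1, h2, L.τ_inr, mul_comm, mul_assoc, mul_inv_cancel₀, mul_one]
  exact Finset.prod_ne_zero_iff.mpr fun i _ => pow_ne_zero _ (L.t_ne_zero i)

/-- The kernel. -/
def C0 (D : I → Fin m → ZMod p) : Submodule (ZMod p) (Fin m → ZMod p) where
  carrier := {c | ∀ i, c ⬝ᵥ D i = 0}
  add_mem' := by
    intro a b ha hb i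
    rw [add_dotProduct, ha i, hb i, add_zero]
  zero_mem' := fun i => zero_dotProduct _
  smul_mem' := by
    intro a c hc i
    rw [smul_dotProduct, hc i, smul_zero]

end LD

/-- The echelon data. -/
structure ED {p : ℕ} [Fact p.Prime] {K : Type} [Field K] [Algebra (ZMod p) K]
    {V : ValuationSubring K} {I : Type} [Fintype I] [DecidableEq I] {m : ℕ}
    {D : I → Fin m → ZMod p} {M : ℕ} (L : LD p V I m D M) where
  B : Finset (Fin m → ZMod p)
  J : Finset I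
  μ : I → Fin m → ZMod p
  a : (Fin m → ZMod p) → (Fin m → ZMod p) → ZMod p
  ha : ∀ c b, a c b ≠ 0 → b ∈ B ∧ V.valuation (L.ω b) ≤ V.valuation (L.ω c)
  haz : ∀ c, L.z c = ∑ b ∈ B, algebraMap (ZMod p) K (a c b) * L.z b
  hμ : ∀ j ∈ J, ∀ j' ∈ J, μ j ⬝ᵥ D j' = if j = j' then 1 else 0
  hμ' : ∀ j ∈ J, ∀ i, μ j ⬝ᵥ D i ≠ 0 → V.valuation (L.t i ^ L.e i) ≤ V.valuation (L.t j ^ L.e j)
  card : B.card ≤ J.card

theorem nonempty_ed {p : ℕ} [Fact p.Prime] {K : Type} [Field K] [Algebra (ZMod p) K]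
    {V : ValuationSubring K} {I : Type} [Fintype I] [DecidableEq I] {m : ℕ}
    {D : I → Fin m → ZMod p} {M : ℕ} (L : LD p V I m D M) : Nonempty (ED L) := by
  classical
  obtain ⟨B, J, μ, d₀, d₁, β, h1, h2, h3, h4, h5, h6, h7, h8, h9, h10⟩ := exists_echelon D
    Finset.univ (fun i => V.valuation (L.t i ^ L.e i)) (LD.C0 D)
    (fun c => V.valuation (L.ω c)) (fun c hc => fun i => hc i (Finset.mem_univ _))
  choose a ha using h2
  refine ⟨⟨B, J, μ, a, fun c b hb => (ha c).1 b hb, fun c => ?_, h4,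
    fun j hj i hne => h5 j hj i (Finset.mem_univ _) hne, by omega⟩⟩
  have h11 := L.z_Z0 (c := c - ∑ b ∈ B, a c b • b) (ha c).2
  rw [map_sub, map_sum, sub_eq_zero] at h11
  rw [h11]
  exact Finset.sum_congr rfl fun b _ => by rw [map_smul, Algebra.smul_def]

end Pool.Agent.H96.W0
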