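import Pool.Agent.H96.W0.LocA

/-!
# The relations of a chart: purely inseparable case
-/

set_option autoImplicit false
set_option linter.unusedSectionVars false

namespace Pool.Agent.H96.W0

open MvPolynomial IsLocalRing Pool.Agent.H96.Reg Pool.Agent.H96.VL Pool.Agent.H96.W

/-- The box of exponents. -/
noncomputable def BX (ι : Type) [Fintype ι] [DecidableEq ι] (B : ℕ) : Finset (ι → ℤ) :=
  Fintype.piFinset fun _ => Finset.Icc (-(B : ℤ)) B

theorem mem_BX {ι : Type} [Fintype ι] [DecidableEq ι] {B : ℕ} {u : ι → ℤ} :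
    u ∈ BX ι B ↔ ∀ α, |u α| ≤ B := by
  rw [BX, Fintype.mem_piFinset]
  exact forall_congr' fun α => by rw [Finset.mem_Icc, abs_le]

/-- The size of the box. -/
def bsz (p M : ℕ) : ℕ := p * (p * M) + p + M + 1

variable {p : ℕ} [Fact p.Prime] {K : Type} [Field K] [Algebra (ZMod p) K]
  {V : ValuationSubring K} {I : Type} [Fintype I] [DecidableEq I] {m : ℕ}
  {D : I → Fin m → ZMod p} {M : ℕ} {L : LD p V I m D M}

section Mem

theorem zero_mem_BX : (0 : I ⊕ (Fin m → ZMod p) → ℤ) ∈ BX (I ⊕ (Fin m → ZMod p)) (bsz p M) :=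
  mem_BX.mpr fun α => by rw [Pi.zero_apply, abs_zero]; exact Int.natCast_nonneg _

theorem smul_single_mem_BX (α : I ⊕ (Fin m → ZMod p)) {k : ℤ} (hk : |k| ≤ bsz p M) :
    k • (Pi.single α 1 : I ⊕ (Fin m → ZMod p) → ℤ) ∈ BX (I ⊕ (Fin m → ZMod p)) (bsz p M) := by
  refine mem_BX.mpr fun β => ?_
  rw [Pi.smul_apply, smul_eq_mul]
  by_cases h : β = α
  · rw [h, Pi.single_eq_same, mul_one]; exact hk
  · rw [Pi.single_eq_of_ne h, mul_zero, abs_zero]; exact Int.natCast_nonneg _

theorem smul_Ec_mem_BX (c : Fin m → ZMod p) {k : ℕ} (hk : k ≤ p) :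
    (k : ℤ) • LD.Ec p I m M c ∈ BX (I ⊕ (Fin m → ZMod p)) (bsz p M) := by
  refine mem_BX.mpr fun β => ?_
  rw [Pi.smul_apply, smul_eq_mul, abs_mul]
  rcases β with i | b
  · show |(k : ℤ)| * |-(LD.Q p M : ℤ)| ≤ _
    rw [abs_neg, Nat.abs_cast, Nat.abs_cast]
    have h1 : k * LD.Q p M ≤ bsz p M := by
      rw [LD.Q, bsz]
      have := Nat.mul_le_mul_right (p * M) hk
      omega
    exact_mod_cast h1
  · show |(k : ℤ)| * |(Pi.single c 1 : (Fin m → ZMod p) → ℤ) b| ≤ _
    have h1 : |(Pi.single c 1 : (Fin m → ZMod p) → ℤ) b| ≤ 1 := by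
      by_cases h : b = c
      · rw [h, Pi.single_eq_same, abs_one]
      · rw [Pi.single_eq_of_ne h, abs_zero]; exact zero_le_one
    calc |(k : ℤ)| * |(Pi.single c 1 : (Fin m → ZMod p) → ℤ) b| ≤ |(k : ℤ)| * 1 :=
          mul_le_mul_of_nonneg_left h1 (abs_nonneg _)
      _ = (k : ℤ) := by rw [mul_one, Nat.abs_cast]
      _ ≤ _ := by
        have : k ≤ bsz p M := by rw [bsz]; omega
        exact_mod_cast this

end Mem

/-- The other variables. -/
abbrev LD.υ (L : LD p V I m D M) : Type := (Σ i : I, Fin (L.n i + 1)) ⊕ (Fin m → ZMod p)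

/-- Their values. -/
noncomputable def LD.Y (L : LD p V I m D M) : L.υ → K :=
  Sum.elim (fun s => L.y s.1 s.2) fun c => L.z c / L.ω c

theorem LD.vY (L : LD p V I m D M) (l : L.υ) : V.valuation (L.Y l) ≤ 1 := by
  rcases l with ⟨i, b⟩ | c
  · exact L.vy i b
  · show V.valuation (L.z c / L.ω c) ≤ 1
    have h : 0 < V.valuation (L.ω c) := by rw [Valuation.pos_iff]; exact L.ω_ne_zero c
    rw [map_div₀]
    exact (div_le_one₀ h).mpr (L.vz_le c)

theorem LD.Y_mul (L : LD p V I m D M) (c : Fin m → ZMod p) :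
    L.Y (Sum.inr c) * L.ω c = L.z c := div_mul_cancel₀ _ (L.ω_ne_zero c)

/-- The other exponent of `ω c`. -/
noncomputable def LD.θ (L : LD p V I m D M) (c : Fin m → ZMod p) : I ⊕ (Fin m → ZMod p) → ℤ :=
  open Classical in if LD.Z0 D c then 0 else
    (L.piv c).elim 0 fun j => (LD.Q p M : ℤ) • Pi.single (Sum.inl j) 1

theorem LD.mon_θ (L : LD p V I m D M) {c : Fin m → ZMod p} (hz : ¬ L.isZ c) :
    mon L.τ (L.θ c) = L.ω c := by
  by_cases h0 : LD.Z0 D c
  · rw [LD.θ, if_pos h0, mon_zero, L.ω_Z0 h0]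
  · obtain ⟨j, hj, -⟩ := L.piv_spec h0 hz
    rw [LD.θ, if_neg h0, hj, L.ω_piv h0 hz hj]
    show mon L.τ ((LD.Q p M : ℤ) • Pi.single (Sum.inl j) 1) = _
    rw [mon_smul, mon_single, zpow_natCast]
    rfl

theorem LD.θ_mem (L : LD p V I m D M) (c : Fin m → ZMod p) :
    L.θ c ∈ BX (I ⊕ (Fin m → ZMod p)) (bsz p M) := by
  by_cases h0 : LD.Z0 D c
  · rw [LD.θ, if_pos h0]; exact zero_mem_BX
  · rw [LD.θ, if_neg h0]
    cases hj : L.piv c with
    | none => exact zero_mem_BX
    | some j =>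
      refine smul_single_mem_BX _ ?_
      rw [Nat.abs_cast]
      have : LD.Q p M ≤ bsz p M := by
        rw [LD.Q, bsz]
        have := Nat.le_mul_of_pos_left (p * M) (Fact.out : p.Prime).pos
        omega
      exact_mod_cast this

theorem LD.θ_cast (L : LD p V I m D M) (c : Fin m → ZMod p) {k : Type} [Ring k] (hp : (p : k) = 0)
    (α : I ⊕ (Fin m → ZMod p)) : ((L.θ c α : ℤ) : k) = 0 := by
  by_cases h0 : LD.Z0 D c
  · rw [LD.θ, if_pos h0, Pi.zero_apply, Int.cast_zero]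
  · rw [LD.θ, if_neg h0]
    cases hj : L.piv c with
    | none =>
      show (((0 : I ⊕ (Fin m → ZMod p) → ℤ) α : ℤ) : k) = 0
      rw [Pi.zero_apply, Int.cast_zero]
    | some j =>
      show ((((LD.Q p M : ℤ) • (Pi.single (Sum.inl j) 1 : I ⊕ (Fin m → ZMod p) → ℤ)) α : ℤ) : k) = 0
      rw [Pi.smul_apply, smul_eq_mul, Int.cast_mul, Int.cast_natCast, LD.Q, Nat.cast_mul, hp,
        zero_mul, zero_mul]

section Defs

variable (S : ED L)

/-- The relations of the coordinates `τ_i`. -/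
noncomputable def cI (L : LD p V I m D M) (i : I) : Tm p I m → MvPolynomial L.υ (ZMod p) :=
  open Classical in Sum.elim (fun _ => 0) fun b => cond b 1
    (if L.t i = 1 then -1 else -X (Sum.inl ⟨i, L.l i⟩))

def xI (i : I) : Tm p I m → (I ⊕ (Fin m → ZMod p)) → ℤ :=
  Sum.elim (fun _ => 0) fun b => cond b (Pi.single (Sum.inl i) 1) 0

/-- The relations of the curves. -/
noncomputable def cG (L : LD p V I m D M) (i : I) (k : Fin (L.n i)) :
    Tm p I m → MvPolynomial L.υ (ZMod p) :=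
  Sum.elim (fun _ => 0) fun b => cond b 0 (rename (fun b => Sum.inl ⟨i, b⟩) (L.G i k.succ))

/-- The relations of `ω_c`. -/
noncomputable def cP (L : LD p V I m D M) (c : Fin m → ZMod p) :
    Tm p I m → MvPolynomial L.υ (ZMod p) :=
  open Classical in if L.isZ c then Sum.elim (fun _ => 0) fun b => cond b (X (Sum.inr c)) (-1) else
    Sum.elim (fun _ => 0) fun b => cond b 1 (-1)

noncomputable def xP (L : LD p V I m D M) (c : Fin m → ZMod p) :
    Tm p I m → (I ⊕ (Fin m → ZMod p)) → ℤ :=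
  open Classical in if L.isZ c then fun _ => 0 else
    Sum.elim (fun _ => 0) fun b => cond b (LD.Ec p I m M c) (L.θ c)

/-- The linear relations. -/
noncomputable def ED.cQ (S : ED L) (c : Fin m → ZMod p) : Tm p I m → MvPolynomial L.υ (ZMod p) :=
  open Classical in Sum.elim (Sum.elim (fun _ => 0) fun b =>
    if b ∈ S.B then -(MvPolynomial.C (S.a c b) * X (Sum.inr b)) else 0) fun b =>
      cond b (X (Sum.inr c)) 0

def ED.xQ (_S : ED L) (c : Fin m → ZMod p) : Tm p I m → (I ⊕ (Fin m → ZMod p)) → ℤ :=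
  Sum.elim (Sum.elim (fun _ => 0) fun b => LD.Ec p I m M b) fun b => cond b (LD.Ec p I m M c) 0

/-- The inseparable relations. -/
noncomputable def ED.cJ (S : ED L) (μ : Fin m → ZMod p) : Tm p I m → MvPolynomial L.υ (ZMod p) :=
  open Classical in Sum.elim (Sum.elim (fun i => -(MvPolynomial.C (μ ⬝ᵥ D i) * X (Sum.inl ⟨i, L.u i⟩)))
    fun b => if b ∈ S.B then MvPolynomial.C (S.a μ b) * X (Sum.inr b) ^ p else 0) fun _ => 0

def ED.xJ (_S : ED L) : Tm p I m → (I ⊕ (Fin m → ZMod p)) → ℤ :=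
  Sum.elim (Sum.elim (fun i => L.e i • Pi.single (Sum.inl i) 1)
    fun b => (p : ℤ) • LD.Ec p I m M b) fun _ => 0

end Defs

section Memb

theorem xI_mem (i : I) (s : Tm p I m) : xI i s ∈ BX (I ⊕ (Fin m → ZMod p)) (bsz p M) := by
  rcases s with s | _ | _
  · exact zero_mem_BX
  · exact zero_mem_BX
  · have := smul_single_mem_BX (p := p) (M := M) (m := m) (Sum.inl i) (k := 1) (by
      rw [abs_one]
      have h1 : 1 ≤ bsz p M := by rw [bsz]; omega
      exact_mod_cast h1)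
    rw [one_smul] at this
    exact this

theorem xP_mem (c : Fin m → ZMod p) (s : Tm p I m) :
    xP L c s ∈ BX (I ⊕ (Fin m → ZMod p)) (bsz p M) := by
  classical
  rw [xP]
  split_ifs with hc
  · exact zero_mem_BX
  · rcases s with s | _ | _
    · exact zero_mem_BX
    · exact L.θ_mem c
    · have := smul_Ec_mem_BX (I := I) (M := M) c (k := 1) (Fact.out : p.Prime).one_le
      rw [Nat.cast_one, one_smul] at this
      exact this

theorem xQ_mem {S : ED L} (c : Fin m → ZMod p) (s : Tm p I m) :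
    S.xQ c s ∈ BX (I ⊕ (Fin m → ZMod p)) (bsz p M) := by
  have h : ∀ c, LD.Ec p I m M c ∈ BX (I ⊕ (Fin m → ZMod p)) (bsz p M) := by
    intro c
    have := smul_Ec_mem_BX (I := I) (M := M) c (k := 1) (Fact.out : p.Prime).one_le
    rw [Nat.cast_one, one_smul] at this
    exact this
  rcases s with (s | s) | _ | _
  · exact zero_mem_BX
  · exact h s
  · exact zero_mem_BX
  · exact h c

theorem xJ_mem {S : ED L} (s : Tm p I m) : S.xJ s ∈ BX (I ⊕ (Fin m → ZMod p)) (bsz p M) := by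
  rcases s with (i | b) | s
  · refine smul_single_mem_BX _ ((L.eM i).trans ?_)
    have : M ≤ bsz p M := by rw [bsz]; omega
    exact_mod_cast this
  · exact smul_Ec_mem_BX _ le_rfl
  · exact zero_mem_BX

end Memb

section Rel

variable {S : ED L}

theorem rel_I (i : I) : ∑ s, aeval L.Y (cI L i s) * mon L.τ (xI i s) = 0 := by
  classical
  rw [sum_Tm]
  simp only [cI, xI, Sum.elim_inl, Sum.elim_inr, map_zero, zero_mul,
    Finset.sum_const_zero, zero_add, cond_true, cond_false, map_one, one_mul, mon_zero, mul_one]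
  rw [mon_single, L.τ_inl]
  split_ifs with h
  · rw [h, map_neg, map_one]; ring
  · rw [map_neg, aeval_X]
    show L.t i + -(L.y i (L.l i)) = 0
    rw [(L.e_ne h).2.2.2]; ring

theorem rel_G (i : I) (k : Fin (L.n i)) :
    ∑ s, aeval L.Y (cG L i k s) * mon L.τ ((0 : Tm p I m → (I ⊕ (Fin m → ZMod p)) → ℤ) s) = 0 := by
  rw [sum_Tm]
  simp only [cG, Sum.elim_inl, Sum.elim_inr, map_zero, zero_mul,
    Finset.sum_const_zero, zero_add, cond_true, cond_false]
  rw [aeval_rename]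
  have : aeval (L.Y ∘ fun b => Sum.inl ⟨i, b⟩) (L.G i k.succ) = 0 := L.rel i k
  rw [this, zero_mul]

theorem rel_P (c : Fin m → ZMod p) : ∑ s, aeval L.Y (cP L c s) * mon L.τ (xP L c s) = 0 := by
  classical
  rw [sum_Tm]
  by_cases hc : L.isZ c
  · simp only [cP, xP, if_pos hc, Sum.elim_inl, Sum.elim_inr, map_zero, zero_mul,
      Finset.sum_const_zero, zero_add, cond_true, cond_false]
    rw [mon_zero, aeval_X, map_neg, map_one, mul_one, mul_one]
    show L.z c / L.ω c + -1 = 0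
    rw [← L.ω_isZ hc, div_self (L.ω_ne_zero c)]; ring
  · simp only [cP, xP, if_neg hc, Sum.elim_inl, Sum.elim_inr, map_zero, zero_mul,
      Finset.sum_const_zero, zero_add, cond_true, cond_false, map_one, one_mul, L.mon_Ec, L.mon_θ hc]
    rw [map_neg, map_one]; ring

theorem rel_Q (c : Fin m → ZMod p) : ∑ s, aeval L.Y (S.cQ c s) * mon L.τ (S.xQ c s) = 0 := by
  classical
  rw [sum_Tm]
  simp only [ED.cQ, ED.xQ, Sum.elim_inl, Sum.elim_inr, map_zero, zero_mul,
    Finset.sum_const_zero, zero_add, cond_true, cond_false, L.mon_Ec, aeval_X, L.Y_mul, add_zero]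
  have h1 : ∑ b, aeval L.Y (if b ∈ S.B then -(MvPolynomial.C (S.a c b) * X (Sum.inr b)) else 0) *
      L.ω b = -L.z c := by
    rw [S.haz c, ← Finset.sum_neg_distrib, ← Finset.sum_subset (Finset.subset_univ S.B)]
    · refine Finset.sum_congr rfl fun b hb => ?_
      rw [if_pos hb, map_neg, map_mul, aeval_C, aeval_X, ← L.Y_mul b]
      ring
    · intro b _ hb
      rw [if_neg hb, map_zero, zero_mul]
  rw [h1]; ring

theorem rel_J (μ : Fin m → ZMod p) : ∑ s, aeval L.Y (S.cJ μ s) * mon L.τ (S.xJ s) = 0 := by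
  classical
  have hc : CharP K p := charP_of_injective_algebraMap (algebraMap (ZMod p) K).injective p
  rw [sum_Tm]
  simp only [ED.cJ, ED.xJ, Sum.elim_inl, Sum.elim_inr, map_zero, zero_mul, add_zero]
  have h1 : ∑ i, aeval L.Y (-(MvPolynomial.C (μ ⬝ᵥ D i) * X (Sum.inl ⟨i, L.u i⟩)) :
      MvPolynomial L.υ (ZMod p)) * mon L.τ (L.e i • Pi.single (Sum.inl i) 1) = -L.z μ ^ p := by
    rw [L.AS, ← Finset.sum_neg_distrib]
    refine Finset.sum_congr rfl fun i _ => ?_
    rw [mon_smul, mon_single, L.τ_inl, map_neg, map_mul, aeval_C, aeval_X]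
    show -(algebraMap (ZMod p) K (μ ⬝ᵥ D i) * L.y i (L.u i)) * L.t i ^ L.e i = _
    ring
  have h2 : ∑ b, aeval L.Y (if b ∈ S.B then MvPolynomial.C (S.a μ b) * X (Sum.inr b) ^ p else 0 :
      MvPolynomial L.υ (ZMod p)) * mon L.τ ((p : ℤ) • LD.Ec p I m M b) = L.z μ ^ p := by
    rw [S.haz μ, sum_pow_char, ← Finset.sum_subset (Finset.subset_univ S.B)]
    · refine Finset.sum_congr rfl fun b hb => ?_
      rw [if_pos hb, map_mul, map_pow, aeval_C, aeval_X, mon_smul, L.mon_Ec, zpow_natCast,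
        mul_assoc, ← mul_pow, L.Y_mul b, mul_pow, ← map_pow (algebraMap (ZMod p) K), ZMod.pow_card]
    · intro b _ hb
      rw [if_neg hb, map_zero, zero_mul]
  rw [h1, h2]; ring

end Rel

end Pool.Agent.H96.W0
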