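import Pool.Agent.H96.W0.LocB
import Pool.Agent.H96.W.LocC

/-!
# The differentials of the relations: purely inseparable case
-/

set_option autoImplicit false
set_option linter.unusedSectionVars false

namespace Pool.Agent.H96.W0

open MvPolynomial IsLocalRing Pool.Agent.H96.Reg Pool.Agent.H96.VL Pool.Agent.H96.W

variable {p : ℕ} [Fact p.Prime] {K : Type} [Field K] [Algebra (ZMod p) K]
  {V : ValuationSubring K} {I : Type} [Fintype I] [DecidableEq I] {m : ℕ}
  {D : I → Fin m → ZMod p} {M : ℕ} {L : LD p V I m D M}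

/-- The chart. -/
structure Cx (L : LD p V I m D M) (C : Cone (I ⊕ (Fin m → ZMod p))) : Prop where
  hC : IsCone C
  hb : ∀ j, V.valuation (mon L.τ (C.b j)) ≤ 1
  hS : ∀ u ∈ BX (I ⊕ (Fin m → ZMod p)) (bsz p M), ∀ u' ∈ BX (I ⊕ (Fin m → ZMod p)) (bsz p M),
    Sgn C (u - u')

variable [Algebra (ZMod p) (ResidueField V)] {C : Cone (I ⊕ (Fin m → ZMod p))}
  {S : ED L}

theorem intCast_ne (V : ValuationSubring K) [Algebra (ZMod p) (ResidueField V)] {n : ℤ}
    (hn : ¬ (p : ℤ) ∣ n) : (n : ResidueField V) ≠ 0 := by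
  have hc : CharP (ResidueField V) p :=
    charP_of_injective_algebraMap (algebraMap (ZMod p) (ResidueField V)).injective p
  rwa [Ne, CharP.intCast_eq_zero_iff (ResidueField V) p]

theorem cast_Q (V : ValuationSubring K) [Algebra (ZMod p) (ResidueField V)] :
    ((LD.Q p M : ℕ) : ResidueField V) = 0 := by
  rw [LD.Q, Nat.cast_mul, natCast_p V, zero_mul]

section RI

theorem LL_I_one (h : Cx L C) {i : I} (ht : L.t i = 1) :
    LL V L.τ L.Y C (cI L i) (xI i) (Sum.inl i) ≠ 0 := by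
  classical
  refine LL_ne_zero (Sum.inr true) ?_ ?_ ?_ ?_
  · rintro (s | _ | _) hs
    · exact Or.inl rfl
    · right; right
      show (((0 : ℤ)) : ResidueField V) = 0
      rw [Int.cast_zero]
    · exact absurd rfl hs
  · show aeval _ (1 : MvPolynomial L.υ (ZMod p)) ≠ 0
    rw [map_one]; exact one_ne_zero
  · refine ee_ne_zero L.τ_ne_zero h.hC h.hb (fun s _ s' _ => h.hS _ (xI_mem i s) _ (xI_mem i s'))
      (show cI L i (Sum.inr true) ≠ 0 from one_ne_zero) ?_
    rintro (s | _ | _) hs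
    · exact absurd rfl hs
    · show V.valuation (mon L.τ 0) ≤ V.valuation (mon L.τ (Pi.single (Sum.inl i) 1))
      rw [mon_zero, mon_single, L.τ_inl, ht]
    · exact le_rfl
  · show (((Pi.single (Sum.inl i) 1 : (I ⊕ (Fin m → ZMod p)) → ℤ) (Sum.inl i) : ℤ) :
      ResidueField V) ≠ 0
    rw [Pi.single_eq_same, Int.cast_one]
    exact one_ne_zero

theorem LL_I_of_ne {i : I} {α : I ⊕ (Fin m → ZMod p)} (hα : α ≠ Sum.inl i) :
    LL V L.τ L.Y C (cI L i) (xI i) α = 0 := by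
  apply LL_eq_zero
  rintro (s | _ | _)
  · exact Or.inl rfl
  · right; right
    show (((0 : ℤ)) : ResidueField V) = 0
    rw [Int.cast_zero]
  · right; right
    show (((Pi.single (Sum.inl i) 1 : (I ⊕ (Fin m → ZMod p)) → ℤ) α : ℤ) : ResidueField V) = 0
    rw [Pi.single_eq_of_ne hα, Int.cast_zero]

theorem cI_false_ne (i : I) : cI L i (Sum.inr false) ≠ 0 := by
  classical
  show (if L.t i = 1 then -1 else -X (Sum.inl ⟨i, L.l i⟩) : MvPolynomial L.υ (ZMod p)) ≠ 0
  split_ifs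
  · exact neg_ne_zero.mpr one_ne_zero
  · exact neg_ne_zero.mpr (X_ne_zero _)

theorem LL_I_unif (h : Cx L C) {i : I} (ht : L.t i ≠ 1) (α : I ⊕ (Fin m → ZMod p)) :
    LL V L.τ L.Y C (cI L i) (xI i) α = 0 := by
  apply LL_eq_zero
  rintro (s | _ | _)
  · exact Or.inl rfl
  · right; right
    show (((0 : ℤ)) : ResidueField V) = 0
    rw [Int.cast_zero]
  · right; left
    refine ee_eq_zero L.τ_ne_zero h.hC h.hb (fun s _ s' _ => h.hS _ (xI_mem i s) _ (xI_mem i s'))
      (show cI L i (Sum.inr true) ≠ 0 from one_ne_zero) (cI_false_ne i) ?_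
    show V.valuation (mon L.τ (Pi.single (Sum.inl i) 1)) < V.valuation (mon L.τ 0)
    rw [mon_zero, mon_single, L.τ_inl, map_one]
    exact (L.e_ne ht).2.2.1

theorem TT_I_one {i : I} (ht : L.t i = 1) (l : L.υ) :
    TT V L.τ L.Y C (cI L i) (xI i) l = 0 := by
  classical
  apply TT_eq_zero
  rintro (s | _ | _)
  · exact map_zero _
  · show pderiv l (if L.t i = 1 then -1 else -X (Sum.inl ⟨i, L.l i⟩) : MvPolynomial L.υ (ZMod p)) = 0
    rw [if_pos ht, map_neg, ← MvPolynomial.C_1, pderiv_C, neg_zero]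
  · show pderiv l (1 : MvPolynomial L.υ (ZMod p)) = 0
    rw [← MvPolynomial.C_1, pderiv_C]

theorem TT_I_unif (h : Cx L C) {i : I} (ht : L.t i ≠ 1) : ∃ w : ResidueField V, w ≠ 0 ∧
    ∀ l, TT V L.τ L.Y C (cI L i) (xI i) l = if l = Sum.inl ⟨i, L.l i⟩ then w else 0 := by
  classical
  refine ⟨-ee V L.τ C (mrel C (cI L i) (xI i)) (Sum.inr false), neg_ne_zero.mpr ?_, fun l => ?_⟩
  · refine ee_ne_zero L.τ_ne_zero h.hC h.hb (fun s _ s' _ => h.hS _ (xI_mem i s) _ (xI_mem i s'))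
      (cI_false_ne i) ?_
    rintro (s | _ | _) hs
    · exact absurd rfl hs
    · exact le_rfl
    · show V.valuation (mon L.τ (Pi.single (Sum.inl i) 1)) ≤ V.valuation (mon L.τ 0)
      rw [mon_zero, mon_single, L.τ_inl, map_one]
      exact L.vt i
  · rw [TT_eq_single (Sum.inr false)]
    · have h1 : cI L i (Sum.inr false) = -X (Sum.inl ⟨i, L.l i⟩) := if_neg ht
      rw [h1, map_neg, pderiv_X, Pi.single_apply]
      by_cases hl : l = Sum.inl ⟨i, L.l i⟩
      · rw [if_pos hl.symm, if_pos hl, map_neg, map_one, neg_one_mul]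
      · rw [if_neg (Ne.symm hl), if_neg hl, neg_zero, map_zero, zero_mul]
    · rintro (s | _ | _) hs
      · exact map_zero _
      · exact absurd rfl hs
      · show pderiv l (1 : MvPolynomial L.υ (ZMod p)) = 0
        rw [← MvPolynomial.C_1, pderiv_C]

end RI

section RG

theorem LL_G (i : I) (k : Fin (L.n i)) (α : I ⊕ (Fin m → ZMod p)) :
    LL V L.τ L.Y C (cG L i k) 0 α = 0 := by
  apply LL_eq_zero
  intro s
  right; right
  show (((0 : ℤ)) : ResidueField V) = 0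
  rw [Int.cast_zero]

theorem TT_G (i : I) (k : Fin (L.n i)) (l : L.υ) :
    TT V L.τ L.Y C (cG L i k) 0 l = aeval (fun l => resv V (L.Y l))
      (pderiv l (rename (fun b => Sum.inl ⟨i, b⟩) (L.G i k.succ) : MvPolynomial L.υ (ZMod p))) := by
  classical
  rw [TT_eq_single (Sum.inr false)]
  · have h1 : cG L i k (Sum.inr false) = rename (fun b => Sum.inl ⟨i, b⟩) (L.G i k.succ) := rfl
    by_cases h2 : cG L i k (Sum.inr false) = 0
    · rw [← h1, h2, map_zero, map_zero, zero_mul]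
    · have he : ee V L.τ C (mrel C (cG L i k) 0) (Sum.inr false) = 1 :=
        ee_eq_one (fun s _ => rfl) h2
      rw [he, mul_one, h1]
  · rintro (s | _ | _) hs
    · exact map_zero _
    · exact absurd rfl hs
    · exact map_zero _

theorem TT_G_same (i : I) (k : Fin (L.n i)) (b : Fin (L.n i + 1)) :
    TT V L.τ L.Y C (cG L i k) 0 (Sum.inl ⟨i, b⟩ : L.υ) =
      aeval (fun b => resv V (L.y i b)) (pderiv b (L.G i k.succ)) := by
  have hinj : Function.Injective (fun b : Fin (L.n i + 1) => (Sum.inl ⟨i, b⟩ : L.υ)) := by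
    intro b b' hbb
    simpa using hbb
  have h1 := pderiv_rename hinj b (L.G i k.succ)
  rw [TT_G]
  have h2 : pderiv (Sum.inl ⟨i, b⟩ : L.υ) (rename (fun b => Sum.inl ⟨i, b⟩) (L.G i k.succ)) =
      rename (fun b => Sum.inl ⟨i, b⟩) (pderiv b (L.G i k.succ)) := h1
  rw [h2, aeval_rename]
  rfl

theorem TT_G_of_notMem (i : I) (k : Fin (L.n i)) (l : L.υ) (hl : ∀ b, l ≠ Sum.inl ⟨i, b⟩) :
    TT V L.τ L.Y C (cG L i k) 0 l = 0 := by
  rw [TT_G, pderiv_eq_zero_of_notMem_vars, map_zero]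
  intro h
  obtain ⟨b, -, hb⟩ := mem_vars_rename _ _ h
  exact hl b hb.symm

end RG

section RP

theorem cP_isZ {c : Fin m → ZMod p} (hc : L.isZ c) :
    cP L c = Sum.elim (fun _ => 0) fun b => cond b (X (Sum.inr c)) (-1) := if_pos hc

theorem cP_not {c : Fin m → ZMod p} (hc : ¬ L.isZ c) :
    cP L c = Sum.elim (fun _ => 0) fun b => cond b 1 (-1) := if_neg hc

theorem xP_isZ {c : Fin m → ZMod p} (hc : L.isZ c) : xP L c = fun _ => 0 := if_pos hc

theorem xP_not {c : Fin m → ZMod p} (hc : ¬ L.isZ c) : xP L c =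
    Sum.elim (fun _ => 0) fun b => cond b (LD.Ec p I m M c) (L.θ c) := if_neg hc

theorem LL_P_isZ {c : Fin m → ZMod p} (hc : L.isZ c) (α : I ⊕ (Fin m → ZMod p)) :
    LL V L.τ L.Y C (cP L c) (xP L c) α = 0 := by
  apply LL_eq_zero
  intro s
  right; right
  rw [xP_isZ hc]
  show (((0 : ℤ)) : ResidueField V) = 0
  rw [Int.cast_zero]

theorem LL_P_not (h : Cx L C) {c : Fin m → ZMod p} (hc : ¬ L.isZ c) :
    LL V L.τ L.Y C (cP L c) (xP L c) (Sum.inr c) ≠ 0 := by
  classical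
  refine LL_ne_zero (Sum.inr true) ?_ ?_ ?_ ?_
  · rintro (s | _ | _) hs
    · left; rw [cP_not hc]; rfl
    · right; right
      rw [xP_not hc]
      exact L.θ_cast c (natCast_p V) _
    · exact absurd rfl hs
  · rw [cP_not hc]
    show aeval _ (1 : MvPolynomial L.υ (ZMod p)) ≠ 0
    rw [map_one]; exact one_ne_zero
  · refine ee_ne_zero L.τ_ne_zero h.hC h.hb (fun s _ s' _ => h.hS _ (xP_mem c s) _ (xP_mem c s'))
      (by rw [cP_not hc]; exact one_ne_zero) ?_
    intro s hs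
    rw [cP_not hc] at hs
    rw [xP_not hc]
    rcases s with s | _ | _
    · exact absurd rfl hs
    · show V.valuation (mon L.τ (L.θ c)) ≤ V.valuation (mon L.τ (LD.Ec p I m M c))
      rw [L.mon_θ hc, L.mon_Ec]
    · exact le_rfl
  · rw [xP_not hc]
    show (((Pi.single c 1 : (Fin m → ZMod p) → ℤ) c : ℤ) : ResidueField V) ≠ 0
    rw [Pi.single_eq_same, Int.cast_one]
    exact one_ne_zero

theorem LL_P_of_ne {c c' : Fin m → ZMod p} (hne : c' ≠ c) :
    LL V L.τ L.Y C (cP L c) (xP L c) (Sum.inr c') = 0 := by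
  by_cases hc : L.isZ c
  · exact LL_P_isZ hc _
  · apply LL_eq_zero
    rw [cP_not hc, xP_not hc]
    rintro (s | _ | _)
    · exact Or.inl rfl
    · right; right
      exact L.θ_cast c (natCast_p V) _
    · right; right
      show (((Pi.single c 1 : (Fin m → ZMod p) → ℤ) c' : ℤ) : ResidueField V) = 0
      rw [Pi.single_eq_of_ne hne, Int.cast_zero]

theorem TT_P_not {c : Fin m → ZMod p} (hc : ¬ L.isZ c) (l : L.υ) :
    TT V L.τ L.Y C (cP L c) (xP L c) l = 0 := by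
  apply TT_eq_zero
  rw [cP_not hc]
  rintro (s | _ | _)
  · exact map_zero _
  · show pderiv l (-1 : MvPolynomial L.υ (ZMod p)) = 0
    rw [map_neg, ← MvPolynomial.C_1, pderiv_C, neg_zero]
  · show pderiv l (1 : MvPolynomial L.υ (ZMod p)) = 0
    rw [← MvPolynomial.C_1, pderiv_C]

theorem TT_P_isZ {c : Fin m → ZMod p} (hc : L.isZ c) (l : L.υ) :
    TT V L.τ L.Y C (cP L c) (xP L c) l = if l = Sum.inr c then 1 else 0 := by
  classical
  rw [TT_eq_single (Sum.inr true)]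
  · have h1 : cP L c (Sum.inr true) = X (Sum.inr c) := by rw [cP_isZ hc]; rfl
    have he : ee V L.τ C (mrel C (cP L c) (xP L c)) (Sum.inr true) = 1 :=
      ee_eq_one (fun s _ => by rw [xP_isZ hc]) (by rw [h1]; exact X_ne_zero _)
    rw [he, mul_one, h1, pderiv_X, Pi.single_apply]
    by_cases hl : l = Sum.inr c
    · rw [if_pos hl.symm, if_pos hl, map_one]
    · rw [if_neg (Ne.symm hl), if_neg hl, map_zero]
  · rw [cP_isZ hc]
    rintro (s | _ | _) hs
    · exact map_zero _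
    · show pderiv l (-1 : MvPolynomial L.υ (ZMod p)) = 0
      rw [map_neg, ← MvPolynomial.C_1, pderiv_C, neg_zero]
    · exact absurd rfl hs

end RP

section RQ

theorem cQ_inr (c : Fin m → ZMod p) : S.cQ c (Sum.inr true) = X (Sum.inr c) := rfl

theorem cQ_b {c b : Fin m → ZMod p} (h : S.cQ c (Sum.inl (Sum.inr b)) ≠ 0) : b ∈ S.B ∧ S.a c b ≠ 0 := by
  classical
  by_cases hb : b ∈ S.B
  · refine ⟨hb, fun h0 => h ?_⟩
    have : S.cQ c (Sum.inl (Sum.inr b)) = -(MvPolynomial.C (S.a c b) * X (Sum.inr b)) := if_pos hb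
    rw [this, h0, map_zero, zero_mul, neg_zero]
  · exact absurd (if_neg hb) h

theorem ee_Q_ne (h : Cx L C) (c : Fin m → ZMod p) :
    ee V L.τ C (mrel C (S.cQ c) (S.xQ c)) (Sum.inr true) ≠ 0 := by
  refine ee_ne_zero L.τ_ne_zero h.hC h.hb (fun s _ s' _ => h.hS _ (xQ_mem c s) _ (xQ_mem c s'))
    (by rw [cQ_inr]; exact X_ne_zero _) ?_
  rintro ((s | b) | _ | _) hs
  · exact absurd rfl hs
  · obtain ⟨-, h1⟩ := cQ_b hs
    show V.valuation (mon L.τ (LD.Ec p I m M b)) ≤ V.valuation (mon L.τ (LD.Ec p I m M c))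
    rw [L.mon_Ec, L.mon_Ec]
    exact (S.ha c b h1).2
  · exact absurd rfl hs
  · exact le_rfl

theorem LL_Q_self (h : Cx L C) {c : Fin m → ZMod p} (hc : L.isZ c) (hcB : c ∉ S.B) :
    LL V L.τ L.Y C (S.cQ c) (S.xQ c) (Sum.inr c) ≠ 0 := by
  classical
  refine LL_ne_zero (Sum.inr true) ?_ ?_ (ee_Q_ne h c) ?_
  · rintro ((s | b) | _ | _) hs
    · exact Or.inl rfl
    · by_cases hb : b = c
      · left
        by_contra hne
        exact hcB (hb ▸ (cQ_b hne).1)
      · right; right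
        show (((Pi.single b 1 : (Fin m → ZMod p) → ℤ) c : ℤ) : ResidueField V) = 0
        rw [Pi.single_eq_of_ne (Ne.symm hb), Int.cast_zero]
    · exact Or.inl rfl
    · exact absurd rfl hs
  · rw [cQ_inr, aeval_X]
    have h1 : L.Y (Sum.inr c) = 1 := by
      show L.z c / L.ω c = 1
      rw [← L.ω_isZ hc, div_self (L.ω_ne_zero c)]
    rw [h1, resv_one]
    exact one_ne_zero
  · show (((Pi.single c 1 : (Fin m → ZMod p) → ℤ) c : ℤ) : ResidueField V) ≠ 0
    rw [Pi.single_eq_same, Int.cast_one]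
    exact one_ne_zero

theorem LL_Q_of_ne {c c' : Fin m → ZMod p} (hc' : c' ∉ S.B) (hne : c' ≠ c) :
    LL V L.τ L.Y C (S.cQ c) (S.xQ c) (Sum.inr c') = 0 := by
  apply LL_eq_zero
  rintro ((s | b) | _ | _)
  · exact Or.inl rfl
  · by_cases hb : b = c'
    · left
      by_contra hne'
      exact hc' (hb ▸ (cQ_b hne').1)
    · right; right
      show (((Pi.single b 1 : (Fin m → ZMod p) → ℤ) c' : ℤ) : ResidueField V) = 0
      rw [Pi.single_eq_of_ne (Ne.symm hb), Int.cast_zero]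
  · exact Or.inl rfl
  · right; right
    show (((Pi.single c 1 : (Fin m → ZMod p) → ℤ) c' : ℤ) : ResidueField V) = 0
    rw [Pi.single_eq_of_ne hne, Int.cast_zero]

theorem pderiv_cQ_b {c c' : Fin m → ZMod p} (hc' : c' ∉ S.B) (b : Fin m → ZMod p) :
    pderiv (Sum.inr c' : L.υ) (S.cQ c (Sum.inl (Sum.inr b))) = 0 := by
  classical
  by_cases hb : b ∈ S.B
  · have : S.cQ c (Sum.inl (Sum.inr b)) = -(MvPolynomial.C (S.a c b) * X (Sum.inr b)) := if_pos hb
    rw [this, map_neg, pderiv_C_mul, pderiv_X_of_ne, mul_zero, neg_zero]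
    intro h
    have := Sum.inr_injective h
    subst this
    exact hc' hb
  · have : S.cQ c (Sum.inl (Sum.inr b)) = 0 := if_neg hb
    rw [this, map_zero]

theorem TT_Q_self (h : Cx L C) {c : Fin m → ZMod p} (hcB : c ∉ S.B) :
    TT V L.τ L.Y C (S.cQ c) (S.xQ c) (Sum.inr c) ≠ 0 := by
  classical
  rw [TT_eq_single (Sum.inr true)]
  · rw [cQ_inr, pderiv_X_self, map_one, one_mul]
    exact ee_Q_ne h c
  · rintro ((s | b) | _ | _) hs
    · exact map_zero _
    · exact pderiv_cQ_b hcB b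
    · exact map_zero _
    · exact absurd rfl hs

theorem TT_Q_of_ne {c c' : Fin m → ZMod p} (hc' : c' ∉ S.B) (hne : c' ≠ c) :
    TT V L.τ L.Y C (S.cQ c) (S.xQ c) (Sum.inr c') = 0 := by
  apply TT_eq_zero
  rintro ((s | b) | _ | _)
  · exact map_zero _
  · exact pderiv_cQ_b hc' b
  · exact map_zero _
  · rw [cQ_inr, pderiv_X_of_ne]
    intro h
    exact hne (Sum.inr_injective h).symm

end RQ

section RJ

theorem cJ_inl (μ : Fin m → ZMod p) (i : I) : S.cJ μ (Sum.inl (Sum.inl i)) =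
    -(MvPolynomial.C (μ ⬝ᵥ D i) * X (Sum.inl ⟨i, L.u i⟩)) := rfl

theorem cJ_inl_ne {μ : Fin m → ZMod p} {i : I} (h : S.cJ μ (Sum.inl (Sum.inl i)) ≠ 0) :
    μ ⬝ᵥ D i ≠ 0 := by
  intro h0
  apply h
  rw [cJ_inl, h0, map_zero, zero_mul, neg_zero]

theorem cJ_b {μ b : Fin m → ZMod p} (h : S.cJ μ (Sum.inl (Sum.inr b)) ≠ 0) :
    b ∈ S.B ∧ S.a μ b ≠ 0 := by
  classical
  by_cases hb : b ∈ S.B
  · refine ⟨hb, fun h0 => h ?_⟩
    have : S.cJ μ (Sum.inl (Sum.inr b)) = MvPolynomial.C (S.a μ b) * X (Sum.inr b) ^ p := if_pos hb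
    rw [this, h0, map_zero, zero_mul]
  · exact absurd (if_neg hb) h

theorem xJ_b_cast (b : Fin m → ZMod p) (α : I ⊕ (Fin m → ZMod p)) :
    (((S.xJ (Sum.inl (Sum.inr b)) α : ℤ)) : ResidueField V) = 0 := by
  show ((((p : ℤ) • LD.Ec p I m M b) α : ℤ) : ResidueField V) = 0
  rw [Pi.smul_apply, smul_eq_mul, Int.cast_mul, Int.cast_natCast, natCast_p V, zero_mul]

theorem LL_J_inr (μ c : Fin m → ZMod p) :
    LL V L.τ L.Y C (S.cJ μ) S.xJ (Sum.inr c) = 0 := by
  apply LL_eq_zero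
  rintro ((i | b) | s)
  · right; right
    show (((L.e i • (Pi.single (Sum.inl i) 1 : (I ⊕ (Fin m → ZMod p)) → ℤ)) (Sum.inr c) :
      ℤ) : ResidueField V) = 0
    rw [Pi.smul_apply, Pi.single_eq_of_ne Sum.inr_ne_inl, smul_zero, Int.cast_zero]
  · right; right
    exact xJ_b_cast b _
  · exact Or.inl rfl

/-- The dominant term. -/
theorem ee_J_ne (h : Cx L C) {j : I} (hj : j ∈ S.J) :
    ee V L.τ C (mrel C (S.cJ (S.μ j)) S.xJ) (Sum.inl (Sum.inl j)) ≠ 0 := by
  have hμj : S.μ j ⬝ᵥ D j = 1 := by rw [S.hμ j hj j hj, if_pos rfl]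
  have hne : S.cJ (S.μ j) (Sum.inl (Sum.inl j)) ≠ 0 := by
    rw [cJ_inl, hμj, map_one, one_mul]
    exact neg_ne_zero.mpr (X_ne_zero _)
  have hmi : ∀ i, mon L.τ (L.e i • (Pi.single (Sum.inl i) 1 : (I ⊕ (Fin m → ZMod p)) → ℤ)) =
      L.t i ^ L.e i := by
    intro i
    rw [mon_smul, mon_single, L.τ_inl]
  refine ee_ne_zero L.τ_ne_zero h.hC h.hb (fun s _ s' _ => h.hS _ (xJ_mem s) _ (xJ_mem s')) hne ?_
  rintro ((i | b) | s) hs
  · show V.valuation (mon L.τ (L.e i • Pi.single (Sum.inl i) 1)) ≤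
      V.valuation (mon L.τ (L.e j • Pi.single (Sum.inl j) 1))
    rw [hmi, hmi]
    exact S.hμ' j hj i (cJ_inl_ne hs)
  · obtain ⟨-, h1⟩ := cJ_b hs
    show V.valuation (mon L.τ ((p : ℤ) • LD.Ec p I m M b)) ≤
      V.valuation (mon L.τ (L.e j • Pi.single (Sum.inl j) 1))
    rw [hmi, mon_smul, L.mon_Ec, zpow_natCast, map_pow]
    refine (pow_le_pow_left' (S.ha _ b h1).2 _).trans ?_
    rw [← map_pow]
    refine L.vω_pow_le (fun h0 => ?_) fun i hi => S.hμ' j hj i hi
    rw [h0 j] at hμj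
    exact zero_ne_one hμj
  · exact absurd rfl hs

theorem LL_J_self (h : Cx L C) {j : I} (hj : j ∈ S.J) (ht : L.t j ≠ 1) :
    LL V L.τ L.Y C (S.cJ (S.μ j)) S.xJ (Sum.inl j) ≠ 0 := by
  classical
  obtain ⟨hpe, hvu, -⟩ := L.e_ne ht
  have hμj : S.μ j ⬝ᵥ D j = 1 := by rw [S.hμ j hj j hj, if_pos rfl]
  refine LL_ne_zero (Sum.inl (Sum.inl j)) ?_ ?_ (ee_J_ne h hj) ?_
  · rintro ((i | b) | s) hs
    · right; right
      show (((L.e i • (Pi.single (Sum.inl i) 1 : (I ⊕ (Fin m → ZMod p)) → ℤ)) (Sum.inl j) :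
        ℤ) : ResidueField V) = 0
      rw [Pi.smul_apply, Pi.single_eq_of_ne (by
        intro h'
        apply hs
        rw [h']), smul_zero, Int.cast_zero]
    · right; right
      exact xJ_b_cast b _
    · exact Or.inl rfl
  · rw [cJ_inl, hμj, map_one, one_mul, map_neg, aeval_X]
    refine neg_ne_zero.mpr ?_
    show resv V (L.y j (L.u j)) ≠ 0
    rw [resv_ne_zero_iff (L.vy _ _)]
    exact hvu
  · show (((L.e j • (Pi.single (Sum.inl j) 1 : (I ⊕ (Fin m → ZMod p)) → ℤ)) (Sum.inl j) :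
      ℤ) : ResidueField V) ≠ 0
    rw [Pi.smul_apply, Pi.single_eq_same, smul_eq_mul, mul_one]
    exact intCast_ne V hpe

theorem LL_J_of (μ : Fin m → ZMod p) {i : I} (hi : μ ⬝ᵥ D i = 0 ∨ L.t i = 1) :
    LL V L.τ L.Y C (S.cJ μ) S.xJ (Sum.inl i) = 0 := by
  apply LL_eq_zero
  rintro ((i' | b) | s)
  · by_cases hi' : i' = i
    · subst hi'
      rcases hi with hi | hi
      · left
        rw [cJ_inl, hi, map_zero, zero_mul, neg_zero]
      · right; right
        show (((L.e i' • (Pi.single (Sum.inl i') 1 : (I ⊕ (Fin m → ZMod p)) → ℤ)) (Sum.inl i') :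
          ℤ) : ResidueField V) = 0
        rw [(L.e_zero hi).1, zero_smul, Pi.zero_apply, Int.cast_zero]
    · right; right
      show (((L.e i' • (Pi.single (Sum.inl i') 1 : (I ⊕ (Fin m → ZMod p)) → ℤ)) (Sum.inl i) :
        ℤ) : ResidueField V) = 0
      rw [Pi.smul_apply, Pi.single_eq_of_ne (by
        intro h'
        exact hi' (Sum.inl_injective h').symm), smul_zero, Int.cast_zero]
  · right; right
    exact xJ_b_cast b _
  · exact Or.inl rfl

theorem pderiv_cJ_b (μ b : Fin m → ZMod p) (l : L.υ) :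
    pderiv l (S.cJ μ (Sum.inl (Sum.inr b))) = 0 := by
  classical
  have hcp : ((p : ℕ) : MvPolynomial L.υ (ZMod p)) = 0 := by
    rw [← map_natCast MvPolynomial.C, ZMod.natCast_self, map_zero]
  by_cases hb : b ∈ S.B
  · have : S.cJ μ (Sum.inl (Sum.inr b)) = MvPolynomial.C (S.a μ b) * X (Sum.inr b) ^ p := if_pos hb
    rw [this, pderiv_C_mul, pderiv_pow, hcp, zero_mul, zero_mul, mul_zero]
  · have : S.cJ μ (Sum.inl (Sum.inr b)) = 0 := if_neg hb
    rw [this, map_zero]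

theorem TT_J_inr (μ c : Fin m → ZMod p) :
    TT V L.τ L.Y C (S.cJ μ) S.xJ (Sum.inr c) = 0 := by
  apply TT_eq_zero
  rintro ((i | b) | s)
  · rw [cJ_inl, map_neg, pderiv_C_mul, pderiv_X_of_ne Sum.inl_ne_inr, mul_zero, neg_zero]
  · exact pderiv_cJ_b _ _ _
  · exact map_zero _

theorem TT_J_of {μ : Fin m → ZMod p} {i : I} (hi : μ ⬝ᵥ D i = 0) (b : Fin (L.n i + 1)) :
    TT V L.τ L.Y C (S.cJ μ) S.xJ (Sum.inl ⟨i, b⟩) = 0 := by
  apply TT_eq_zero
  rintro ((i' | b') | s)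
  · rw [cJ_inl, map_neg, pderiv_C_mul]
    by_cases hi' : i' = i
    · subst hi'
      rw [hi, map_zero, zero_mul, neg_zero]
    · rw [pderiv_X_of_ne, mul_zero, neg_zero]
      intro h
      exact hi' (congrArg Sigma.fst (Sum.inl_injective h))
  · exact pderiv_cJ_b _ _ _
  · exact map_zero _

theorem TT_J_self (h : Cx L C) {j : I} (hj : j ∈ S.J) : ∃ w : ResidueField V, w ≠ 0 ∧
    ∀ b, TT V L.τ L.Y C (S.cJ (S.μ j)) S.xJ (Sum.inl ⟨j, b⟩) = if b = L.u j then w else 0 := by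
  classical
  have hμj : S.μ j ⬝ᵥ D j = 1 := by rw [S.hμ j hj j hj, if_pos rfl]
  refine ⟨-ee V L.τ C (mrel C (S.cJ (S.μ j)) S.xJ) (Sum.inl (Sum.inl j)),
    neg_ne_zero.mpr (ee_J_ne h hj), fun b => ?_⟩
  rw [TT_eq_single (Sum.inl (Sum.inl j))]
  · rw [cJ_inl, hμj, map_one, one_mul, map_neg, pderiv_X, Pi.single_apply]
    by_cases hb : b = L.u j
    · rw [if_pos (by rw [hb]), if_pos hb, map_neg, map_one, neg_one_mul]
    · rw [if_neg (by
        intro h'
        apply hb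
        have := Sum.inl_injective h'
        simpa using this.symm), if_neg hb, neg_zero, map_zero, zero_mul]
  · rintro ((i' | b') | s) hs
    · rw [cJ_inl, map_neg, pderiv_C_mul, pderiv_X_of_ne, mul_zero, neg_zero]
      intro h'
      apply hs
      have := congrArg Sigma.fst (Sum.inl_injective h')
      exact congrArg (fun x => Sum.inl (Sum.inl x)) this
    · exact pderiv_cJ_b _ _ _
    · exact map_zero _

end RJ

end Pool.Agent.H96.W0
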