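import Pool.Agent.H96.W0.LocC

/-!
# Local regularity: purely inseparable case
-/

set_option autoImplicit false
set_option linter.unusedSectionVars false

namespace Pool.Agent.H96.W0

open MvPolynomial IsLocalRing Pool.Agent.H96.Reg Pool.Agent.H96.VL Pool.Agent.H96.W

variable {p : ℕ} [Fact p.Prime] {K : Type} [Field K] [Algebra (ZMod p) K]
  {V : ValuationSubring K} {I : Type} [Fintype I] [DecidableEq I] {m : ℕ}
  {D : I → Fin m → ZMod p} {M : ℕ} {L : LD p V I m D M}
  [Algebra (ZMod p) (ResidueField V)] {C : Cone (I ⊕ (Fin m → ZMod p))}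
  {S : ED L}

/-- The index set of the relations. -/
abbrev ED.κ (S : ED L) : Type :=
  I ⊕ ((Σ i : I, Fin (L.n i)) ⊕ ((Fin m → ZMod p) ⊕ ({c : Fin m → ZMod p // c ∉ S.B} ⊕ S.J)))

/-- The relations. -/
noncomputable def ED.ρ (S : ED L) (C : Cone (I ⊕ (Fin m → ZMod p))) :
    S.κ → MRel (I ⊕ (Fin m → ZMod p)) L.υ (ZMod p) (Tm p I m) :=
  Sum.elim (fun i => mrel C (cI L i) (xI i)) (Sum.elim (fun s => mrel C (cG L s.1 s.2) 0)
    (Sum.elim (fun c => mrel C (cP L c) (xP L c))
      (Sum.elim (fun c => mrel C (S.cQ c) (S.xQ c)) fun j => mrel C (S.cJ (S.μ j)) S.xJ)))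

theorem ρ_ok (h : Cx L C) (k : S.κ) : (S.ρ C k).Ok C := by
  rcases k with i | s | c | c | j
  · exact mrel_ok fun s _ s' _ => h.hS _ (xI_mem i s) _ (xI_mem i s')
  · exact mrel_ok fun s _ s' _ => h.hS _ zero_mem_BX _ zero_mem_BX
  · exact mrel_ok fun s _ s' _ => h.hS _ (xP_mem _ s) _ (xP_mem _ s')
  · exact mrel_ok fun s _ s' _ => h.hS _ (xQ_mem _ s) _ (xQ_mem _ s')
  · exact mrel_ok fun s _ s' _ => h.hS _ (xJ_mem s) _ (xJ_mem s')

theorem ρ_rel (k : S.κ) : ∑ s, aeval L.Y ((S.ρ C k).c s) * mon L.τ ((S.ρ C k).x s) = 0 := by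
  rcases k with i | s | c | c | j
  · exact rel_I i
  · exact rel_G s.1 s.2
  · exact rel_P _
  · exact rel_Q _
  · exact rel_J _

theorem card_le (S : ED L) : Fintype.card (I ⊕ (Fin m → ZMod p)) + Fintype.card L.υ ≤
    Fintype.card I + Fintype.card S.κ := by
  have h1 : Fintype.card {c : Fin m → ZMod p // c ∉ S.B} =
      Fintype.card (Fin m → ZMod p) - S.B.card := by
    rw [Fintype.card_subtype_compl, Fintype.card_coe]
  have h2 : S.B.card ≤ Fintype.card (Fin m → ZMod p) := Finset.card_le_univ _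
  have h3 := S.card
  simp only [LD.υ, ED.κ, Fintype.card_sum, Fintype.card_sigma, Fintype.card_fin,
    Finset.sum_add_distrib, Finset.sum_const, Finset.card_univ, smul_eq_mul, mul_one, h1,
    Fintype.card_coe]
  omega

theorem det_ne_zero (i : I) : (Matrix.of fun a b =>
    aeval (fun b => resv V (L.y i b)) (pderiv b (L.G i a))).det ≠ 0 := by
  have h1 := RingHom.map_det (aeval (fun b => resv V (L.y i b)) :
    MvPolynomial (Fin (L.n i + 1)) (ZMod p) →ₐ[ZMod p] ResidueField V).toRingHom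
      (Matrix.of fun a b => pderiv b (L.G i a))
  have h2 : (aeval (fun b => resv V (L.y i b)) :
      MvPolynomial (Fin (L.n i + 1)) (ZMod p) →ₐ[ZMod p] ResidueField V)
      (Matrix.of fun a b => pderiv b (L.G i a)).det ≠ 0 := by
    have h3 := resv_aevalA (ZMod.ringHom_surjective (Int.castRingHom (ZMod p))) (L.y i) (L.vy i)
      (Matrix.of fun a b => pderiv b (L.G i a)).det
    rw [← h3.2, resv_ne_zero_iff h3.1]
    exact L.det i
  intro h0
  apply h2
  refine h1.trans ?_
  rw [← h0]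
  congr 1

/-- **Independence.** -/
theorem ρ_indep (h : Cx L C) (a : S.κ → ResidueField V)
    (hLα : ∀ α, ∑ k, a k * ∑ s, aeval (fun l => resv V (L.Y l)) ((S.ρ C k).c s) *
      (∏ j, resv V (mon L.τ (C.b j)) ^ (S.ρ C k).n C s j) *
      (((S.ρ C k).x s α : ℤ) : ResidueField V) = 0)
    (hTl : ∀ l, ∑ k, a k * ∑ s, aeval (fun l => resv V (L.Y l)) (pderiv l ((S.ρ C k).c s)) *
      ∏ j, resv V (mon L.τ (C.b j)) ^ (S.ρ C k).n C s j = 0) : ∀ k, a k = 0 := by
  classical
  have hL : ∀ α, ∑ i, a (Sum.inl i) * LL V L.τ L.Y C (cI L i) (xI i) α +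
      (∑ s : Σ i : I, Fin (L.n i), a (Sum.inr (Sum.inl s)) * LL V L.τ L.Y C (cG L s.1 s.2) 0 α +
      (∑ c, a (Sum.inr (Sum.inr (Sum.inl c))) * LL V L.τ L.Y C (cP L c) (xP L c) α +
      (∑ c : {c : Fin m → ZMod p // c ∉ S.B}, a (Sum.inr (Sum.inr (Sum.inr (Sum.inl c)))) *
          LL V L.τ L.Y C (S.cQ c) (S.xQ c) α +
        ∑ j : S.J, a (Sum.inr (Sum.inr (Sum.inr (Sum.inr j)))) *
          LL V L.τ L.Y C (S.cJ (S.μ j)) S.xJ α))) = 0 := by
    intro α
    have := hLα α
    rw [Fintype.sum_sum_type, Fintype.sum_sum_type, Fintype.sum_sum_type,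
      Fintype.sum_sum_type] at this
    exact this
  have hT : ∀ l, ∑ i, a (Sum.inl i) * TT V L.τ L.Y C (cI L i) (xI i) l +
      (∑ s : Σ i : I, Fin (L.n i), a (Sum.inr (Sum.inl s)) * TT V L.τ L.Y C (cG L s.1 s.2) 0 l +
      (∑ c, a (Sum.inr (Sum.inr (Sum.inl c))) * TT V L.τ L.Y C (cP L c) (xP L c) l +
      (∑ c : {c : Fin m → ZMod p // c ∉ S.B}, a (Sum.inr (Sum.inr (Sum.inr (Sum.inl c)))) *
          TT V L.τ L.Y C (S.cQ c) (S.xQ c) l +
        ∑ j : S.J, a (Sum.inr (Sum.inr (Sum.inr (Sum.inr j)))) *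
          TT V L.τ L.Y C (S.cJ (S.μ j)) S.xJ l))) = 0 := by
    intro l
    have := hTl l
    rw [Fintype.sum_sum_type, Fintype.sum_sum_type, Fintype.sum_sum_type,
      Fintype.sum_sum_type] at this
    exact this
  clear hLα hTl
  have hG0 : ∀ α, ∑ s : Σ i : I, Fin (L.n i), a (Sum.inr (Sum.inl s)) *
      LL V L.τ L.Y C (cG L s.1 s.2) 0 α = 0 := fun α =>
    Finset.sum_eq_zero fun s _ => by rw [LL_G, mul_zero]
  have hGr : ∀ c, ∑ s : Σ i : I, Fin (L.n i), a (Sum.inr (Sum.inl s)) *
      TT V L.τ L.Y C (cG L s.1 s.2) 0 (Sum.inr c) = 0 := fun c =>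
    Finset.sum_eq_zero fun s _ => by
      rw [TT_G_of_notMem _ _ _ (fun b => Sum.inr_ne_inl), mul_zero]
  have hIr : ∀ c, ∑ i, a (Sum.inl i) * TT V L.τ L.Y C (cI L i) (xI i) (Sum.inr c) = 0 := fun c =>
    Finset.sum_eq_zero fun i _ => by
      by_cases hi : L.t i = 1
      · rw [TT_I_one hi, mul_zero]
      · obtain ⟨w, -, hw⟩ := TT_I_unif (L := L) h hi
        rw [hw, if_neg Sum.inr_ne_inl, mul_zero]
  have hIl : ∀ c, ∑ i, a (Sum.inl i) * LL V L.τ L.Y C (cI L i) (xI i) (Sum.inr c) = 0 := fun c =>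
    Finset.sum_eq_zero fun i _ => by rw [LL_I_of_ne Sum.inr_ne_inl, mul_zero]
  -- the equations for the coordinate and the variable of `c`
  have hLc : ∀ c, a (Sum.inr (Sum.inr (Sum.inl c))) * LL V L.τ L.Y C (cP L c) (xP L c) (Sum.inr c) +
      ∑ c' : {c : Fin m → ZMod p // c ∉ S.B}, a (Sum.inr (Sum.inr (Sum.inr (Sum.inl c')))) *
          LL V L.τ L.Y C (S.cQ c') (S.xQ c') (Sum.inr c) = 0 := by
    intro c
    have h1 := hL (Sum.inr c)
    rw [hIl, hG0, zero_add, zero_add, Finset.sum_eq_zero (s := (Finset.univ : Finset S.J))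
      (fun j _ => by rw [LL_J_inr, mul_zero]), add_zero, Finset.sum_eq_single c] at h1
    · exact h1
    · intro c' _ hne
      rw [LL_P_of_ne (Ne.symm hne), mul_zero]
    · intro h'; exact absurd (Finset.mem_univ _) h'
  have hTc : ∀ c, a (Sum.inr (Sum.inr (Sum.inl c))) * TT V L.τ L.Y C (cP L c) (xP L c) (Sum.inr c) +
      ∑ c' : {c : Fin m → ZMod p // c ∉ S.B}, a (Sum.inr (Sum.inr (Sum.inr (Sum.inl c')))) *
          TT V L.τ L.Y C (S.cQ c') (S.xQ c') (Sum.inr c) = 0 := by
    intro c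
    have h1 := hT (Sum.inr c)
    rw [hIr, hGr, zero_add, zero_add, Finset.sum_eq_zero (s := (Finset.univ : Finset S.J))
      (fun j _ => by rw [TT_J_inr, mul_zero]), add_zero, Finset.sum_eq_single c] at h1
    · exact h1
    · intro c' _ hne
      by_cases hc' : L.isZ c'
      · rw [TT_P_isZ hc', if_neg (fun h' => hne (Sum.inr_injective h').symm), mul_zero]
      · rw [TT_P_not hc', mul_zero]
    · intro h'; exact absurd (Finset.mem_univ _) h'
  -- the linear relations
  have haQ : ∀ c : {c : Fin m → ZMod p // c ∉ S.B},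
      a (Sum.inr (Sum.inr (Sum.inr (Sum.inl c)))) = 0 := by
    intro c
    have h1 := hLc c
    have h2 := hTc c
    rw [Finset.sum_eq_single c] at h1 h2
    · by_cases hc : L.isZ (c : Fin m → ZMod p)
      · rw [LL_P_isZ hc, mul_zero, zero_add] at h1
        exact (mul_eq_zero.mp h1).resolve_right (LL_Q_self h hc c.2)
      · rw [TT_P_not hc, mul_zero, zero_add] at h2
        exact (mul_eq_zero.mp h2).resolve_right (TT_Q_self h c.2)
    · intro c' _ hne
      rw [TT_Q_of_ne c.2 (fun h' => hne (Subtype.ext h'.symm)), mul_zero]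
    · intro h'; exact absurd (Finset.mem_univ _) h'
    · intro c' _ hne
      rw [LL_Q_of_ne c.2 (fun h' => hne (Subtype.ext h'.symm)), mul_zero]
    · intro h'; exact absurd (Finset.mem_univ _) h'
  -- the relations of `ω_c`
  have haP : ∀ c, a (Sum.inr (Sum.inr (Sum.inl c))) = 0 := by
    intro c
    have h1 := hLc c
    have h2 := hTc c
    rw [Finset.sum_eq_zero (fun c' _ => by rw [haQ, zero_mul]), add_zero] at h1 h2
    by_cases hc : L.isZ c
    · rw [TT_P_isZ hc, if_pos rfl, mul_one] at h2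
      exact h2
    · exact (mul_eq_zero.mp h1).resolve_right (LL_P_not h hc)
  have hPz : ∀ α, ∑ c, a (Sum.inr (Sum.inr (Sum.inl c))) * LL V L.τ L.Y C (cP L c) (xP L c) α = 0 :=
    fun α => Finset.sum_eq_zero fun c _ => by rw [haP, zero_mul]
  have hPt : ∀ l, ∑ c, a (Sum.inr (Sum.inr (Sum.inl c))) * TT V L.τ L.Y C (cP L c) (xP L c) l = 0 :=
    fun α => Finset.sum_eq_zero fun c _ => by rw [haP, zero_mul]
  have hQz : ∀ α, ∑ c : {c : Fin m → ZMod p // c ∉ S.B},
      a (Sum.inr (Sum.inr (Sum.inr (Sum.inl c)))) * LL V L.τ L.Y C (S.cQ c) (S.xQ c) α = 0 :=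
    fun α => Finset.sum_eq_zero fun c _ => by rw [haQ, zero_mul]
  have hQt : ∀ l, ∑ c : {c : Fin m → ZMod p // c ∉ S.B},
      a (Sum.inr (Sum.inr (Sum.inr (Sum.inl c)))) * TT V L.τ L.Y C (S.cQ c) (S.xQ c) l = 0 :=
    fun α => Finset.sum_eq_zero fun c _ => by rw [haQ, zero_mul]
  have hμne : ∀ {j j' : I}, j ∈ S.J → j' ∈ S.J → j ≠ j' → S.μ j ⬝ᵥ D j' = 0 := by
    intro j j' hj hj' hne
    rw [S.hμ j hj j' hj', if_neg hne]
  -- the special pivots
  have haj : ∀ j : S.J, L.t j ≠ 1 → a (Sum.inr (Sum.inr (Sum.inr (Sum.inr j)))) = 0 := by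
    intro j ht
    have h1 := hL (Sum.inl j)
    rw [hG0, hPz, hQz, Finset.sum_eq_zero (s := (Finset.univ : Finset I)) (fun i _ => by
        by_cases hi : i = j
        · rw [LL_I_unif h (by rw [hi]; exact ht), mul_zero]
        · rw [LL_I_of_ne (fun h' => hi (Sum.inl_injective h').symm), mul_zero]),
      zero_add, zero_add, zero_add, zero_add, Finset.sum_eq_single j] at h1
    · exact (mul_eq_zero.mp h1).resolve_right (LL_J_self h j.2 ht)
    · intro j' _ hne
      rw [LL_J_of _ (Or.inl (hμne j'.2 j.2 (fun h' => hne (Subtype.ext h')))), mul_zero]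
    · intro h'; exact absurd (Finset.mem_univ _) h'
  -- the trivial coordinates
  have hai : ∀ i, L.t i = 1 → a (Sum.inl i) = 0 := by
    intro i hi
    have h1 := hL (Sum.inl i)
    rw [hG0, hPz, hQz, Finset.sum_eq_zero (s := (Finset.univ : Finset S.J)) (fun j _ => by
        rw [LL_J_of _ (Or.inr hi), mul_zero]), add_zero, add_zero, add_zero, add_zero,
      Finset.sum_eq_single i] at h1
    · exact (mul_eq_zero.mp h1).resolve_right (LL_I_one h hi)
    · intro i' _ hne
      rw [LL_I_of_ne (fun h' => hne (Sum.inl_injective h').symm), mul_zero]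
    · intro h'; exact absurd (Finset.mem_univ _) h'
  -- the blocks
  have block : ∀ (i : I) (A w : ResidueField V),
      (∀ b : Fin (L.n i + 1), a (Sum.inl i) * TT V L.τ L.Y C (cI L i) (xI i) (Sum.inl ⟨i, b⟩ : L.υ) +
        ∑ j : S.J, a (Sum.inr (Sum.inr (Sum.inr (Sum.inr j)))) *
          TT V L.τ L.Y C (S.cJ (S.μ j)) S.xJ (Sum.inl ⟨i, b⟩) =
        A * w * if b = L.l i then 1 else 0) → (w ≠ 0 → A = 0) ∧
      ∀ k : Fin (L.n i), a (Sum.inr (Sum.inl ⟨i, k⟩)) = 0 := by
    intro i A w hw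
    have key : ∀ b : Fin (L.n i + 1), ∑ k : Fin (L.n i + 1),
        (Fin.cons (A * w) (fun k => a (Sum.inr (Sum.inl ⟨i, k⟩))) :
          Fin (L.n i + 1) → ResidueField V) k *
        aeval (fun b => resv V (L.y i b)) (pderiv b (L.G i k)) = 0 := by
      intro b
      rw [Fin.sum_univ_succ]
      simp only [Fin.cons_zero, Fin.cons_succ]
      rw [L.G0 i, pderiv_X, Pi.single_apply]
      have h1 := hT (Sum.inl ⟨i, b⟩)
      rw [hPt, hQt, zero_add, zero_add, Finset.sum_eq_single i, Fintype.sum_sigma,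
        Finset.sum_eq_single i] at h1
      · have h2 : (aeval (fun b => resv V (L.y i b))
            (if L.l i = b then (1 : MvPolynomial (Fin (L.n i + 1)) (ZMod p)) else 0)) =
            (if b = L.l i then (1 : ResidueField V) else 0) := by
          by_cases hb : b = L.l i
          · rw [if_pos hb.symm, if_pos hb, map_one]
          · rw [if_neg (Ne.symm hb), if_neg hb, map_zero]
        rw [h2, ← hw b]
        have h3 : ∀ k : Fin (L.n i), TT V L.τ L.Y C (cG L i k) 0 (Sum.inl ⟨i, b⟩ : L.υ) =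
            aeval (fun b => resv V (L.y i b)) (pderiv b (L.G i k.succ)) := fun k => TT_G_same i k b
        simp only [h3] at h1
        rw [← h1]; ring
      · intro i' _ hne
        refine Finset.sum_eq_zero fun k _ => ?_
        rw [TT_G_of_notMem _ _ _ (by
          intro b' h'
          apply hne
          have := Sum.inl_injective h'
          exact (congrArg Sigma.fst this).symm), mul_zero]
      · intro h'; exact absurd (Finset.mem_univ _) h'
      · intro i' _ hne
        by_cases hi : L.t i' = 1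
        · rw [TT_I_one hi, mul_zero]
        · obtain ⟨w', -, hw'⟩ := TT_I_unif (L := L) h hi
          rw [hw', if_neg (by
            intro h'
            apply hne
            have := Sum.inl_injective h'
            exact (congrArg Sigma.fst this).symm), mul_zero]
      · intro h'; exact absurd (Finset.mem_univ _) h'
    have hvec : Matrix.vecMul (Fin.cons (A * w) (fun k => a (Sum.inr (Sum.inl ⟨i, k⟩))) :
        Fin (L.n i + 1) → ResidueField V) (Matrix.of fun a b =>
        aeval (fun b => resv V (L.y i b)) (pderiv b (L.G i a))) = 0 := by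
      funext b
      exact key b
    have hz := Matrix.eq_zero_of_vecMul_eq_zero (det_ne_zero i) hvec
    refine ⟨fun hi => ?_, fun k => ?_⟩
    · have h1 := congrFun hz 0
      rw [Fin.cons_zero, Pi.zero_apply] at h1
      exact (mul_eq_zero.mp h1).resolve_right hi
    · have h1 := congrFun hz k.succ
      rw [Fin.cons_succ, Pi.zero_apply] at h1
      exact h1
  -- the smooth pivots
  have haj' : ∀ j : S.J, a (Sum.inr (Sum.inr (Sum.inr (Sum.inr j)))) = 0 := by
    intro j
    by_cases ht : L.t j = 1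
    · obtain ⟨w, hw0, hw⟩ := TT_J_self (S := S) h j.2
      refine (block j _ w fun b => ?_).1 hw0
      rw [TT_I_one ht, mul_zero, zero_add, Finset.sum_eq_single j]
      · rw [hw, (L.e_zero ht).2]
        by_cases hb : b = L.l j
        · rw [if_pos hb, if_pos hb, mul_one]
        · rw [if_neg hb, if_neg hb, mul_zero, mul_zero]
      · intro j' _ hne
        rw [TT_J_of (hμne j'.2 j.2 (fun h' => hne (Subtype.ext h'))), mul_zero]
      · intro h'; exact absurd (Finset.mem_univ _) h'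
    · exact haj j ht
  -- the curves
  have hcurve : ∀ i, (L.t i ≠ 1 → a (Sum.inl i) = 0) ∧ ∀ k : Fin (L.n i),
      a (Sum.inr (Sum.inl ⟨i, k⟩)) = 0 := by
    intro i
    by_cases hi : L.t i = 1
    · refine ⟨fun h' => absurd hi h', (block i 0 0 fun b => ?_).2⟩
      rw [hai i hi, zero_mul, zero_add, Finset.sum_eq_zero (fun j _ => by rw [haj', zero_mul]),
        zero_mul, zero_mul]
    · obtain ⟨w, hw0, hw⟩ := TT_I_unif (L := L) h hi
      have := block i (a (Sum.inl i)) w fun b => by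
        rw [hw, Finset.sum_eq_zero (fun j _ => by rw [haj', zero_mul]), add_zero]
        by_cases hb : b = L.l i
        · rw [if_pos (by rw [hb]), if_pos hb, mul_one]
        · rw [if_neg (by
            intro h'
            apply hb
            simpa using h'), if_neg hb, mul_zero, mul_zero]
      exact ⟨fun _ => this.1 hw0, this.2⟩
  rintro (i | ⟨i, k⟩ | c | c | j)
  · by_cases hi : L.t i = 1
    · exact hai i hi
    · exact (hcurve i).1 hi
  · exact (hcurve i).2 k
  · exact haP c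
  · exact haQ c
  · exact haj' j

/-- **Local regularity.** -/
theorem isRegular_local (S : ED L) (h : Cx L C)
    (halg : Algebra.IsAlgebraic (Algebra.adjoin (ZMod p)
      (Set.range (Sum.elim (fun j => mon L.τ (C.b j)) L.Y))) K)
    (htr : (Fintype.card I : Cardinal.{0}) ≤ Algebra.trdeg (ZMod p) K) :
    IsRegularLocalRing (vloc V (Algebra.adjoin ℤ
      (Set.range (Sum.elim (fun j => mon L.τ (C.b j)) L.Y)))) := by
  refine isRegular_of_mrel (ZMod.ringHom_surjective (Int.castRingHom (ZMod p))) V L.τ_ne_zero h.hC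
    h.hb L.vY halg (S.ρ C) (ρ_ok h) ρ_rel ?_ (ρ_indep h)
  have h1 := card_le S
  calc ((Fintype.card (I ⊕ (Fin m → ZMod p)) : Cardinal.{0}) + Fintype.card L.υ) =
        ((Fintype.card (I ⊕ (Fin m → ZMod p)) + Fintype.card L.υ : ℕ) : Cardinal.{0}) := by
          push_cast; rfl
    _ ≤ ((Fintype.card I + Fintype.card S.κ : ℕ) : Cardinal.{0}) := by exact_mod_cast h1
    _ = (Fintype.card I : Cardinal.{0}) + Fintype.card S.κ := by push_cast; rfl
    _ ≤ _ := by gcongr

end Pool.Agent.H96.W0
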