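import Pool.Agent.H96.W0.Glob2
import Pool.Agent.H96.DField

/-!
# Models of purely inseparable covers of products of curves
-/

set_option autoImplicit false
set_option linter.unusedSectionVars false

namespace Pool.Agent.H96.W0

open MvPolynomial IsLocalRing Pool.Agent.H96.Reg Pool.Agent.H96.VL Pool.Agent.H96.W
open scoped Pointwise

variable {p : ℕ} [Fact p.Prime] {K : Type} [Field K] [Algebra (ZMod p) K] {I : Type}
    [Fintype I] [DecidableEq I] {F : I → Type} [∀ i, Field (F i)] [∀ i, Algebra (ZMod p) (F i)]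
    [∀ i, Algebra (F i) K] [∀ i, IsScalarTower (ZMod p) (F i) K] {m M : ℕ}

variable {G : GD p K I F m M} {V : ValuationSubring K} {R : Subring K}

/-- The ring of the chart. -/
theorem base_vloc (lg : LG G V) {C : Cone (I ⊕ (Fin m → ZMod p))} (h : Cx lg.L C) :
    Base lg (vloc V (Algebra.adjoin ℤ
      (Set.range (Sum.elim (fun j => mon lg.L.τ (C.b j)) lg.L.Y)))) := by
  set B := Algebra.adjoin ℤ (Set.range (Sum.elim (fun j => mon lg.L.τ (C.b j)) lg.L.Y)) with hB
  have hR : VLocal V (vloc V B) := by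
    apply vlocal_vloc
    apply adjoin_val_le
    rintro _ ⟨j | l, rfl⟩
    · exact h.hb j
    · exact lg.L.vY l
  have hbR : ∀ j, mon lg.L.τ (C.b j) ∈ vloc V B := fun j =>
    subset_vloc (Algebra.subset_adjoin ⟨Sum.inl j, rfl⟩)
  have hYR : ∀ l, lg.L.Y l ∈ vloc V B := fun l =>
    subset_vloc (Algebra.subset_adjoin ⟨Sum.inr l, rfl⟩)
  have hpoly : ∀ i (P : MvPolynomial (Fin (lg.L.n i + 1)) (ZMod p)),
      aeval (lg.L.y i) P ∈ vloc V B := by
    intro i P
    induction P using MvPolynomial.induction_on with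
    | C a => rw [aeval_C]; exact zmod_mem_R _ a
    | add P Q hP hQ => rw [map_add]; exact Subring.add_mem _ hP hQ
    | mul_X P b hP => rw [map_mul, aeval_X]; exact Subring.mul_mem _ hP (hYR (Sum.inl ⟨i, b⟩))
  have hmon : ∀ u : I ⊕ (Fin m → ZMod p) → ℤ, (∀ j, 0 ≤ C.r j ⬝ᵥ u) → mon lg.L.τ u ∈ vloc V B := by
    intro u hu
    refine h.hC.mem (Q := {u | mon lg.L.τ u ∈ vloc V B}) (fun u hu v hv => ?_) ?_ hbR hu
    · show mon lg.L.τ (u + v) ∈ vloc V B
      rw [mon_add lg.L.τ_ne_zero]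
      exact Subring.mul_mem _ hu hv
    · show mon lg.L.τ 0 ∈ vloc V B
      rw [mon_zero]; exact Subring.one_mem _
  refine ⟨hR, fun i w hw => ?_, fun c => hYR (Sum.inr c), fun c i hi => ?_, fun c => ?_⟩
  · obtain ⟨a, s, h1, h2⟩ := lg.gen i w hw
    rw [h2]
    exact hR.div_mem (hpoly i a) (hpoly i s) h1
  · -- the quotient is a monomial of constant sign
    have h1 : mon lg.L.τ ((LD.Q p M : ℤ) • Pi.single (Sum.inl i) 1 - LD.Ec p I m M c) =
        lg.L.t i ^ LD.Q p M / lg.L.ω c := by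
      rw [mon_sub lg.L.τ_ne_zero, mon_smul, mon_single, lg.L.mon_Ec, zpow_natCast, lg.L.τ_inl]
    have h2 : V.valuation (mon lg.L.τ ((LD.Q p M : ℤ) • Pi.single (Sum.inl i) 1 -
        LD.Ec p I m M c)) ≤ 1 := by
      rw [h1, map_div₀]
      have h3 : 0 < V.valuation (lg.L.ω c) := by rw [Valuation.pos_iff]; exact lg.L.ω_ne_zero c
      exact (div_le_one₀ h3).mpr (lg.L.vt_le_ω hi)
    have hm1 : ((LD.Q p M : ℤ) • Pi.single (Sum.inl i) 1 : I ⊕ (Fin m → ZMod p) → ℤ) ∈
        BX (I ⊕ (Fin m → ZMod p)) (bsz p M) := by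
      refine smul_single_mem_BX _ ?_
      rw [Nat.abs_cast]
      have : LD.Q p M ≤ bsz p M := by
        rw [LD.Q, bsz]
        have := Nat.le_mul_of_pos_left (p * M) (Fact.out : p.Prime).pos
        omega
      exact_mod_cast this
    have hm2 : LD.Ec p I m M c ∈ BX (I ⊕ (Fin m → ZMod p)) (bsz p M) := by
      have := smul_Ec_mem_BX (I := I) (M := M) c (k := 1) (Fact.out : p.Prime).one_le
      rwa [Nat.cast_one, one_smul] at this
    rw [← h1]
    rcases h.hS _ hm1 _ hm2 with h3 | h3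
    · exact hmon _ h3
    · have h4 := hmon _ h3
      rw [mon_neg] at h4
      have h5 : V.valuation (mon lg.L.τ ((LD.Q p M : ℤ) • Pi.single (Sum.inl i) 1 -
          LD.Ec p I m M c))⁻¹ = 1 := by
        apply le_antisymm (hR.le _ h4)
        rw [map_inv₀]
        refine (one_le_inv₀ ?_).mpr h2
        rw [Valuation.pos_iff]
        exact mon_ne_zero lg.L.τ_ne_zero _
      have h6 := hR.inv _ h4 h5
      rwa [inv_inv] at h6
  · rw [← mon_single (τ := lg.L.τ) (Sum.inr c)]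
    refine hmon _ fun j => ?_
    rw [dotProduct_single_one]
    exact h.hC.pos _ _

/-- The field is generated by the chart. -/
theorem isAlgebraic_chart (lg : LG G V) {C : Cone (I ⊕ (Fin m → ZMod p))}
    (hC : IsCone C) :
    Algebra.IsAlgebraic (Algebra.adjoin (ZMod p)
      (Set.range (Sum.elim (fun j => mon lg.L.τ (C.b j)) lg.L.Y))) K := by
  set X := Set.range (Sum.elim (fun j => mon lg.L.τ (C.b j)) lg.L.Y) with hX
  set E := (Subfield.closure X) with hE
  have hbR : ∀ j, mon lg.L.τ (C.b j) ∈ E := fun j => Subfield.subset_closure ⟨Sum.inl j, rfl⟩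
  have hYR : ∀ l, lg.L.Y l ∈ E := fun l => Subfield.subset_closure ⟨Sum.inr l, rfl⟩
  have hzm : ∀ a : ZMod p, algebraMap (ZMod p) K a ∈ E := fun a =>
    zmod_mem_R E.toSubring a
  have hpoly : ∀ i (P : MvPolynomial (Fin (lg.L.n i + 1)) (ZMod p)), aeval (lg.L.y i) P ∈ E := by
    intro i P
    induction P using MvPolynomial.induction_on with
    | C a => rw [aeval_C]; exact hzm a
    | add P Q hP hQ => rw [map_add]; exact E.add_mem hP hQ
    | mul_X P b hP => rw [map_mul, aeval_X]; exact E.mul_mem hP (hYR (Sum.inl ⟨i, b⟩))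
  have hF1 : ∀ i (w : F i), (WV V (F i)).valuation w ≤ 1 → algebraMap (F i) K w ∈ E := by
    intro i w hw
    obtain ⟨a, s, -, h2⟩ := lg.gen i w hw
    rw [h2]
    exact E.div_mem (hpoly i a) (hpoly i s)
  have hF : ∀ i (w : F i), algebraMap (F i) K w ∈ E := by
    intro i w
    rcases le_total ((WV V (F i)).valuation w) 1 with hw | hw
    · exact hF1 i w hw
    · have h1 : (WV V (F i)).valuation w⁻¹ ≤ 1 := by
        rw [map_inv₀]; exact inv_le_one_of_one_le₀ hw
      have h2 := E.inv_mem (hF1 i _ h1)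
      rwa [map_inv₀, inv_inv] at h2
  have hz' : ∀ c, lg.L.z c ∈ E := by
    intro c
    have hcone : ∀ u : I ⊕ (Fin m → ZMod p) → ℤ, (∀ j, 0 ≤ C.r j ⬝ᵥ u) → mon lg.L.τ u ∈ E := by
      intro u hu
      refine hC.mem (Q := {u | mon lg.L.τ u ∈ E}) (fun u hu v hv => ?_) ?_ hbR hu
      · show mon lg.L.τ (u + v) ∈ E
        rw [mon_add lg.L.τ_ne_zero]
        exact E.mul_mem hu hv
      · show mon lg.L.τ 0 ∈ E
        rw [mon_zero]; exact E.one_mem
    have h1 : lg.L.τ (Sum.inr c) ∈ E := by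
      rw [← mon_single (τ := lg.L.τ) (Sum.inr c)]
      refine hcone _ fun j => ?_
      rw [dotProduct_single_one]
      exact hC.pos _ _
    have h2 : ∀ i, lg.L.t i ∈ E := by
      intro i
      rw [lg.t_eq]
      exact hF i _
    have h3 : lg.L.ω c ∈ E := by
      have h4 : lg.L.ω c = lg.L.τ (Sum.inr c) / ∏ i, lg.L.t i ^ LD.Q p M := by
        rw [lg.L.τ_inr, mul_div_cancel_right₀]
        exact Finset.prod_ne_zero_iff.mpr fun i _ => pow_ne_zero _ (lg.L.t_ne_zero i)
      rw [h4]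
      exact E.div_mem h1 (prod_mem fun i _ => E.pow_mem (h2 i) _)
    rw [← lg.L.Y_mul c]
    exact E.mul_mem (hYR (Sum.inr c)) h3
  have hz : ∀ a, G.z a ∈ E := by
    intro a
    have h1 := zlin_apply G.D G.z (G.gs (G.σV V)) (Pi.single a 1)
    have h2 : ∑ b, algebraMap (ZMod p) K ((Pi.single a 1 : Fin m → ZMod p) b) * G.z b = G.z a := by
      rw [Finset.sum_eq_single a]
      · rw [Pi.single_eq_same, map_one, one_mul]
      · intro b _ hb
        rw [Pi.single_eq_of_ne hb, map_zero, zero_mul]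
      · intro h; exact absurd (Finset.mem_univ _) h
    rw [h2] at h1
    have h3 : G.z a = lg.L.z (Pi.single a 1) +
        ∑ i, algebraMap (ZMod p) K ((Pi.single a 1 : Fin m → ZMod p) ⬝ᵥ G.D i) *
          G.gs (G.σV V) i := by
      rw [lg.z_eq, GD.zs, h1]; ring
    rw [h3]
    exact E.add_mem (hz' _) (sum_mem fun i _ => E.mul_mem (hzm _) (hF i _))
  have htop := G.gen E.toSubring (fun x hx _ => E.inv_mem hx) hF hz
  have hE' : E = ⊤ := by
    rw [eq_top_iff]
    intro x _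
    have : x ∈ E.toSubring := by rw [htop]; trivial
    exact this
  have hcl : Subfield.closure (Algebra.adjoin ℤ X : Set K) = ⊤ := by
    rw [eq_top_iff, ← hE', hE]
    exact Subfield.closure_mono Algebra.subset_adjoin
  have hfr := isFractionRing_of_closure _ hcl
  have halg : Algebra.IsAlgebraic (Algebra.adjoin ℤ X) K :=
    IsLocalization.isAlgebraic K (nonZeroDivisors (Algebra.adjoin ℤ X))
  have hle : ∀ x ∈ Algebra.adjoin ℤ X, x ∈ Algebra.adjoin (ZMod p) X := by
    intro x hx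
    exact adjoin_le_of (R := (Algebra.adjoin (ZMod p) X).toSubring)
      (fun x hx => Algebra.subset_adjoin hx) x hx
  let j : Algebra.adjoin ℤ X →+* Algebra.adjoin (ZMod p) X :=
    { toFun := fun x => ⟨x, hle _ x.2⟩
      map_one' := rfl
      map_mul' := fun _ _ => rfl
      map_zero' := rfl
      map_add' := fun _ _ => rfl }
  let i1 : Algebra (Algebra.adjoin ℤ X) (Algebra.adjoin (ZMod p) X) := j.toAlgebra
  have i2 : IsScalarTower (Algebra.adjoin ℤ X) (Algebra.adjoin (ZMod p) X) K :=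
    IsScalarTower.of_algebraMap_eq fun x => rfl
  exact Algebra.IsAlgebraic.extendScalars (R := Algebra.adjoin ℤ X) (fun x y hxy =>
    Subtype.ext (congrArg (fun z : Algebra.adjoin (ZMod p) X => (z : K)) hxy))

/-- **Models of purely inseparable covers of products of curves.** -/
theorem GD.hasCharts (G : GD p K I F m M)
    (htr : (Fintype.card I : Cardinal.{0}) ≤ Algebra.trdeg (ZMod p) K) :
    Pool.Agent.H19.OG.HasCharts K := by
  classical
  obtain ⟨𝒞, Ls, hE, hSgn⟩ := exists_eng (ι := I ⊕ (Fin m → ZMod p))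
    (Finset.image₂ (fun u v => u - v) (BX (I ⊕ (Fin m → ZMod p)) (bsz p M))
      (BX (I ⊕ (Fin m → ZMod p)) (bsz p M)))
  have hLs : ∀ S ∈ Ls, S.Nonempty := by
    intro S hS
    obtain ⟨C, hC, h1, h2, h3⟩ := hE.cov Set.univ ⟨fun _ _ _ _ => trivial, fun _ => Or.inl trivial,
      fun _ => trivial⟩
    obtain ⟨u, hu, -⟩ := h3 Set.univ ⟨fun _ h => h, fun _ _ _ _ => trivial, trivial,
      fun _ => trivial, fun _ _ _ => trivial⟩ (fun _ => trivial) S hS
    exact ⟨u, hu⟩
  set ε : I ⊕ (Fin m → ZMod p) → ℤ := fun _ => 1 with hε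
  have hε1 : ∀ α, ε α = 1 ∨ ε α = -1 := fun α => Or.inl rfl
  set 𝔖 : Finset (Finset K) := (Finset.univ.biUnion fun i => (G.cd i).base.image
      (fun s => s.image (algebraMap (F i) K))) ∪ ((Finset.univ.image G.sC) ∪
      (Finset.univ.image fun c => G.ss (Sum.inr c) ∪ G.sL (Sum.inr c))) ∪
      (Ls.toFinset.image (eset G.ss G.sL ε)) with h𝔖
  have hm1 : ∀ i, ∀ s ∈ (G.cd i).base, s.image (algebraMap (F i) K) ∈ 𝔖 := by
    intro i s hs
    exact Finset.mem_union_left _ (Finset.mem_union_left _ (Finset.mem_biUnion.mpr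
      ⟨i, Finset.mem_univ _, Finset.mem_image_of_mem _ hs⟩))
  have hm2 : ∀ c, G.sC c ∈ 𝔖 := fun c => Finset.mem_union_left _ (Finset.mem_union_right _
    (Finset.mem_union_left _ (Finset.mem_image_of_mem _ (Finset.mem_univ _))))
  have hm2' : ∀ c, G.ss (Sum.inr c) ∪ G.sL (Sum.inr c) ∈ 𝔖 := fun c =>
    Finset.mem_union_left _ (Finset.mem_union_right _
      (Finset.mem_union_right _ (Finset.mem_image.mpr ⟨c, Finset.mem_univ _, rfl⟩)))
  have hm3 : ∀ S ∈ Ls, eset G.ss G.sL ε S ∈ 𝔖 := fun S hS => Finset.mem_union_right _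
    (Finset.mem_image_of_mem _ (List.mem_toFinset.mpr hS))
  have hcase : ∀ s ∈ 𝔖, (∃ i, ∃ s' ∈ (G.cd i).base, s = s'.image (algebraMap (F i) K)) ∨
      (∃ c, s = G.sC c) ∨ (∃ c, s = G.ss (Sum.inr c) ∪ G.sL (Sum.inr c)) ∨
      ∃ S ∈ Ls, s = eset G.ss G.sL ε S := by
    intro s hs
    rcases Finset.mem_union.mp hs with hs | hs
    · rcases Finset.mem_union.mp hs with hs | hs
      · obtain ⟨i, -, hs⟩ := Finset.mem_biUnion.mp hs
        obtain ⟨s', hs', rfl⟩ := Finset.mem_image.mp hs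
        exact Or.inl ⟨i, s', hs', rfl⟩
      · rcases Finset.mem_union.mp hs with hs | hs
        · obtain ⟨c, -, rfl⟩ := Finset.mem_image.mp hs
          exact Or.inr (Or.inl ⟨c, rfl⟩)
        · obtain ⟨c, -, rfl⟩ := Finset.mem_image.mp hs
          exact Or.inr (Or.inr (Or.inl ⟨c, rfl⟩))
    · obtain ⟨S, hS, rfl⟩ := Finset.mem_image.mp hs
      exact Or.inr (Or.inr (Or.inr ⟨S, List.mem_toFinset.mp hS, rfl⟩))
  -- detection
  have hdet : ∀ (V : ValuationSubring K) (lg : LG G V) (R : Subring K), VLocal V R →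
      (∀ s ∈ 𝔖, Prin R s) → Base lg R := fun V lg R hR hs =>
    base_of_prin lg hR (fun i s hs' => hs _ (hm1 i s hs')) (fun c => hs _ (hm2 c))
      fun c => hs _ (hm2' c)
  -- nonzero elements
  obtain ⟨lg₀⟩ := nonempty_lg G (⊤ : ValuationSubring K)
  have hself := base_self lg₀
  have hne : ∀ {s : Finset K} {T : K}, Gen (⊤ : ValuationSubring K).toSubring s T →
      ∃ g ∈ s, g ≠ 0 := by
    intro s T h
    obtain ⟨g, hg, -, h0⟩ := h.ex
    exact ⟨g, hg, h0⟩
  refine hasCharts_of_sets 𝔖 ?_ ?_ ?_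
  · intro s hs
    rcases hcase s hs with ⟨i, s', hs', rfl⟩ | ⟨c, rfl⟩ | ⟨c, rfl⟩ | ⟨S, hS, rfl⟩
    · obtain ⟨h0, g, hg⟩ := (G.cd i).zero_base s' hs'
      exact ⟨_, Finset.mem_image_of_mem _ hg, (map_ne_zero _).mpr (by rintro rfl; exact h0 hg)⟩
    · exact hne (gen_sC lg₀ hself.b1 c (hself.bz c) (hself.bt c))
    · obtain ⟨g, hg, h0⟩ := hne (gen_sL (G := G) hself.b1 (Sum.inr c))
      exact ⟨g, Finset.mem_union_right _ hg, h0⟩
    · exact eset_ne (fun α => hne (hself.gen_ss α)) (fun α => hne (gen_sL (G := G) hself.b1 α))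
        (hLs S hS)
  · intro R hinv hs
    have hall : ∀ x : K, (⊤ : ValuationSubring K).valuation x ≤ 1 := fun x =>
      (ValuationSubring.valuation_le_one_iff _ _).mpr trivial
    have hR : VLocal (⊤ : ValuationSubring K) R := ⟨fun x _ => hall x, fun x hx h1 => hinv x hx (by
      rintro rfl
      rw [map_zero] at h1
      exact zero_ne_one h1)⟩
    have hb := hdet ⊤ lg₀ R hR hs
    have hF : ∀ i (w : F i), algebraMap (F i) K w ∈ R := fun i w => hb.b1 i w (wv_le_one.mpr (hall _))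
    refine G.gen R hinv hF fun a => ?_
    have h1 := zlin_apply G.D G.z (G.gs (G.σV ⊤)) (Pi.single a 1)
    have h2 : ∑ b, algebraMap (ZMod p) K ((Pi.single a 1 : Fin m → ZMod p) b) * G.z b = G.z a := by
      rw [Finset.sum_eq_single a]
      · rw [Pi.single_eq_same, map_one, one_mul]
      · intro b _ hb
        rw [Pi.single_eq_of_ne hb, map_zero, zero_mul]
      · intro h; exact absurd (Finset.mem_univ _) h
    rw [h2] at h1
    have h3 : G.z a = lg₀.L.z (Pi.single a 1) +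
        ∑ i, algebraMap (ZMod p) K ((Pi.single a 1 : Fin m → ZMod p) ⬝ᵥ G.D i) *
          G.gs (G.σV ⊤) i := by
      rw [lg₀.z_eq, GD.zs, h1]; ring
    have ht : ∀ i, lg₀.L.t i ∈ R := fun i => by rw [lg₀.t_eq]; exact hF i _
    have hω : lg₀.L.ω (Pi.single a 1) ∈ R := by
      have h4 : lg₀.L.ω (Pi.single a 1) = lg₀.L.τ (Sum.inr (Pi.single a 1)) *
          (∏ i, lg₀.L.t i ^ LD.Q p M)⁻¹ := by
        rw [lg₀.L.τ_inr, mul_assoc, mul_inv_cancel₀, mul_one]
        exact Finset.prod_ne_zero_iff.mpr fun i _ => pow_ne_zero _ (lg₀.L.t_ne_zero i)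
      rw [h4]
      refine R.mul_mem (hb.bτ _) (hinv _ (Subring.prod_mem _ fun i _ => R.pow_mem (ht i) _) ?_)
      exact Finset.prod_ne_zero_iff.mpr fun i _ => pow_ne_zero _ (lg₀.L.t_ne_zero i)
    rw [h3]
    refine R.add_mem ?_ (Subring.sum_mem _ fun i _ => R.mul_mem (zmod_mem_R R _) (hF i _))
    rw [← lg₀.L.Y_mul]
    exact R.mul_mem (hb.bz _) hω
  · intro V
    obtain ⟨lg⟩ := nonempty_lg G V
    obtain ⟨S⟩ := nonempty_ed lg.L
    obtain ⟨C, hC𝒞, hCb, hCdet, hCprin⟩ := hE.cov _ (tot_of_val lg.L.τ_ne_zero lg.L.vτ)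
    have hC := hE.cone C hC𝒞
    have hb : ∀ j, V.valuation (mon lg.L.τ (C.b j)) ≤ 1 := hCb
    have hCtx : Cx lg.L C := ⟨hC, hb, fun u hu u' hu' => hSgn C hC𝒞 _
      (Finset.mem_image₂_of_mem hu hu')⟩
    have hbase := base_vloc lg hCtx
    let _ : Algebra (ZMod p) (ResidueField V) := (resHom V).toAlgebra
    refine ⟨_, hbase.loc, ?_, ?_, isRegular_local S hCtx (isAlgebraic_chart lg hC) htr⟩
    · intro s hs
      rcases hcase s hs with ⟨i, s', hs', rfl⟩ | ⟨c, rfl⟩ | ⟨c, rfl⟩ | ⟨S', hS', rfl⟩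
      · exact hbase.prin_base i hs'
      · exact ⟨_, gen_sC lg hbase.b1 c (hbase.bz c) (hbase.bt c)⟩
      · exact hbase.prin_s2 c
      · rw [prin_eset_iff hε1 lg.L.τ_ne_zero hbase.gen_ss (gen_sL (G := G) hbase.b1)]
        exact hCprin _ (loc_of_vlocal lg.L.τ_ne_zero hbase.loc hbase.τ_mem)
          (fun j => subset_vloc (Algebra.subset_adjoin ⟨Sum.inl j, rfl⟩)) S' hS'
    · intro R' hR' hs
      have hbase' := hdet V lg R' hR' hs
      apply vloc_le hR'
      apply adjoin_le_of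
      rintro _ ⟨j | (⟨i, b⟩ | c), rfl⟩
      · exact hCdet _ (loc_of_vlocal lg.L.τ_ne_zero hR' hbase'.τ_mem) (fun S' hS' => by
          rw [← prin_eset_iff hε1 lg.L.τ_ne_zero hbase'.gen_ss (gen_sL (G := G) hbase'.b1)]
          exact hs _ (hm3 S' hS')) j
      · show lg.L.y i b ∈ R'
        rw [lg.y_eq]
        exact hbase'.b1 i _ (lg.y_le i b)
      · exact hbase'.bz c

end Pool.Agent.H96.W0
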