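import Pool.Agent.H96.W0.Smooth

/-!
# Presentations with a prescribed smooth coordinate
-/

set_option autoImplicit false
set_option linter.unusedSectionVars false

namespace Pool.Agent.H96.W0

open MvPolynomial IsLocalRing Pool.Agent.H96.VL Pool.Agent.H96.W

variable {p : ℕ} [Fact p.Prime]

variable {R F : Type} [CommRing R] [IsDedekindDomain R] [Field F]
  [Algebra R F] [IsFractionRing R F] [Algebra (ZMod p) R] [Algebra.FiniteType (ZMod p) R]
  [Algebra (ZMod p) F] [IsScalarTower (ZMod p) R F]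

theorem exists_pres' {W : ValuationSubring F} (hW : Le R W) (hq : cen W hW ≠ ⊥) {f c : F}
    (hf : W.valuation f ≤ 1) (hc : W.valuation c ≤ 1) (ht : Unif W (f - c ^ p)) (E : Finset F)
    (hE : ∀ e ∈ E, W.valuation e ≤ 1) :
    ∃ (n : ℕ) (y : Fin (n + 1) → F) (G : Fin (n + 1) → MvPolynomial (Fin (n + 1)) (ZMod p))
      (l : Fin (n + 1)), Pres W n y G l ∧ (∀ e ∈ E, ∃ b, y b = e) ∧ y l = f := by
  classical
  set t := f - c ^ p with htdef
  obtain ⟨S, hS⟩ := (Algebra.FiniteType.out : (⊤ : Subalgebra (ZMod p) R).FG)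
  set E' : Finset F := insert f (insert c (E ∪ S.image (algebraMap R F))) with hE'
  have htE' : f ∈ E' := Finset.mem_insert_self _ _
  have hcE' : c ∈ E' := Finset.mem_insert_of_mem (Finset.mem_insert_self _ _)
  obtain ⟨n, hn⟩ : ∃ n, E'.card = n + 1 :=
    Nat.exists_eq_succ_of_ne_zero (Finset.card_ne_zero_of_mem htE')
  let ε : Fin (n + 1) ≃ E' := ((Fintype.equivFin E').trans (finCongr (by
    rw [Fintype.card_coe, hn]))).symm
  let y : Fin (n + 1) → F := fun b => (ε b : F)
  have hyE : ∀ e ∈ E', ∃ b, y b = e := fun e he => ⟨ε.symm ⟨e, he⟩, by simp [y]⟩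
  obtain ⟨l₀, hl₀⟩ := hyE f htE'
  obtain ⟨c₀, hc₀⟩ := hyE c hcE'
  have hvy : ∀ b, W.valuation (y b) ≤ 1 := by
    intro b
    have h1 : y b ∈ E' := (ε b).2
    rw [hE', Finset.mem_insert, Finset.mem_insert, Finset.mem_union, Finset.mem_image] at h1
    rcases h1 with h1 | h1 | h1 | ⟨g, -, h1⟩
    · rw [h1]; exact hf
    · rw [h1]; exact hc
    · exact hE _ h1
    · rw [← h1]; exact hW g
  have hpoly := exists_poly (p := p) (y := y) hS fun g hg => hyE _ (by
    rw [hE', Finset.mem_insert, Finset.mem_insert, Finset.mem_union]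
    exact Or.inr (Or.inr (Or.inr (Finset.mem_image_of_mem _ hg))))
  have hgen : ∀ w, W.valuation w ≤ 1 → ∃ a s : MvPolynomial (Fin (n + 1)) (ZMod p),
      W.valuation (aeval y s) = 1 ∧ w = aeval y a / aeval y s := by
    intro w hw
    obtain ⟨a, s, hs, hwa⟩ := exists_frac hW hw
    obtain ⟨P, hP⟩ := hpoly a
    obtain ⟨Q, hQ⟩ := hpoly s
    exact ⟨P, Q, by rw [hQ, hs], by rw [hP, hQ, hwa]⟩
  let alg : Algebra (ZMod p) (ResidueField W) := (resHom W).toAlgebra
  set yb : Fin (n + 1) → ResidueField W := fun b => resv W (y b) with hyb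
  have hres : ∀ P : MvPolynomial (Fin (n + 1)) (ZMod p), aeval yb P = resv W (aeval y P) :=
    fun P => ((resv_aevalA (zmod_surj p) y hvy P).2).symm
  have hvP : ∀ P : MvPolynomial (Fin (n + 1)) (ZMod p), W.valuation (aeval y P) ≤ 1 :=
    fun P => (resv_aevalA (zmod_surj p) y hvy P).1
  let D : MvPolynomial (Fin (n + 1)) (ZMod p) → Fin (n + 1) → ResidueField W :=
    fun g l => aeval yb (pderiv l g)
  have hDmul : ∀ f g, D (f * g) = aeval yb f • D g + aeval yb g • D f := by
    intro f g
    funext l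
    show aeval yb (pderiv l (f * g)) = aeval yb f * aeval yb (pderiv l g) +
      aeval yb g * aeval yb (pderiv l f)
    rw [pderiv_mul, map_add, map_mul, map_mul]; ring
  have hDsub : ∀ f g, D (f - g) = D f - D g := by
    intro f g
    funext l
    show aeval yb (pderiv l (f - g)) = aeval yb (pderiv l f) - aeval yb (pderiv l g)
    rw [map_sub, map_sub]
  have hDX : ∀ b, D (X b) = Pi.single b 1 := by
    intro b
    funext l
    show aeval yb (pderiv l (X b)) = (Pi.single b (1 : ResidueField W) :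
      Fin (n + 1) → ResidueField W) l
    rw [pderiv_X, Pi.single_apply, Pi.single_apply]
    by_cases h : l = b
    · subst h; simp
    · rw [if_neg h, if_neg (Ne.symm h), map_zero]
  set Tt : MvPolynomial (Fin (n + 1)) (ZMod p) := X l₀ - X c₀ ^ p with hTt
  have htt : aeval y Tt = t := by
    rw [hTt, map_sub, map_pow, aeval_X, aeval_X, hl₀, hc₀]
  have htb : aeval yb Tt = 0 := by
    rw [hres, htt]
    exact (resv_eq_zero_iff ht.lt.le).mpr ht.lt
  have hpκ0 : ((p : ℕ) : MvPolynomial (Fin (n + 1)) (ZMod p)) = 0 := by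
    rw [← map_natCast MvPolynomial.C, ZMod.natCast_self, map_zero]
  have hDT : D Tt = Pi.single l₀ 1 := by
    rw [hTt, hDsub, hDX]
    have h3 : D (X c₀ ^ p) = 0 := by
      funext l
      show aeval yb (pderiv l (X c₀ ^ p)) = 0
      rw [pderiv_pow, hpκ0, zero_mul, zero_mul, map_zero]
    rw [h3, sub_zero]
  set s : Set (Fin (n + 1) → ResidueField W) := {Pi.single l₀ 1} with hs
  set T : Set (Fin (n + 1) → ResidueField W) :=
    s ∪ {v | ∃ g, aeval y g = 0 ∧ D g = v} with hT
  obtain ⟨Q, hpQ, hQ0, hQ⟩ := exists_card_W (p := p) hW hq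
  have hpκ : ((p : ℕ) : ResidueField W) = 0 := by
    have h1 : algebraMap (ZMod p) (ResidueField W) (p : ZMod p) = 0 := by
      rw [ZMod.natCast_self, map_zero]
    rwa [map_natCast] at h1
  have hQκ : ((Q : ℕ) : ResidueField W) = 0 := by
    obtain ⟨c, rfl⟩ := hpQ
    rw [Nat.cast_mul, hpκ, zero_mul]
  have hspan : ∀ b, (Pi.single b 1 : Fin (n + 1) → ResidueField W) ∈
      Submodule.span (ResidueField W) T := by
    intro b
    have h1 := hQ (y b) (hvy b)
    have h2 : W.valuation ((y b ^ Q - y b) / t) ≤ 1 := by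
      rw [map_div₀]
      have hvt : 0 < W.valuation t := by rw [Valuation.pos_iff]; exact ht.t0
      exact (div_le_one₀ hvt).mpr (ht.max _ h1)
    obtain ⟨a, u, hu, hau⟩ := hgen _ h2
    have hu0 : aeval y u ≠ 0 := by
      intro h0
      rw [h0, map_zero] at hu
      exact zero_ne_one hu
    have hub : aeval yb u ≠ 0 := by
      rw [hres, resv_ne_zero_iff (hvP u)]
      exact hu
    have hker : aeval y (u * (X b ^ Q - X b) - Tt * a) = 0 := by
      rw [map_sub, map_mul, map_mul, map_sub, map_pow, aeval_X, htt]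
      have h3 := ht.t0
      rw [div_eq_div_iff h3 hu0] at hau
      linear_combination hau
    have he0 : aeval yb (X b ^ Q - X b : MvPolynomial (Fin (n + 1)) (ZMod p)) = 0 := by
      rw [hres, map_sub, map_pow, aeval_X]
      exact (resv_eq_zero_iff h1.le).mpr h1
    have hDe : D (X b ^ Q - X b) = -Pi.single b 1 := by
      rw [hDsub, hDX]
      have h3 : D (X b ^ Q) = 0 := by
        funext l
        show aeval yb (pderiv l (X b ^ Q)) = 0
        rw [pderiv_pow, map_mul, map_mul, map_natCast, hQκ, zero_mul, zero_mul]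
      rw [h3, zero_sub]
    have h4 : D (u * (X b ^ Q - X b) - Tt * a) =
        -(aeval yb u • Pi.single b 1) - aeval yb a • Pi.single l₀ 1 := by
      rw [hDsub, hDmul, hDmul, he0, htb, hDe, hDT, zero_smul, zero_smul, add_zero, zero_add,
        smul_neg]
    have h5 : (Pi.single b 1 : Fin (n + 1) → ResidueField W) =
        (aeval yb u)⁻¹ • (-(D (u * (X b ^ Q - X b) - Tt * a)) -
          aeval yb a • Pi.single l₀ 1) := by
      rw [h4]
      have : -(-(aeval yb u • (Pi.single b 1 : Fin (n + 1) → ResidueField W)) -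
          aeval yb a • Pi.single l₀ 1) - aeval yb a • Pi.single l₀ 1 =
          aeval yb u • Pi.single b 1 := by abel
      rw [this, smul_smul, inv_mul_cancel₀ hub, one_smul]
    rw [h5]
    refine Submodule.smul_mem _ _ (Submodule.sub_mem _ (Submodule.neg_mem _ ?_)
      (Submodule.smul_mem _ _ ?_))
    · exact Submodule.subset_span (Or.inr ⟨_, hker, rfl⟩)
    · exact Submodule.subset_span (Or.inl rfl)
  have hspanT : Submodule.span (ResidueField W) T = ⊤ := by
    rw [eq_top_iff]
    intro v _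
    have h1 : v = ∑ b, v b • (Pi.single b 1 : Fin (n + 1) → ResidueField W) := by
      funext l
      rw [Finset.sum_apply, Finset.sum_eq_single l]
      · simp
      · intro b _ hb
        rw [Pi.smul_apply, Pi.single_eq_of_ne (Ne.symm hb), smul_zero]
      · intro h; exact absurd (Finset.mem_univ _) h
    rw [h1]
    exact Submodule.sum_mem _ fun b _ => Submodule.smul_mem _ _ (hspan b)
  have hsLI : LinearIndepOn (ResidueField W) id s := by
    rw [hs]
    apply LinearIndepOn.singleton
    intro h0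
    have := congrFun h0 l₀
    simp at this
  obtain ⟨B, hBT, hsB, hTB, hBLI⟩ := exists_linearIndepOn_id_extension hsLI
    (show s ⊆ T from Set.subset_union_left)
  have hBspan : Submodule.span (ResidueField W) B = ⊤ := by
    rw [eq_top_iff, ← hspanT, Submodule.span_le]
    exact hTB
  let bas : Module.Basis B (ResidueField W) (Fin (n + 1) → ResidueField W) :=
    Module.Basis.mk (v := ((↑) : B → Fin (n + 1) → ResidueField W)) hBLI (by
      rw [Subtype.range_coe, hBspan])
  have hBfin : Finite B := by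
    have := Module.Finite.finite_basis bas
    exact this
  let _ : Fintype B := Fintype.ofFinite B
  have hcard : Fintype.card B = n + 1 := by
    have := Module.finrank_eq_card_basis bas
    rw [Module.finrank_fin_fun] at this
    exact this.symm
  have hl₀B : (Pi.single l₀ 1 : Fin (n + 1) → ResidueField W) ∈ B := hsB rfl
  let e0 : Fin (n + 1) ≃ B := ((Fintype.equivFin B).trans (finCongr hcard)).symm
  let e : Fin (n + 1) ≃ B := (Equiv.swap 0 (e0.symm ⟨_, hl₀B⟩)).trans e0
  have he0 : (e 0 : Fin (n + 1) → ResidueField W) = Pi.single l₀ 1 := by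
    show ((e0 (Equiv.swap 0 (e0.symm ⟨_, hl₀B⟩) 0) : B) : Fin (n + 1) → ResidueField W) = _
    rw [Equiv.swap_apply_left, Equiv.apply_symm_apply]
  have hex : ∀ i : Fin n, ∃ g, aeval y g = 0 ∧ D g = (e i.succ : Fin (n + 1) → ResidueField W) := by
    intro i
    rcases hBT (e i.succ).2 with h1 | h1
    · exfalso
      have h2 : (e i.succ : Fin (n + 1) → ResidueField W) = Pi.single l₀ 1 := h1
      rw [← he0] at h2
      have h3 := e.injective (Subtype.ext h2)
      exact Fin.succ_ne_zero i h3
    · exact h1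
  choose g hg1 hg2 using hex
  let G : Fin (n + 1) → MvPolynomial (Fin (n + 1)) (ZMod p) := Fin.cons (X l₀) g
  have hGD : ∀ i, D (G i) = (e i : Fin (n + 1) → ResidueField W) := by
    intro i
    refine Fin.cases ?_ (fun i => ?_) i
    · show D (X l₀) = _
      rw [hDX, he0]
    · show D (g i) = _
      exact hg2 i
  refine ⟨n, y, G, l₀, ⟨hvy, hgen, rfl, fun i => hg1 i, ?_⟩, fun e he => hyE e (by
    rw [hE', Finset.mem_insert, Finset.mem_insert, Finset.mem_union]
    exact Or.inr (Or.inr (Or.inl he))), hl₀⟩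
  -- the determinant
  have hM : IsUnit (Matrix.of fun i l => (e i : Fin (n + 1) → ResidueField W) l) := by
    rw [← Matrix.linearIndependent_rows_iff_isUnit]
    exact hBLI.comp e e.injective
  have hdet : aeval yb (Matrix.of fun i l => pderiv l (G i)).det =
      (Matrix.of fun i l => (e i : Fin (n + 1) → ResidueField W) l).det := by
    have h1 := RingHom.map_det (aeval yb : MvPolynomial (Fin (n + 1)) (ZMod p) →ₐ[ZMod p] _).toRingHom
      (Matrix.of fun i l => pderiv l (G i))
    refine h1.trans ?_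
    congr 1
    ext i l
    exact congrFun (hGD i) l
  have h2 : aeval yb (Matrix.of fun i l => pderiv l (G i)).det ≠ 0 := by
    rw [hdet]
    exact ((Matrix.isUnit_iff_isUnit_det _).mp hM).ne_zero
  rw [hres, resv_ne_zero_iff (hvP _)] at h2
  exact h2


/-- Presentations at the smooth places. -/
theorem exists_pres_smooth {W : ValuationSubring F} (hW : Le R W) (hq : cen W hW ≠ ⊥) {f g : F}
    [CharP F p] (hf : W.valuation f ≤ 1) (hg : W.valuation g ≤ 1)
    (h : ∀ w, W.valuation w ≤ 1 → w ∈ pring p W.toSubring f) :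
    ∃ (n : ℕ) (y : Fin (n + 1) → F) (G : Fin (n + 1) → MvPolynomial (Fin (n + 1)) (ZMod p))
      (l : Fin (n + 1)), Pres W n y G l ∧ y l = f - g ^ p := by
  obtain ⟨t, ht⟩ := exists_place hW hq
  have hqm : (cen W hW).IsMaximal := (cen_isPrime hW).isMaximal hq
  -- a `p`-th root of the residue
  obtain ⟨c, hc, hfc⟩ : ∃ c : F, W.valuation c ≤ 1 ∧ W.valuation (f - c ^ p) < 1 := by
    obtain ⟨a, s, hs, rfl⟩ := exists_frac hW hf
    have hs0 : algebraMap R F s ≠ 0 := by
      intro h0
      rw [h0, map_zero] at hs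
      exact zero_ne_one hs
    obtain ⟨c, hc⟩ := perfect_res (p := p) _ hqm (a * s ^ (p - 1))
    refine ⟨algebraMap R F c / algebraMap R F s, ?_, ?_⟩
    · rw [map_div₀, hs, div_one]
      exact hW c
    · have h1 : algebraMap R F a / algebraMap R F s - (algebraMap R F c / algebraMap R F s) ^ p =
          -(algebraMap R F (c ^ p - a * s ^ (p - 1)) / algebraMap R F s ^ p) := by
        obtain ⟨n, hn⟩ : ∃ n, p = n + 1 := ⟨p - 1, by have := (Fact.out : p.Prime).pos; omega⟩
        rw [hn, Nat.add_sub_cancel, map_sub, map_mul, map_pow, map_pow, div_pow, pow_succ (algebraMap R F s)]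
        field_simp
        ring
      rw [h1, Valuation.map_neg, map_div₀, map_pow, hs, one_pow, div_one]
      exact hc
  have hu := unif_of_pring ht.unif hf hc hfc (h _ (hW t))
  have h1 : f - c ^ p = (f - g ^ p) - (c - g) ^ p := by
    rw [sub_pow_char]; ring
  have hg' : W.valuation (f - g ^ p) ≤ 1 := by
    refine (W.valuation.map_sub _ _).trans (max_le hf ?_)
    rw [map_pow]
    exact pow_le_one' hg _
  rw [h1] at hu
  obtain ⟨n, y, G, l, h2, -, h3⟩ := exists_pres' hW hq hg'
    ((W.valuation.map_sub c g).trans (max_le hc hg)) hu ∅ (fun e he => by simp at he)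
  exact ⟨n, y, G, l, h2, h3⟩

/-- The trivial place. -/
theorem exists_pres_smooth_triv {W : ValuationSubring F} (hnf : ¬ IsField R)
    (htriv : ∀ w, w ≠ 0 → W.valuation w = 1) {b : R} (hb0 : b ≠ 0) {f g : F} [CharP F p]
    (hb : ∀ W : ValuationSubring F, Le R W → W.valuation (algebraMap R F b) = 1 →
      W.valuation f ≤ 1 ∧ ∀ w, W.valuation w ≤ 1 → w ∈ pring p W.toSubring f)
    (hg : ∀ W : ValuationSubring F, Le R W → W.valuation (algebraMap R F b) = 1 →
      W.valuation g ≤ 1) :
    ∃ (n : ℕ) (y : Fin (n + 1) → F) (G : Fin (n + 1) → MvPolynomial (Fin (n + 1)) (ZMod p))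
      (l : Fin (n + 1)), Pres W n y G l ∧ y l = f - g ^ p := by
  have hbF := algebraMap_ne_zero (F := F) hb0
  obtain ⟨W', hW', hq', hE'⟩ := exists_nontrivial p hnf {(algebraMap R F b)⁻¹}
  have hvb : W'.valuation (algebraMap R F b) = 1 := by
    apply le_antisymm (hW' b)
    have h1 := hE' _ (Finset.mem_singleton_self _)
    rw [map_inv₀] at h1
    have h2 : 0 < W'.valuation (algebraMap R F b) := by rw [Valuation.pos_iff]; exact hbF
    exact (inv_le_one₀ h2).mp h1
  obtain ⟨h3, h4⟩ := hb W' hW' hvb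
  obtain ⟨n, y, G, l, h1, h2⟩ := exists_pres_smooth (p := p) hW' hq' h3 (hg W' hW' hvb) h4
  have hv : ∀ w : F, W.valuation w ≤ 1 := by
    intro w
    by_cases hw : w = 0
    · rw [hw, map_zero]; exact zero_le
    · exact (htriv w hw).le
  have hne : ∀ {w : F}, W'.valuation w = 1 → w ≠ 0 := by
    intro w hw h0
    rw [h0, map_zero] at hw
    exact zero_ne_one hw
  refine ⟨n, y, G, l, ⟨fun b => hv _, fun w _ => ?_, h1.G0, h1.rel, htriv _ (hne h1.det)⟩, h2⟩
  obtain ⟨a, b, hb, rfl⟩ := IsFractionRing.div_surjective (A := R) w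
  have hb0 : b ≠ 0 := nonZeroDivisors.ne_zero hb
  have hb0' := algebraMap_ne_zero (F := F) hb0
  obtain ⟨P1, Q1, hQ1, h3⟩ := h1.gen _ (hW' a)
  obtain ⟨P2, Q2, hQ2, h4⟩ := h1.gen _ (hW' b)
  have hP2 : aeval y P2 ≠ 0 := by
    intro h0
    rw [h0, zero_div] at h4
    exact hb0' h4
  have h5 := hne hQ1
  have h6 := hne hQ2
  refine ⟨P1 * Q2, Q1 * P2, ?_, ?_⟩
  · rw [map_mul]
    exact htriv _ (mul_ne_zero h5 hP2)
  · rw [h3, h4, map_mul, map_mul]
    field_simp

end Pool.Agent.H96.W0
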