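import Mathlib

/-!
# Elements which are not `p`-th powers in a function field of a curve
-/

set_option autoImplicit false

namespace Pool.Agent.H96.W0

open IntermediateField Polynomial

section

variable {p : ℕ} [Fact p.Prime] {F : Type} [Field F] [CharP F p]

/-- The elements which are polynomials in `f` with `p`-th powers as coefficients. -/
def pring (p : ℕ) [Fact p.Prime] {F : Type} [Field F] [CharP F p] (B : Subring F) (f : F) :
    Subring F where
  carrier := {w | ∃ P : F[X], (∀ k, P.coeff k ∈ B) ∧ w = P.eval₂ (frobenius F p) f}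
  mul_mem' := by
    rintro _ _ ⟨P, hP, rfl⟩ ⟨Q, hQ, rfl⟩
    refine ⟨P * Q, fun k => ?_, (eval₂_mul _ _).symm⟩
    rw [coeff_mul]
    exact B.sum_mem fun x _ => B.mul_mem (hP _) (hQ _)
  one_mem' := by
    refine ⟨1, fun k => ?_, (eval₂_one _ _).symm⟩
    rw [coeff_one]
    split_ifs
    · exact B.one_mem
    · exact B.zero_mem
  add_mem' := by
    rintro _ _ ⟨P, hP, rfl⟩ ⟨Q, hQ, rfl⟩
    refine ⟨P + Q, fun k => ?_, (eval₂_add _ _).symm⟩
    rw [coeff_add]
    exact B.add_mem (hP _) (hQ _)
  zero_mem' := ⟨0, fun k => by rw [coeff_zero]; exact B.zero_mem, (eval₂_zero _ _).symm⟩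
  neg_mem' := by
    rintro _ ⟨P, hP, rfl⟩
    refine ⟨-P, fun k => ?_, (eval₂_neg _).symm⟩
    rw [coeff_neg]
    exact B.neg_mem (hP _)

theorem mem_pring {B : Subring F} {f w : F} :
    w ∈ pring p B f ↔ ∃ P : F[X], (∀ k, P.coeff k ∈ B) ∧ w = P.eval₂ (frobenius F p) f := Iff.rfl

theorem self_mem_pring (B : Subring F) (f : F) : f ∈ pring p B f := by
  refine ⟨X, fun k => ?_, (eval₂_X _ _).symm⟩
  rw [coeff_X]
  split_ifs
  · exact B.one_mem
  · exact B.zero_mem

theorem pow_mem_pring {B : Subring F} (f : F) {a : F} (ha : a ∈ B) : a ^ p ∈ pring p B f := by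
  refine ⟨C a, fun k => ?_, by rw [eval₂_C, frobenius_def]⟩
  rw [coeff_C]
  split_ifs
  · exact ha
  · exact B.zero_mem

end

/-- **Lemma A.** -/
theorem mem_pring_top {p : ℕ} [Fact p.Prime] {F : Type} [Field F] [Algebra (ZMod p) F] [CharP F p]
    (x : F) [Algebra.IsSeparable (ZMod p)⟮x⟯ F] (f : F) (hf : ∀ a : F, a ^ p ≠ f) (w : F) :
    w ∈ pring p (⊤ : Subring F) f := by
  have hp : p.Prime := Fact.out
  set k' : Subfield F := (frobenius F p).fieldRange with hk'
  have hmem : ∀ a : F, a ^ p ∈ k' := fun a => ⟨a, frobenius_def p a⟩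
  have hk'ex : ∀ y ∈ k', ∃ a : F, a ^ p = y := by
    rintro y ⟨a, rfl⟩
    exact ⟨a, (frobenius_def p a).symm⟩
  have hchar : ExpChar (ZMod p)⟮x⟯ p := by
    have : CharP (ZMod p)⟮x⟯ p := charP_of_injective_algebraMap (algebraMap (ZMod p) _).injective p
    exact .prime hp
  -- the element `x` generates
  have htop : (k'⟮x⟯ : IntermediateField k' F) = ⊤ := by
    rw [eq_top_iff]
    intro y _
    have h1 : y ∈ (adjoin (ZMod p)⟮x⟯ (Set.univ : Set F)) := subset_adjoin _ _ trivial
    rw [adjoin_eq_adjoin_pow_expChar_of_isSeparable' (ZMod p)⟮x⟯ F Set.univ p] at h1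
    have h2 : (adjoin (ZMod p)⟮x⟯ ((fun a => a ^ p) '' (Set.univ : Set F))).toSubfield ≤
        (k'⟮x⟯ : IntermediateField k' F).toSubfield := by
      rw [adjoin_toSubfield, Subfield.closure_le]
      rintro z (⟨⟨z, hz⟩, rfl⟩ | ⟨a, -, rfl⟩)
      · show z ∈ k'⟮x⟯.toSubfield
        have h3 : ((ZMod p)⟮x⟯).toSubfield ≤ (k'⟮x⟯ : IntermediateField k' F).toSubfield := by
          rw [adjoin_toSubfield, Subfield.closure_le]
          rintro u (⟨c, rfl⟩ | hu)
          · have h4 : algebraMap (ZMod p) F c ∈ k' := by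
              have h5 := hmem (algebraMap (ZMod p) F c)
              rwa [← map_pow, ZMod.pow_card] at h5
            exact (k'⟮x⟯ : IntermediateField k' F).algebraMap_mem ⟨_, h4⟩
          · rw [Set.mem_singleton_iff.mp hu]
            exact mem_adjoin_simple_self k' x
        exact h3 hz
      · exact (k'⟮x⟯ : IntermediateField k' F).algebraMap_mem ⟨_, hmem a⟩
    exact h2 h1
  -- degrees
  have hint : ∀ y : F, IsIntegral k' y := by
    intro y
    refine ⟨X ^ p - C ⟨y ^ p, hmem y⟩, monic_X_pow_sub_C _ hp.ne_zero, ?_⟩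
    rw [eval₂_sub, eval₂_X_pow, eval₂_C]
    exact sub_self _
  have hroot : ∀ y : F, aeval y (X ^ p - C (⟨y ^ p, hmem y⟩ : k')) = 0 := by
    intro y
    rw [map_sub, map_pow, aeval_X, aeval_C]
    exact sub_self _
  have hfin : FiniteDimensional k' F := by
    have h1 : FiniteDimensional k' k'⟮x⟯ := adjoin.finiteDimensional (hint x)
    rw [htop] at h1
    exact Module.Finite.equiv (IntermediateField.topEquiv (F := k') (E := F)).toLinearEquiv
  have hle : Module.finrank k' F ≤ p := by
    have h1 : Module.finrank k' k'⟮x⟯ = (minpoly k' x).natDegree := adjoin.finrank (hint x)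
    have h2 : (minpoly k' x).natDegree ≤ p := by
      have h3 := minpoly.dvd k' x (hroot x)
      have h4 := natDegree_le_of_dvd h3 (monic_X_pow_sub_C _ hp.ne_zero).ne_zero
      rwa [natDegree_X_pow_sub_C] at h4
    rw [htop, IntermediateField.finrank_top'] at h1
    omega
  have hirr : Irreducible (X ^ p - C (⟨f ^ p, hmem f⟩ : k')) := by
    apply X_pow_sub_C_irreducible_of_prime hp
    rintro ⟨b, hb⟩ hbf
    have h1 : b ^ p = f ^ p := congrArg Subtype.val hbf
    have h2 : b = f := by
      have h3 : frobenius F p b = frobenius F p f := by rw [frobenius_def, frobenius_def, h1]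
      exact (frobenius F p).injective h3
    obtain ⟨a, ha⟩ := hk'ex b hb
    exact hf a (ha.trans h2)
  have hmp : minpoly k' f = X ^ p - C (⟨f ^ p, hmem f⟩ : k') :=
    (minpoly.eq_of_irreducible_of_monic hirr (hroot f) (monic_X_pow_sub_C _ hp.ne_zero)).symm
  have hftop : (k'⟮f⟯ : IntermediateField k' F) = ⊤ := by
    apply IntermediateField.eq_of_le_of_finrank_le le_top
    rw [IntermediateField.finrank_top', adjoin.finrank (hint f), hmp, natDegree_X_pow_sub_C]
    exact hle
  have h1 : w ∈ (k'⟮f⟯ : IntermediateField k' F).toSubalgebra := by rw [hftop]; trivial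
  rw [adjoin_simple_toSubalgebra_of_isAlgebraic (hint f).isAlgebraic] at h1
  induction h1 using Algebra.adjoin_induction with
  | mem y hy => rw [Set.mem_singleton_iff.mp hy]; exact self_mem_pring _ f
  | algebraMap r =>
    obtain ⟨a, ha⟩ := hk'ex r r.2
    have h2 := pow_mem_pring (p := p) (B := (⊤ : Subring F)) f (a := a) trivial
    rw [ha] at h2
    exact h2
  | add y z _ _ hy hz => exact Subring.add_mem _ hy hz
  | mul y z _ _ hy hz => exact Subring.mul_mem _ hy hz

end Pool.Agent.H96.W0
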