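import Pool.Agent.H96.W0.Sep
import Pool.Agent.H96.W.CData2

/-!
# The places where a function is smooth
-/

set_option autoImplicit false
set_option linter.unusedSectionVars false

namespace Pool.Agent.H96.W0

open Polynomial Pool.Agent.H96.W

variable {p : ℕ} [Fact p.Prime]

section Abs

variable {F : Type} [Field F] [CharP F p] {W : ValuationSubring F}

theorem eval₂_mem_toSubring {P : F[X]} (hP : ∀ k, P.coeff k ∈ W.toSubring) {f : F} (hf : W.valuation f ≤ 1) :
    W.valuation (P.eval₂ (frobenius F p) f) ≤ 1 := by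
  rw [eval₂_eq_sum_range]
  refine Valuation.map_sum_le _ fun k _ => ?_
  rw [map_mul, map_pow, frobenius_def, map_pow]
  exact mul_le_one' (pow_le_one' ((W.valuation_le_one_iff _).mpr (hP k)) _) (pow_le_one' hf _)

/-- Taylor expansion. -/
theorem exists_taylor {P : F[X]} (hP : ∀ k, P.coeff k ∈ W.toSubring) {c s : F}
    (hc : W.valuation c ≤ 1) (hs : W.valuation s ≤ 1) : ∃ q r : F, W.valuation q ≤ 1 ∧
      W.valuation r ≤ 1 ∧ P.eval₂ (frobenius F p) (c ^ p + s) = q ^ p + s * r := by
  have hp : p.Prime := Fact.out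
  -- per monomial
  have hmono : ∀ k : ℕ, ∃ r : F, W.valuation r ≤ 1 ∧ (c ^ p + s) ^ k = (c ^ k) ^ p + s * r := by
    intro k
    induction k with
    | zero => exact ⟨0, by rw [map_zero]; exact zero_le, by simp⟩
    | succ k ih =>
      obtain ⟨r, hr, h⟩ := ih
      refine ⟨(c ^ k) ^ p + r * (c ^ p + s), ?_, ?_⟩
      · refine (W.valuation.map_add _ _).trans (max_le ?_ ?_)
        · rw [map_pow, map_pow]
          exact pow_le_one' (pow_le_one' hc _) _
        · rw [map_mul]
          refine mul_le_one' hr ((W.valuation.map_add _ _).trans (max_le ?_ hs))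
          rw [map_pow]
          exact pow_le_one' hc _
      · rw [pow_succ, h]
        ring
  choose r hr h using hmono
  refine ⟨∑ k ∈ Finset.range (P.natDegree + 1), P.coeff k * c ^ k,
    ∑ k ∈ Finset.range (P.natDegree + 1), P.coeff k ^ p * r k, ?_, ?_, ?_⟩
  · refine Valuation.map_sum_le _ fun k _ => ?_
    rw [map_mul, map_pow]
    exact mul_le_one' ((W.valuation_le_one_iff _).mpr (hP k)) (pow_le_one' hc _)
  · refine Valuation.map_sum_le _ fun k _ => ?_
    rw [map_mul, map_pow]
    exact mul_le_one' (pow_le_one' ((W.valuation_le_one_iff _).mpr (hP k)) _) (hr k)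
  · rw [eval₂_eq_sum_range, sum_pow_char, Finset.mul_sum, ← Finset.sum_add_distrib]
    refine Finset.sum_congr rfl fun k _ => ?_
    rw [h, frobenius_def]
    ring

/-- **The smooth criterion.** -/
theorem unif_of_pring {f c t : F} (ht : Unif W t) (hf : W.valuation f ≤ 1)
    (hc : W.valuation c ≤ 1) (hfc : W.valuation (f - c ^ p) < 1)
    (h : t ∈ pring p W.toSubring f) : Unif W (f - c ^ p) := by
  have hp : p.Prime := Fact.out
  obtain ⟨P, hP, htP⟩ := h
  have h1 : f = c ^ p + (f - c ^ p) := by ring
  rw [h1] at htP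
  obtain ⟨q, r, hq, hr, h2⟩ := exists_taylor hP hc hfc.le
  rw [h2] at htP
  have hvt := ht.vt0
  have hmul : W.valuation ((f - c ^ p) * r) < 1 := by
    rw [map_mul]
    exact (mul_le_of_le_one_right' hr).trans_lt hfc
  have hq1 : W.valuation q < 1 := by
    by_contra hcon
    have h3 : W.valuation q = 1 := le_antisymm hq (not_lt.mp hcon)
    have h4 : W.valuation (q ^ p + (f - c ^ p) * r) = 1 := by
      rw [W.valuation.map_add_eq_of_lt_left (by rw [map_pow, h3, one_pow]; exact hmul), map_pow, h3,
        one_pow]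
    rw [← htP] at h4
    exact absurd h4 ht.lt.ne
  have hqp : W.valuation (q ^ p) < W.valuation t := by
    rw [map_pow]
    calc W.valuation q ^ p ≤ W.valuation t ^ p := pow_le_pow_left' (ht.max _ hq1) _
      _ < W.valuation t ^ 1 := pow_lt_pow_right_of_lt_one₀ hvt ht.lt hp.one_lt
      _ = W.valuation t := pow_one _
  have h5 : W.valuation t = W.valuation ((f - c ^ p) * r) := by
    have h6 : (f - c ^ p) * r = t - q ^ p := by rw [htP]; ring
    rw [h6, W.valuation.map_sub_eq_of_lt_left hqp]
  have h7 : W.valuation t ≤ W.valuation (f - c ^ p) := by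
    rw [h5, map_mul]
    exact mul_le_of_le_one_right' hr
  refine ⟨hfc, ?_, fun w hw => (ht.max w hw).trans h7⟩
  intro h0
  rw [h0, map_zero] at h7
  exact absurd h7 (not_le.mpr hvt)

end Abs

section Den

variable {R F : Type} [CommRing R] [IsDedekindDomain R] [Field F] [Algebra R F] [IsFractionRing R F]

/-- A common denominator. -/
theorem exists_den_finset (E : Finset F) : ∃ b : R, b ≠ 0 ∧ ∀ W : ValuationSubring F, Le R W →
    W.valuation (algebraMap R F b) = 1 → ∀ e ∈ E, W.valuation e ≤ 1 := by
  classical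
  have hden : ∀ e : F, ∃ s : R, s ≠ 0 ∧ ∃ a, algebraMap R F s * e = algebraMap R F a := by
    intro e
    obtain ⟨a, b, hb, rfl⟩ := IsFractionRing.div_surjective (A := R) e
    have hb0 : b ≠ 0 := nonZeroDivisors.ne_zero hb
    have hb0' := algebraMap_ne_zero (F := F) hb0
    exact ⟨b, hb0, a, by field_simp⟩
  choose s hs0 a ha using hden
  refine ⟨∏ e ∈ E, s e, Finset.prod_ne_zero_iff.mpr fun e _ => hs0 e, fun W hW hv e he => ?_⟩
  have h1 : W.valuation (algebraMap R F (s e)) = 1 := by
    apply le_antisymm (hW _)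
    rw [← hv, ← Finset.mul_prod_erase E s he, map_mul, map_mul]
    exact mul_le_of_le_one_right' (hW _)
  have h3 := congrArg W.valuation (ha e)
  rw [map_mul, h1, one_mul] at h3
  rw [h3]
  exact hW _

variable [CharP F p] [Algebra (ZMod p) R] [Algebra.FiniteType (ZMod p) R]
  [Algebra (ZMod p) F] [IsScalarTower (ZMod p) R F]

/-- The smooth places. -/
theorem exists_smooth {f : F} (hA : ∀ w : F, w ∈ pring p (⊤ : Subring F) f) :
    ∃ b : R, b ≠ 0 ∧ ∀ W : ValuationSubring F, Le R W → W.valuation (algebraMap R F b) = 1 →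
      W.valuation f ≤ 1 ∧ ∀ w, W.valuation w ≤ 1 → w ∈ pring p W.toSubring f := by
  classical
  have hp : p.Prime := Fact.out
  obtain ⟨S, hS⟩ := (Algebra.FiniteType.out : (⊤ : Subalgebra (ZMod p) R).FG)
  choose P hP0 hP using fun w : F => mem_pring.mp (hA w)
  set E : Finset F := insert f (S.biUnion fun g =>
    (P (algebraMap R F g)).support.image (P (algebraMap R F g)).coeff) with hE
  obtain ⟨b, hb0, hb⟩ := exists_den_finset (R := R) E
  refine ⟨b, hb0, fun W hW hv => ?_⟩
  have hEW := hb W hW hv
  have hf := hEW f (Finset.mem_insert_self _ _)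
  refine ⟨hf, ?_⟩
  have hgen : ∀ g ∈ S, algebraMap R F g ∈ pring p W.toSubring f := by
    intro g hg
    refine ⟨P (algebraMap R F g), fun k => ?_, hP _⟩
    by_cases hk : (P (algebraMap R F g)).coeff k = 0
    · rw [hk]; exact Subring.zero_mem _
    · refine (W.valuation_le_one_iff _).mp (hEW _ ?_)
      exact Finset.mem_insert_of_mem (Finset.mem_biUnion.mpr ⟨g, hg,
        Finset.mem_image_of_mem _ (mem_support_iff.mpr hk)⟩)
  have hR : ∀ a : R, algebraMap R F a ∈ pring p W.toSubring f := by
    intro a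
    have ha : a ∈ Algebra.adjoin (ZMod p) (S : Set R) := by rw [hS]; trivial
    induction ha using Algebra.adjoin_induction with
    | mem x hx => exact hgen x hx
    | algebraMap r =>
      rw [← IsScalarTower.algebraMap_apply]
      have h1 := pow_mem_pring (p := p) (B := W.toSubring) f (zmod_mem W r)
      rwa [← map_pow, ZMod.pow_card] at h1
    | add u v _ _ hu hv => rw [map_add]; exact Subring.add_mem _ hu hv
    | mul u v _ _ hu hv => rw [map_mul]; exact Subring.mul_mem _ hu hv
  intro w hw
  obtain ⟨a, s, hs, rfl⟩ := exists_frac hW hw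
  have hs0 : algebraMap R F s ≠ 0 := by
    intro h0
    rw [h0, map_zero] at hs
    exact zero_ne_one hs
  have h1 : algebraMap R F a / algebraMap R F s =
      algebraMap R F a * algebraMap R F s ^ (p - 1) * (algebraMap R F s)⁻¹ ^ p := by
    obtain ⟨n, hn⟩ : ∃ n, p = n + 1 := ⟨p - 1, by have := hp.pos; omega⟩
    rw [hn, Nat.add_sub_cancel, inv_pow, pow_succ]
    field_simp
  rw [h1]
  refine Subring.mul_mem _ (Subring.mul_mem _ (hR a) (Subring.pow_mem _ (hR s) _))
    (pow_mem_pring f ?_)
  show (algebraMap R F s)⁻¹ ∈ W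
  refine (W.valuation_le_one_iff _).mp ?_
  rw [map_inv₀, hs, inv_one]

end Den

end Pool.Agent.H96.W0
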